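import Mathlib

/-! [N50 K13] Artin-Rees in an algebra with a nilpotent ideal (abstract). -/

namespace MP50e386N

variable {K R : Type} [CommRing K] [Ring R] [Algebra K R]

private theorem k13_m {a a' b b' : Submodule K R} (h : a ≤ a') (h' : b ≤ b') :
    a * b ≤ a' * b' := mul_le_mul' h h'

private theorem k13_r {a a' : Submodule K R} (h : a ≤ a') (b : Submodule K R) :
    a * b ≤ a' * b := mul_le_mul' h le_rfl

private theorem k13_l {b b' : Submodule K R} (h : b ≤ b') (a : Submodule K R) :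
    a * b ≤ a * b' := mul_le_mul' le_rfl h

private theorem k13_pow_le_S {S a : Submodule K R} (hSS : S * S ≤ S) (h1 : (1 : R) ∈ S)
    (ha : a ≤ S) (k : ℕ) : a ^ k ≤ S := by
  induction k with
  | zero =>
    rw [pow_zero, Submodule.one_le]
    exact h1
  | succ k ih =>
    rw [pow_succ]
    exact (k13_m ih ha).trans hSS

private theorem k13_S_pow {S a : Submodule K R} (hSa : S * a ≤ a) {p : ℕ} (hp : 1 ≤ p) :
    S * a ^ p ≤ a ^ p := by
  obtain ⟨k, rfl⟩ := Nat.exists_eq_add_of_le' hp
  rw [pow_succ', ← mul_assoc]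
  exact k13_r hSa _

private theorem k13_pow_S {S a : Submodule K R} (haS : a * S ≤ a) {p : ℕ} (hp : 1 ≤ p) :
    a ^ p * S ≤ a ^ p := by
  obtain ⟨k, rfl⟩ := Nat.exists_eq_add_of_le' hp
  rw [pow_succ, mul_assoc]
  exact k13_l haS _

private theorem k13_anti {S a : Submodule K R} (hSS : S * S ≤ S) (h1 : (1 : R) ∈ S)
    (ha : a ≤ S) (hSa : S * a ≤ a) {p i : ℕ} (hp : 1 ≤ p) (hpi : p ≤ i) : a ^ i ≤ a ^ p := by
  obtain ⟨k, rfl⟩ := Nat.exists_eq_add_of_le' hpi
  rw [pow_add]
  exact (k13_r (k13_pow_le_S hSS h1 ha k) _).trans (k13_S_pow hSa hp)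

/-- `x W(i,j)` -/
private theorem k13_step {S a b : Submodule K R} (hSS : S * S ≤ S) (ha : a ≤ S)
    (hSb : S * b ≤ b) (i j : ℕ) :
    a * ((a ^ i * S) ⊓ (b ^ j * S)) ≤ (a ^ (i + 1) * S) ⊓ (b ^ j * S) := by
  refine le_inf ?_ ?_
  · refine (k13_l inf_le_left _).trans ?_
    rw [← mul_assoc, pow_succ']
  · refine (k13_m ha inf_le_right).trans ?_
    rw [← mul_assoc]
    rcases Nat.eq_zero_or_pos j with rfl | hj
    · rw [pow_zero, mul_one, one_mul]
      exact hSS
    · exact k13_r (k13_S_pow hSb hj) _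

/-- a word of length `p + q` in two two-sided ideals `a`, `b` of the subalgebra `S` -/
theorem sup_pow_le (S a b : Submodule K R) (hSS : S * S ≤ S) (h1 : (1 : R) ∈ S) (ha : a ≤ S)
    (hb : b ≤ S) (hSa : S * a ≤ a) (haS : a * S ≤ a) (hSb : S * b ≤ b) (hbS : b * S ≤ b)
    (p q : ℕ) (hp : 1 ≤ p) : (a ⊔ b) ^ (p + q) ≤ a ^ p ⊔ b ^ (q + 1) := by
  have key : ∀ m : ℕ, (a ⊔ b) ^ m ≤
      ⨆ (i : ℕ) (j : ℕ) (_ : i + j = m), (a ^ i * S) ⊓ (b ^ j * S) := by
    intro m
    induction m with
    | zero =>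
      refine le_trans ?_ (le_iSup_of_le 0 (le_iSup_of_le 0 (le_iSup_of_le rfl le_rfl)))
      rw [pow_zero, pow_zero, pow_zero, one_mul, inf_idem, Submodule.one_le]
      exact h1
    | succ m ih =>
      rw [pow_succ']
      refine (k13_l ih _).trans ?_
      rw [Submodule.sup_mul]
      simp only [Submodule.mul_iSup]
      refine sup_le (iSup_le fun i => iSup_le fun j => iSup_le fun h => ?_)
        (iSup_le fun i => iSup_le fun j => iSup_le fun h => ?_)
      · exact (k13_step hSS ha hSb i j).trans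
          (le_iSup_of_le (i + 1) (le_iSup_of_le j (le_iSup_of_le (by omega) le_rfl)))
      · rw [inf_comm]
        refine (k13_step hSS hb hSa j i).trans ?_
        rw [inf_comm]
        exact le_iSup_of_le i (le_iSup_of_le (j + 1) (le_iSup_of_le (by omega) le_rfl))
  refine (key (p + q)).trans (iSup_le fun i => iSup_le fun j => iSup_le fun h => ?_)
  by_cases hi : p ≤ i
  · refine inf_le_left.trans (le_sup_of_le_left ?_)
    exact (k13_pow_S haS (hp.trans hi)).trans (k13_anti hSS h1 ha hSa hp hi)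
  · have hj : q + 1 ≤ j := by omega
    refine inf_le_right.trans (le_sup_of_le_right ?_)
    exact (k13_pow_S hbS (by omega)).trans (k13_anti hSS h1 hb hSb (by omega) hj)

private theorem k13_smul_mul (I J : Ideal K) (N N' : Submodule K R) :
    (I • N) * (J • N') ≤ (I * J) • (N * N') := by
  rw [Submodule.mul_le]
  intro x hx y hy
  induction hx using Submodule.smul_induction_on' with
  | smul r hr n hn =>
    induction hy using Submodule.smul_induction_on' with
    | smul r' hr' n' hn' =>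
      rw [smul_mul_smul_comm]
      exact Submodule.smul_mem_smul (Ideal.mul_mem_mul hr hr') (Submodule.mul_mem_mul hn hn')
    | add y hy z hz h1 h2 =>
      rw [mul_add]
      exact Submodule.add_mem _ h1 h2
  | add y hy z hz h1 h2 =>
    rw [add_mul]
    exact Submodule.add_mem _ h1 h2

theorem ar_abs [IsNoetherianRing K] (S b H M M' : Submodule K R) (c : ℕ) (h1 : (1 : R) ∈ S)
    (hSS : S * S ≤ S) (hS : S = 1 ⊔ b) (hSb : S * b ≤ b) (hbS : b * S ≤ b)
    (hnil : b ^ (c + 1) = ⊥) (hH : H ≤ S) (hSH : S * H ≤ H) (hHS : H * S ≤ H) (hM : M.FG)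
    (hM'M : M' ≤ M) (hSM : S * M ≤ M) (hSM' : S * M' ≤ M') (K0 : ℕ) :
    ∃ K' : ℕ, M' ⊓ H ^ K' * M ≤ H ^ K0 * M' := by
  rcases Nat.eq_zero_or_pos K0 with rfl | hK0
  · refine ⟨0, ?_⟩
    rw [pow_zero, one_mul, one_mul]
    exact inf_le_left
  have hbS' : b ≤ S := by rw [hS]; exact le_sup_right
  set I : Ideal K := (H ⊔ b).comap (Algebra.linearMap K R) with hI
  -- `H ≤ I S + b`
  have e1 : H ≤ I • S ⊔ b := by
    intro x hx
    have hx' : x ∈ (1 : Submodule K R) ⊔ b := by rw [← hS]; exact hH hx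
    obtain ⟨u, hu, y, hy, rfl⟩ := Submodule.mem_sup.1 hx'
    obtain ⟨P, rfl⟩ := Submodule.mem_one.1 hu
    refine Submodule.add_mem_sup ?_ hy
    have hP : P ∈ I := by
      rw [hI, Submodule.mem_comap, Algebra.linearMap_apply]
      have := Submodule.sub_mem (H ⊔ b) (Submodule.mem_sup_left hx) (Submodule.mem_sup_right hy)
      rwa [add_sub_cancel_right] at this
    have h2 := Submodule.smul_mem_smul hP h1
    rwa [← Algebra.algebraMap_eq_smul_one] at h2
  have e2 : I • S ≤ S := Submodule.smul_le_right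
  have e3 : S * (I • S) ≤ I • S := by
    have := k13_smul_mul (R := R) ⊤ I S S
    rw [Submodule.top_smul, Ideal.top_mul] at this
    exact this.trans (smul_mono_right _ hSS)
  have e4 : (I • S) * S ≤ I • S := by
    have := k13_smul_mul (R := R) I ⊤ S S
    rw [Submodule.top_smul, Ideal.mul_top] at this
    exact this.trans (smul_mono_right _ hSS)
  have e5 : ∀ k, (I • S) ^ k ≤ I ^ k • S := by
    intro k
    induction k with
    | zero =>
      rw [pow_zero, pow_zero, Ideal.one_eq_top, Submodule.top_smul, Submodule.one_le]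
      exact h1
    | succ k ih =>
      rw [pow_succ, pow_succ]
      refine (k13_r ih _).trans ((k13_smul_mul _ _ _ _).trans ?_)
      exact smul_mono_right _ hSS
  have e6 : ∀ p, 1 ≤ p → H ^ (p + c) ≤ I ^ p • S := by
    intro p hp
    refine (pow_le_pow_left' e1 _).trans ?_
    refine (sup_pow_le S (I • S) b hSS h1 e2 hbS' e3 e4 hSb hbS p c hp).trans ?_
    rw [hnil, sup_bot_eq]
    exact e5 p
  -- Artin-Rees
  have : Module.Finite K M := Module.Finite.iff_fg.2 hM
  obtain ⟨k, hk⟩ := Ideal.exists_pow_inf_eq_pow_smul I (M'.comap M.subtype)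
  have e7 : ∀ n ≥ k, I ^ n • M ⊓ M' ≤ I ^ (n - k) • M' := by
    intro n hn x hx
    have hxM : x ∈ M := hM'M hx.2
    have h2 : (⟨x, hxM⟩ : M) ∈ I ^ n • (⊤ : Submodule K M) ⊓ M'.comap M.subtype := by
      refine ⟨?_, hx.2⟩
      have h3 : x ∈ Submodule.map M.subtype (I ^ n • (⊤ : Submodule K M)) := by
        rw [Submodule.map_smul'', Submodule.map_top, Submodule.range_subtype]
        exact hx.1
      obtain ⟨y, hy, hyx⟩ := Submodule.mem_map.1 h3
      have : y = ⟨x, hxM⟩ := Subtype.ext hyx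
      rwa [this] at hy
    rw [hk n hn] at h2
    have h4 := Submodule.mem_map_of_mem (f := M.subtype) h2
    rw [Submodule.map_smul''] at h4
    have h5 : Submodule.map M.subtype (I ^ k • (⊤ : Submodule K M) ⊓ M'.comap M.subtype) ≤ M' := by
      rw [Submodule.map_le_iff_le_comap]
      exact inf_le_right
    exact smul_mono_right (I ^ (n - k)) h5 h4
  have e8 : ∀ n, I ^ n • (1 : Submodule K R) ≤ (H ⊔ b) ^ n := by
    intro n
    induction n with
    | zero =>
      rw [pow_zero, pow_zero, Ideal.one_eq_top, Submodule.top_smul]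
    | succ n ih =>
      rw [pow_succ (H ⊔ b), Submodule.smul_le]
      intro P hP y hy
      rw [pow_succ] at hP
      induction hP using Submodule.mul_induction_on' with
      | mem_mul_mem P hP Q hQ =>
        have h2 : (P * Q) • y = (P • (1 : R)) * (Q • y) := by
          rw [smul_mul_smul_comm, one_mul]
        rw [h2]
        refine Submodule.mul_mem_mul (ih (Submodule.smul_mem_smul hP (Submodule.one_le.1 le_rfl))) ?_
        obtain ⟨c, rfl⟩ := Submodule.mem_one.1 hy
        have h3 : Q • (algebraMap K R c) = c • algebraMap K R Q := by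
          rw [Algebra.algebraMap_eq_smul_one, Algebra.algebraMap_eq_smul_one, smul_smul, smul_smul,
            mul_comm]
        rw [h3]
        exact Submodule.smul_mem _ _ hQ
      | add P hP Q hQ h5 h6 =>
        rw [add_smul]
        exact Submodule.add_mem _ h5 h6
  have e9 : (H ⊔ b) ^ (K0 + c) ≤ H ^ K0 := by
    refine (sup_pow_le S H b hSS h1 hH hbS' hSH hHS hSb hbS K0 c hK0).trans ?_
    rw [hnil, sup_bot_eq]
  refine ⟨k + K0 + c + c, ?_⟩
  have f1 : H ^ (k + K0 + c + c) * M ≤ I ^ (k + K0 + c) • M := by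
    refine (k13_r (e6 (k + K0 + c) (by omega)) _).trans ?_
    have := k13_smul_mul (R := R) (I ^ (k + K0 + c)) ⊤ S M
    rw [Submodule.top_smul, Ideal.mul_top] at this
    exact this.trans (smul_mono_right _ hSM)
  have f2 : M' ⊓ H ^ (k + K0 + c + c) * M ≤ I ^ (K0 + c) • M' := by
    have h2 := e7 (k + K0 + c) (by omega)
    have h3 : k + K0 + c - k = K0 + c := by omega
    rw [h3] at h2
    refine le_trans ?_ h2
    exact le_inf (inf_le_right.trans f1) inf_le_left
  refine f2.trans ?_
  have f3 : I ^ (K0 + c) • M' ≤ (I ^ (K0 + c) • (1 : Submodule K R)) * M' := by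
    rw [Submodule.smul_le]
    intro P hP y hy
    have : P • y = (P • (1 : R)) * y := by rw [smul_mul_assoc, one_mul]
    rw [this]
    exact Submodule.mul_mem_mul (Submodule.smul_mem_smul hP (Submodule.one_le.1 le_rfl)) hy
  exact f3.trans (k13_r ((e8 _).trans e9) _)

end MP50e386N
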