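import Pool.Agent.Lib.MP_50e386_al.N.KDefs

/-! [N50 K11] the filtration by the number of factors `χ`; finiteness. -/

namespace MP50e386N

open MvPolynomial

variable {E O T : Type} [Fintype E] [Fintype O] [Ring T] [Algebra UA T] [Algebra ℂ T]
  (S : SAlg E O UA T)

/-! ### the factors `χ` anticommute -/

omit [Algebra UA T] [Algebra ℂ T] in
private theorem k11_anti {ι : Type} (s : Finset ι) (c c' u u' : ι → T)
    (hc : ∀ j t, c j * t = t * c j) (hc' : ∀ j t, c' j * t = t * c' j)
    (hu : ∀ j j', u j * u' j' = -(u' j' * u j)) :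
    (∑ j ∈ s, c j * u j) * (∑ j ∈ s, c' j * u' j) =
      -((∑ j ∈ s, c' j * u' j) * (∑ j ∈ s, c j * u j)) := by
  rw [Finset.sum_mul_sum, Finset.sum_mul_sum, Finset.sum_comm, ← Finset.sum_neg_distrib]
  refine Finset.sum_congr rfl fun i _ => ?_
  rw [← Finset.sum_neg_distrib]
  refine Finset.sum_congr rfl fun j _ => ?_
  calc c j * u j * (c' i * u' i) = c j * (c' i * (u j * u' i)) := by
        rw [mul_assoc, ← mul_assoc (u j), ← hc' i (u j), mul_assoc]
    _ = -(c j * (c' i * (u' i * u j))) := by rw [hu, mul_neg, mul_neg]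
    _ = -(c' i * (u' i * (c j * u j))) := by
        rw [← mul_assoc (c j), hc j (c' i), mul_assoc (c' i), ← mul_assoc (c j) (u' i),
          hc j (u' i), mul_assoc (u' i)]
    _ = -(c' i * u' i * (c j * u j)) := by rw [mul_assoc]

/-- `χ_{ab}` as a combination of odd generators with central coefficients -/
private theorem k11_chi (a : E) (b : O) (m : ℕ) : XX S (Sum.inl a) (Sum.inr b) m =
    ∑ j ∈ Finset.range m, (∑ i ∈ Finset.range m,
      algebraMap UA T (C (X s(i, j))) * S.P (Sum.inl a) i) * S.P (Sum.inr b) j := by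
  show (∑ i ∈ Finset.range m, ∑ j ∈ Finset.range m,
    algebraMap UA T (C (X s(i, j))) * (S.P (Sum.inl a) i * S.P (Sum.inr b) j)) = _
  rw [Finset.sum_comm]
  refine Finset.sum_congr rfl fun j _ => ?_
  rw [Finset.sum_mul]
  refine Finset.sum_congr rfl fun i _ => ?_
  rw [mul_assoc]

private theorem k11_coef (a : E) (m j : ℕ) (t : T) :
    (∑ i ∈ Finset.range m, algebraMap UA T (C (X s(i, j))) * S.P (Sum.inl a) i) * t =
      t * ∑ i ∈ Finset.range m, algebraMap UA T (C (X s(i, j))) * S.P (Sum.inl a) i := by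
  rw [Finset.sum_mul, Finset.mul_sum]
  refine Finset.sum_congr rfl fun i _ => ?_
  rw [mul_assoc, S.even_central, ← mul_assoc, Algebra.commutes, mul_assoc]

private theorem k11_chi_anti (p q : E × O) :
    XX S (Sum.inl p.1) (Sum.inr p.2) * XX S (Sum.inl q.1) (Sum.inr q.2) =
      -(XX S (Sum.inl q.1) (Sum.inr q.2) * XX S (Sum.inl p.1) (Sum.inr p.2)) := by
  funext m
  show XX S (Sum.inl p.1) (Sum.inr p.2) m * XX S (Sum.inl q.1) (Sum.inr q.2) m =
    -(XX S (Sum.inl q.1) (Sum.inr q.2) m * XX S (Sum.inl p.1) (Sum.inr p.2) m)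
  rw [k11_chi, k11_chi]
  refine k11_anti _ _ _ _ _ (fun j t => k11_coef S _ _ _ _) (fun j t => k11_coef S _ _ _ _)
    fun j j' => ?_
  rw [S.comm]
  have e : ss (par (Sum.inr p.2 : E ⊕ O)) (par (Sum.inr q.2 : E ⊕ O)) = -1 := by simp [ss, par]
  rw [e, neg_smul, one_smul]

private theorem k11_chi_sq (p : E × O) :
    XX S (Sum.inl p.1) (Sum.inr p.2) * XX S (Sum.inl p.1) (Sum.inr p.2) = 0 := by
  have h := k11_chi_anti S p p
  set x := XX S (Sum.inl p.1) (Sum.inr p.2) * XX S (Sum.inl p.1) (Sum.inr p.2) with hx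
  have h2 : (2 : ℂ) • x = 0 := by
    rw [two_smul]
    nth_rewrite 1 [h]
    rw [neg_add_cancel]
  exact (smul_eq_zero_iff_right (two_ne_zero (α := ℂ))).1 h2

/-- the product of `χ`'s -/
private noncomputable def k11_pr (l : List (E × O)) : TN S :=
  (l.map fun p => XX S (Sum.inl p.1) (Sum.inr p.2)).prod

private theorem k11_mem (a : E × O) (l : List (E × O)) (h : a ∈ l) :
    XX S (Sum.inl a.1) (Sum.inr a.2) * k11_pr S l = 0 := by
  unfold k11_pr
  induction l with
  | nil => exact absurd h List.not_mem_nil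
  | cons b l ih =>
    rw [List.map_cons, List.prod_cons]
    rcases List.mem_cons.1 h with rfl | h
    · rw [← mul_assoc, k11_chi_sq, zero_mul]
    · rw [← mul_assoc, k11_chi_anti, neg_mul, mul_assoc, ih h, mul_zero, neg_zero]

private theorem k11_dup (l : List (E × O)) (h : ¬ l.Nodup) : k11_pr S l = 0 := by
  induction l with
  | nil => exact absurd List.nodup_nil h
  | cons a l ih =>
    have e : k11_pr S (a :: l) = XX S (Sum.inl a.1) (Sum.inr a.2) * k11_pr S l := by
      unfold k11_pr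
      rw [List.map_cons, List.prod_cons]
    rw [e]
    by_cases ha : a ∈ l
    · exact k11_mem S a l ha
    · rw [ih fun hl => h (List.nodup_cons.2 ⟨ha, hl⟩), mul_zero]

private theorem k11_long (l : List (E × O)) (h : Fintype.card E * Fintype.card O < l.length) :
    k11_pr S l = 0 := by
  classical
  refine k11_dup S l fun hn => ?_
  have h1 := hn.length_le_card
  rw [Fintype.card_prod] at h1
  omega

/-! ### the statements -/

theorem Chi_anti {i j : ℕ} (h : i ≤ j) : Chi S j ≤ Chi S i := by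
  refine Submodule.span_mono ?_
  rintro x ⟨l, hl, rfl⟩
  exact ⟨l, h.trans hl, rfl⟩

theorem one_mem_Chi : (1 : TN S) ∈ Chi S 0 :=
  Submodule.subset_span ⟨[], le_rfl, by simp⟩

theorem Chi_mul (i j : ℕ) : Chi S i * Chi S j ≤ Chi S (i + j) := by
  unfold Chi
  rw [Submodule.span_mul_span, Submodule.span_le]
  rintro x ⟨y, ⟨l, hl, rfl⟩, z, ⟨l', hl', rfl⟩, rfl⟩
  refine Submodule.subset_span ⟨l ++ l', ?_, ?_⟩
  · rw [List.length_append]
    omega
  · rw [List.map_append, List.prod_append]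

theorem Chi_zero_eq : Chi S 0 = 1 ⊔ Chi S 1 := by
  apply le_antisymm
  · refine Submodule.span_le.2 ?_
    rintro x ⟨l, -, rfl⟩
    rcases l with _ | ⟨a, l⟩
    · refine Submodule.mem_sup_left ?_
      rw [List.map_nil, List.prod_nil]
      exact Submodule.one_le.1 le_rfl
    · refine Submodule.mem_sup_right (Submodule.subset_span ⟨a :: l, ?_, rfl⟩)
      rw [List.length_cons]
      omega
  · exact sup_le (Submodule.one_le.2 (one_mem_Chi S)) (Chi_anti S (Nat.zero_le 1))

/-- a product with too many factors `χ` vanishes -/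
theorem Chi_eq_bot : Chi S (Fintype.card E * Fintype.card O + 1) = ⊥ := by
  rw [eq_bot_iff]
  refine Submodule.span_le.2 ?_
  rintro x ⟨l, hl, rfl⟩
  have h := k11_long S l (by omega)
  unfold k11_pr at h
  rw [h]
  exact Submodule.zero_mem _

theorem Chi_fg : (Chi S 0).FG := by
  have hfin : {l : List (E × O) | l.length ≤ Fintype.card E * Fintype.card O}.Finite :=
    List.finite_length_le _ _
  have e : Chi S 0 = Submodule.span (KK E O) (k11_pr S ''
      {l : List (E × O) | l.length ≤ Fintype.card E * Fintype.card O}) := by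
    apply le_antisymm
    · refine Submodule.span_le.2 ?_
      rintro x ⟨l, -, rfl⟩
      by_cases hl : l.length ≤ Fintype.card E * Fintype.card O
      · exact Submodule.subset_span ⟨l, hl, rfl⟩
      · have h := k11_long S l (by omega)
        unfold k11_pr at h
        rw [h]
        exact Submodule.zero_mem _
    · refine Submodule.span_le.2 ?_
      rintro x ⟨l, -, rfl⟩
      exact Submodule.subset_span ⟨l, Nat.zero_le _, rfl⟩
  rw [e]
  exact Submodule.fg_span (hfin.image _)

theorem ZD_fg (L D : ℕ) : (ZD S L D).FG := by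
  have hfin : {l : List (Fin L × (E ⊕ O)) | l.length ≤ D}.Finite := List.finite_length_le _ _
  refine Submodule.fg_span ((hfin.image fun l : List (Fin L × (E ⊕ O)) =>
    (l.map fun p => ZZ S p.1.val p.2).prod).subset ?_)
  rintro x ⟨l, hl1, hl2, rfl⟩
  refine ⟨l.pmap (fun p hp => (⟨p.1, hp⟩, p.2)) hl1, ?_, ?_⟩
  · show (l.pmap (fun (p : ℕ × (E ⊕ O)) (hp : p.1 < L) =>
      ((⟨p.1, hp⟩, p.2) : Fin L × (E ⊕ O))) hl1).length ≤ D
    rw [List.length_pmap]
    exact hl2
  · show ((l.pmap (fun (p : ℕ × (E ⊕ O)) (hp : p.1 < L) =>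
      ((⟨p.1, hp⟩, p.2) : Fin L × (E ⊕ O))) hl1).map fun p => ZZ S p.1.val p.2).prod = _
    rw [List.map_pmap]
    congr 1
    exact List.pmap_eq_map (f := fun p : ℕ × (E ⊕ O) => ZZ S p.1 p.2) hl1

theorem one_mem_ZD (L D : ℕ) : (1 : TN S) ∈ ZD S L D :=
  Submodule.subset_span ⟨[], by simp, Nat.zero_le _, by simp⟩

theorem ZD_zero (L : ℕ) : ZD S L 0 = 1 := by
  rw [Submodule.one_eq_span]
  unfold ZD
  congr 1
  ext x
  constructor
  · rintro ⟨l, -, hl, rfl⟩
    have h : l = [] := List.length_eq_zero_iff.1 (Nat.le_zero.1 hl)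
    subst h
    rw [List.map_nil, List.prod_nil]
    rfl
  · intro hx
    have hx' : x = 1 := hx
    subst hx'
    exact ⟨[], by simp, le_rfl, by simp⟩

theorem SSD_fg (L D : ℕ) : (SSD S L D).FG := (Chi_fg S).mul (ZD_fg S L D)

theorem SSD_zero (L : ℕ) : SSD S L 0 = Chi S 0 := by
  unfold SSD
  rw [ZD_zero, mul_one]

theorem Chi_mul_SSD (L D : ℕ) : Chi S 0 * SSD S L D ≤ SSD S L D := by
  unfold SSD
  rw [← mul_assoc]
  exact mul_le_mul_left (Chi_mul S 0 0) _

end MP50e386N
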