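import Pool.Agent.Lib.MP_50e386_al.N.KDefs
import Pool.Agent.Lib.MP_50e386_al.N.T2

/-! [N50 K04] substitution of letters, multilinear elements. -/

namespace MP50e386N

open MvPolynomial

private theorem k04_cst_single (i : ℕ) (a : ℂ) :
    (cst (Finsupp.single i a) : VR MP50e386.A) = Finsupp.single i (algebraMap ℂ MP50e386.A a) := by
  simp [cst]

private theorem k04_cst_smul_ee (i : ℕ) (a : ℂ) :
    (cst (a • ee i) : VR MP50e386.A) = Finsupp.single i (algebraMap ℂ MP50e386.A a) := by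
  rw [ee, Finsupp.smul_single, smul_eq_mul, mul_one, k04_cst_single]

/-- torus action after a substitution of letters -/
theorem k04_torus (φ : ℕ → ℕ) (t : ℕ → ℂ) (f : UA) :
    sbC (fun i => t i • ee i) (lsub φ f) = lsub φ (sbC (fun i => t (φ i) • ee i) f) := by
  unfold lsub
  rw [sbC_sbC, sbC_sbC]
  exact congrArg (fun χ : ℕ → V => sbC χ f) (funext fun i => by rw [linC_ee, map_smul, linC_ee])

theorem lsub_C_X (φ : ℕ → ℕ) (i j : ℕ) :
    lsub φ (C (X s(i, j))) = (C (X s(φ i, φ j)) : UA) := by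
  unfold lsub
  rw [sbC_C]
  refine congrArg (fun z : MP50e386.A => (C z : UA)) ?_
  have h1 : (X s(i, j) : MP50e386.A) = xv (ee i) (ee j) := (xv_ee i j).symm
  rw [h1, sb_x_cst, linC_ee, linC_ee, xv_ee]
  rfl

theorem lsub_X (φ : ℕ → ℕ) (a i : ℕ) : lsub φ (X (a, i)) = (X (a, φ i) : UA) := by
  unfold lsub
  rw [sbC_X, ee, k04_cst_single, map_one, zf_single, one_smul]

theorem lsub_smul (φ : ℕ → ℕ) (c : ℂ) (f : UA) : lsub φ (c • f) = c • lsub φ f :=
  sbC_smulC _ c f

theorem lsub_C (φ : ℕ → ℕ) (f : MP50e386.A) :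
    lsub φ (C f) = (C (MP50e386.sub (fun k => MP50e386.ee (φ k)) f) : UA) := by
  unfold lsub
  rw [sbC_C]
  refine congrArg (fun z : MP50e386.A => (C z : UA)) ?_
  have h : (sbR (fun k => ee (φ k)) : MP50e386.A →ₐ[ℂ] MP50e386.A) =
      MP50e386.sub (fun k => MP50e386.ee (φ k)) := by
    apply MvPolynomial.algHom_ext
    intro s
    induction s using Sym2.ind with
    | _ i j =>
      have h1 : (X s(i, j) : MP50e386.A) = xv (ee i) (ee j) := (xv_ee i j).symm
      rw [MP50e386.sub_X, MP50e386.bil_ee, h1, sb_x_cst, linC_ee, linC_ee, xv_ee]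
      rfl
  rw [h]

theorem lsub_lsub (φ ψ : ℕ → ℕ) (f : UA) : lsub φ (lsub ψ f) = lsub (φ ∘ ψ) f := by
  unfold lsub
  rw [sbC_sbC]
  exact congrArg (fun χ : ℕ → V => sbC χ f) (funext fun i => by rw [linC_ee]; rfl)

theorem lsub_id (f : UA) : lsub id f = f := sbC_id f

/-- a multilinear element only depends on the letters `< n` -/
theorem lsub_congr {n : ℕ} {f : UA} (hf : f ∈ UL n) {φ ψ : ℕ → ℕ} (h : ∀ k < n, φ k = ψ k) :
    lsub φ f = lsub ψ f := by
  have h1 := hf (fun i => if i < n then 1 else 0)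
  have h2 : (∏ i ∈ Finset.range n, (if i < n then (1 : ℂ) else 0)) = 1 := by
    refine Finset.prod_eq_one fun i hi => ?_
    rw [if_pos (Finset.mem_range.1 hi)]
  rw [h2, one_smul] at h1
  rw [← h1]
  unfold lsub
  rw [sbC_sbC, sbC_sbC]
  refine congrArg (fun χ : ℕ → V => sbC χ f) (funext fun i => ?_)
  rw [map_smul, map_smul, linC_ee, linC_ee]
  by_cases hi : i < n
  · rw [h i hi]
  · rw [if_neg hi, zero_smul, zero_smul]

theorem GLS.lsub_mem {N : Submodule MP50e386.A UA} (hN : GLS N) (φ : ℕ → ℕ) {f : UA}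
    (hf : f ∈ N) : lsub φ f ∈ N := hN _ f hf

theorem UL_perm {n : ℕ} {f : UA} (hf : f ∈ UL n) (σ : Equiv.Perm (Fin n)) :
    lsub (extd fun k => (σ k : ℕ)) f ∈ UL n := by
  intro t
  rw [k04_torus, hf (fun i => t (extd (fun k => (σ k : ℕ)) i)), lsub_smul]
  refine congrArg (fun c : ℂ => c • lsub (extd fun k => (σ k : ℕ)) f) ?_
  rw [Finset.prod_range, Finset.prod_range]
  have h1 : ∀ i : Fin n, t (extd (fun k => (σ k : ℕ)) (i : ℕ)) = t ((σ i : Fin n) : ℕ) := by
    intro i
    unfold extd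
    rw [dif_pos i.2]
  simp only [h1]
  exact Equiv.prod_comp σ (fun i : Fin n => t (i : ℕ))

theorem UL_cat {n' n : ℕ} {h f : UA} (hh : h ∈ UL n') (hf : f ∈ UL n) :
    h * lsub (· + n') f ∈ UL (n' + n) := by
  intro t
  rw [map_mul, hh t, k04_torus, hf (fun i => t (i + n')), lsub_smul, smul_mul_smul_comm,
    Finset.prod_range_add]
  have key : ∏ i ∈ Finset.range n, t (i + n') = ∏ i ∈ Finset.range n, t (n' + i) :=
    Finset.prod_congr rfl fun i _ => by rw [add_comm]
  rw [key]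

theorem one_mem_UL : (1 : UA) ∈ UL 0 := by
  intro t
  rw [map_one, Finset.prod_range_zero, one_smul]

theorem edge_mem_UL : (C (X s(0, 1)) : UA) ∈ UL 2 := by
  intro t
  rw [sbC_C, Finset.prod_range_succ, Finset.prod_range_succ, Finset.prod_range_zero, one_mul]
  have h1 : (X s(0, 1) : MP50e386.A) = xv (ee 0) (ee 1) := (xv_ee 0 1).symm
  have h2 : sbR (fun i => t i • ee i) (X s(0, 1) : MP50e386.A) = (t 0 * t 1) • X s(0, 1) := by
    rw [h1, sb_x_cst, linC_ee, linC_ee]
    unfold xv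
    rw [k04_cst_smul_ee, k04_cst_smul_ee, ee, ee, k04_cst_single, k04_cst_single, xf_single,
      xf_single, map_one, one_mul, one_mul, ← map_mul, ← Algebra.smul_def]
  rw [h2, Algebra.smul_def, Algebra.smul_def, map_mul]
  rfl

theorem leg_mem_UL (a : ℕ) : (X (a, 0) : UA) ∈ UL 1 := by
  intro t
  rw [sbC_X, Finset.prod_range_succ, Finset.prod_range_zero, one_mul, k04_cst_smul_ee, zf_single,
    algebraMap_smul]

theorem mon_mem_UL (e : ℕ) (as : List ℕ) : mon e as ∈ UL (2 * e + as.length) := by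
  induction e with
  | zero =>
    induction as with
    | nil =>
      rw [mon]
      exact one_mem_UL
    | cons a as ih =>
      rw [mon]
      have h1 := UL_cat (leg_mem_UL a) ih
      have h2 : 1 + (2 * 0 + as.length) = 2 * 0 + (a :: as).length := by
        rw [List.length_cons]; omega
      rw [h2] at h1
      exact h1
  | succ e ih =>
    rw [mon]
    have h1 := UL_cat edge_mem_UL ih
    have h2 : 2 + (2 * e + as.length) = 2 * (e + 1) + as.length := by omega
    rw [h2] at h1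
    exact h1

/-- every element lies in some `BD(L,D)` -/
theorem exists_BD (f : UA) : ∃ L D, f ∈ BD MP50e386.A L D := by
  refine ⟨(f.support.sup fun m => m.support.sup Prod.fst) + 1, f.support.sup fun m => m.degree, ?_⟩
  unfold BD
  rw [mem_restrictSupport_iff]
  intro m hm
  have hm' : m ∈ f.support := hm
  refine ⟨fun p hp => ?_, ?_⟩
  · have h1 : p.1 ≤ m.support.sup Prod.fst := Finset.le_sup (f := Prod.fst) hp
    have h2 : m.support.sup Prod.fst ≤ f.support.sup fun m => m.support.sup Prod.fst :=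
      Finset.le_sup (f := fun m : ℕ × ℕ →₀ ℕ => m.support.sup Prod.fst) hm'
    omega
  · exact Finset.le_sup (f := fun m : ℕ × ℕ →₀ ℕ => m.degree) hm'

theorem extd_comp {n : ℕ} (φ : Fin n → ℕ) (σ : Equiv.Perm (Fin n)) (k : ℕ) (hk : k < n) :
    extd φ (extd (fun k => (σ k : ℕ)) k) = extd (φ ∘ σ) k := by
  have h1 : extd (fun k => (σ k : ℕ)) k = (σ ⟨k, hk⟩ : ℕ) := by
    unfold extd
    rw [dif_pos hk]
  rw [h1]
  unfold extd
  rw [dif_pos hk, dif_pos (σ ⟨k, hk⟩).2]
  rfl

end MP50e386N
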