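import Pool.Agent.Lib.MP_50e386_al.N.KDefs

/-! [N50 K03] the universal sign. -/

namespace MP50e386N

private theorem k03_ss (a b : Bool) : ss a b = 1 ∨ ss a b = -1 := by
  unfold ss
  split_ifs
  · exact Or.inr rfl
  · exact Or.inl rfl

private theorem k03_list {ι : Type} (π : ι → Bool) {l l' : List ι} (h : l.Perm l') :
    l.Nodup → ∃ ε : ℤ, (ε = 1 ∨ ε = -1) ∧ ∀ (T : Type) [Ring T] (p : ι → T),
      (∀ i j, i ≠ j → p i * p j = ss (π i) (π j) • (p j * p i)) →
        (l.map p).prod = ε • (l'.map p).prod := by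
  induction h with
  | nil =>
    intro _
    exact ⟨1, Or.inl rfl, fun T _ p _ => by rw [one_smul]⟩
  | cons x _ ih =>
    intro hn
    obtain ⟨ε, h1, h2⟩ := ih (List.nodup_cons.1 hn).2
    refine ⟨ε, h1, fun T _ p hp => ?_⟩
    rw [List.map_cons, List.map_cons, List.prod_cons, List.prod_cons, h2 T p hp, mul_smul_comm]
  | swap x y l =>
    intro hn
    have hne : y ≠ x := by
      intro h
      subst h
      exact (List.nodup_cons.1 hn).1 List.mem_cons_self
    refine ⟨ss (π y) (π x), k03_ss _ _, fun T _ p hp => ?_⟩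
    simp only [List.map_cons, List.prod_cons]
    rw [← mul_assoc, hp y x hne, smul_mul_assoc, mul_assoc]
  | trans h1 _ ih1 ih2 =>
    intro hn
    obtain ⟨ε, a1, a2⟩ := ih1 hn
    obtain ⟨ε', b1, b2⟩ := ih2 (h1.nodup_iff.1 hn)
    refine ⟨ε * ε', ?_, fun T _ p hp => ?_⟩
    · rcases a1 with rfl | rfl <;> rcases b1 with rfl | rfl <;> norm_num
    · rw [a2 T p hp, b2 T p hp, smul_smul]

theorem exists_sign {n : ℕ} (σ : Equiv.Perm (Fin n)) (π : Fin n → Bool) : ∃ ε, IsSign σ π ε := by
  have hperm : (List.ofFn (id ∘ σ)).Perm (List.ofFn (id : Fin n → Fin n)) :=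
    Equiv.Perm.ofFn_comp_perm σ id
  obtain ⟨ε, h1, h2⟩ := k03_list π hperm (List.nodup_ofFn.2 σ.injective)
  refine ⟨ε, h1, fun T _ p hp => ?_⟩
  have h3 := h2 T p hp
  rw [List.map_ofFn, List.map_ofFn] at h3
  exact h3

theorem kap_spec {n : ℕ} (σ : Equiv.Perm (Fin n)) (π : Fin n → Bool) : IsSign σ π (kap σ π) := by
  unfold kap
  rw [dif_pos (exists_sign σ π)]
  exact (exists_sign σ π).choose_spec

theorem kap_mul_self {n : ℕ} (σ : Equiv.Perm (Fin n)) (π : Fin n → Bool) :
    kap σ π * kap σ π = 1 := by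
  rcases (kap_spec σ π).1 with h | h <;> rw [h] <;> norm_num

/-- reordering of a product of generators -/
theorem pp_perm {E O B T : Type} [CommRing B] [Ring T] [Algebra B T] (S : SAlg E O B T) {n : ℕ}
    (τ : Fin n → E ⊕ O) (φ : Fin n → ℕ) (σ : Equiv.Perm (Fin n)) :
    S.pp (lis (τ ∘ σ) (φ ∘ σ)) = kap σ (par ∘ τ) • S.pp (lis τ φ) := by
  have h := (kap_spec σ (par ∘ τ)).2 T (fun k => S.P (τ k) (φ k))
    (fun i j _ => S.comm (τ i) (φ i) (τ j) (φ j))
  unfold SAlg.pp lis
  rw [List.map_ofFn, List.map_ofFn]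
  exact h

/-- products of generators over permuted lists differ by a sign -/
theorem pp_of_perm {E O B T : Type} [CommRing B] [Ring T] [Algebra B T] (S : SAlg E O B T)
    {l l' : List ((E ⊕ O) × ℕ)} (h : l.Perm l') :
    S.pp l = S.pp l' ∨ S.pp l = - S.pp l' := by
  unfold SAlg.pp
  induction h with
  | nil => exact Or.inl rfl
  | cons x _ ih =>
    simp only [List.map_cons, List.prod_cons]
    rcases ih with h | h
    · left
      rw [h]
    · right
      rw [h, mul_neg]
  | swap x y l =>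
    simp only [List.map_cons, List.prod_cons]
    rw [← mul_assoc, S.comm y.1 y.2 x.1 x.2]
    rcases k03_ss (par y.1) (par x.1) with h | h
    · left
      rw [h, one_smul, mul_assoc]
    · right
      rw [h, neg_smul, one_smul, neg_mul, mul_assoc]
  | trans _ _ ih1 ih2 =>
    rcases ih1 with h1 | h1 <;> rcases ih2 with h2 | h2
    · exact Or.inl (h1.trans h2)
    · exact Or.inr (h1.trans h2)
    · right
      rw [h1, h2]
    · left
      rw [h1, h2, neg_neg]

end MP50e386N
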