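import Pool.Agent.Lib.MP_50e386_al.N.KDefs
import Pool.Agent.Lib.MP_50e386_al.N.K.Lett
import Pool.Agent.Lib.MP_50e386_al.N.K.Sign

/-! [N50 K09] (t5): the coefficient of the super evaluation is `e_τ f`. -/

namespace MP50e386N

open MvPolynomial

variable {E O T : Type} [Ring T] [Algebra UA T] [Algebra ℂ T] (S : SAlg E O UA T)

theorem lis_nodup {n : ℕ} (τ : Fin n → E ⊕ O) : (lis τ fun k => (k : ℕ)).Nodup := by
  unfold lis
  rw [List.nodup_ofFn]
  intro a b h
  simp only [Prod.mk.injEq] at h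
  exact Fin.ext h.2

/-- if the list `(τ k, ι k)` is a reordering of `(τ k, k)` then `ι` is a permutation
preserving `τ` -/
private theorem k09_perm {n : ℕ} (τ : Fin n → E ⊕ O) (ι : Fin n → Fin n)
    (h : (lis τ fun k => (k : ℕ)).Perm (lis τ fun k => (ι k : ℕ))) :
    ∃ σ : Equiv.Perm (Fin n), τ ∘ σ = τ ∧ ⇑σ = ι := by
  have h1 : ∀ k, ∃ j, τ j = τ k ∧ ι j = k := by
    intro k
    have hk : (τ k, (k : ℕ)) ∈ lis τ fun k => (k : ℕ) := by
      unfold lis
      rw [List.mem_ofFn]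
      exact ⟨k, rfl⟩
    have hk' := h.mem_iff.1 hk
    unfold lis at hk'
    rw [List.mem_ofFn] at hk'
    obtain ⟨j, hj⟩ := hk'
    simp only [Prod.mk.injEq] at hj
    exact ⟨j, hj.1, Fin.ext hj.2⟩
  have hs : Function.Surjective ι := fun k => by
    obtain ⟨j, _, hj⟩ := h1 k
    exact ⟨j, hj⟩
  have hb : Function.Bijective ι := (Finite.injective_iff_surjective.2 hs |> fun hi => ⟨hi, hs⟩)
  refine ⟨Equiv.ofBijective ι hb, ?_, rfl⟩
  funext j
  obtain ⟨j', h2, h3⟩ := h1 (ι j)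
  have h4 : j' = j := hb.1 h3
  subst h4
  exact h2.symm

private theorem k09_coef_mul (l : List ((E ⊕ O) × ℕ)) (g : UA) (t : T) :
    S.coef l (algebraMap UA T g * t) = g * S.coef l t := by
  rw [← Algebra.smul_def, map_smul, smul_eq_mul]

/-- (t5) -/
theorem coef_ft {n : ℕ} (τ : Fin n → E ⊕ O) {f : UA} (hf : f ∈ UL n) :
    S.coef (lis τ fun k => (k : ℕ)) (ft S τ f n) = eop τ f := by
  classical
  unfold ft eop
  rw [map_sum]
  symm
  refine Finset.sum_of_injOn (fun σ : Equiv.Perm (Fin n) => (⇑σ : Fin n → Fin n))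
    (fun a _ b _ h => DFunLike.coe_injective h) (fun _ _ => Finset.mem_coe.2 (Finset.mem_univ _))
    (fun ι _ hι => ?_) (fun σ hσ => ?_)
  · rw [k09_coef_mul]
    have h0 : S.coef (lis τ fun k => (k : ℕ)) (S.pp (lis τ fun k => (ι k : ℕ))) = 0 := by
      refine S.coef_ne _ _ fun hp => ?_
      obtain ⟨σ, h1, h2⟩ := k09_perm τ ι hp
      refine hι ⟨σ, ?_, h2⟩
      exact Finset.mem_coe.2 (Finset.mem_filter.2 ⟨Finset.mem_univ _, h1⟩)
    rw [h0, mul_zero]
  · have hσ' : τ ∘ σ = τ := (Finset.mem_filter.1 hσ).2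
    rw [k09_coef_mul]
    have h1 := pp_perm S τ (fun k => (k : ℕ)) σ
    rw [hσ'] at h1
    have h2 : (fun k => ((σ k : Fin n) : ℕ)) = (fun k : Fin n => (k : ℕ)) ∘ σ := rfl
    rw [h2, h1, map_zsmul]
    have h3 : S.coef (lis τ fun k => (k : ℕ)) (S.pp (lis τ fun k => (k : ℕ))) = 1 :=
      S.coef_self _ (lis_nodup τ)
    rw [h3, mul_smul_comm, mul_one]

theorem coef_mem_of_NT {N : Submodule MP50e386.A UA} {l : List ((E ⊕ O) × ℕ)} (hl : l.Nodup)
    {x : T} (hx : x ∈ NT S N) : S.coef l x ∈ N := by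
  unfold NT at hx
  induction hx using AddSubgroup.closure_induction with
  | mem x hx =>
    obtain ⟨f, hf, l', rfl⟩ := hx
    rw [k09_coef_mul]
    by_cases hp : l.Perm l'
    · have h1 : S.coef l (S.pp l) = 1 := S.coef_self l hl
      rcases pp_of_perm S hp with h | h
      · rw [← h, h1, mul_one]
        exact hf
      · have h2 : S.pp l' = - S.pp l := by rw [h, neg_neg]
        rw [h2, map_neg, h1, mul_neg, mul_one]
        exact N.neg_mem hf
    · have h0 : S.coef l (S.pp l') = 0 := S.coef_ne l l' hp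
      rw [h0, mul_zero]
      exact N.zero_mem
  | zero =>
    rw [map_zero]
    exact N.zero_mem
  | add x y _ _ hx hy =>
    rw [map_add]
    exact N.add_mem hx hy
  | neg x _ hx =>
    rw [map_neg]
    exact N.neg_mem hx

/-- recovery -/
theorem eop_mem {N : Submodule MP50e386.A UA} {n : ℕ} (τ : Fin n → E ⊕ O) {f : UA}
    (hf : f ∈ UL n) (hft : ft S τ f n ∈ NT (T := T) S N) : eop τ f ∈ N := by
  rw [← coef_ft S τ hf]
  exact coef_mem_of_NT S (lis_nodup τ) hft

end MP50e386N
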