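import Pool.Agent.Lib.MP_50e386_al.N.KDefs
import Pool.Agent.Lib.MP_50e386_al.N.K.Lett
import Pool.Agent.Lib.MP_50e386_al.N.T2

/-! [N50 K05] multilinear elements are combinations of multilinear monomials. -/

namespace MP50e386N

open MvPolynomial

/-- the monomial with the edges `es` and the legs `ls` (pairs (label, letter)) -/
noncomputable def mL (es ls : List (ℕ × ℕ)) : UA :=
  C ((es.map fun p => (X s(p.1, p.2) : MP50e386.A)).prod) * (ls.map fun p => (X p : UA)).prod

/-- the letters of `mL es ls` -/
def lets (es ls : List (ℕ × ℕ)) : List ℕ := (es.flatMap fun p => [p.1, p.2]) ++ ls.map Prod.snd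

private theorem k05_cst (i : ℕ) (c : ℂ) :
    (cst (c • ee i) : VR MP50e386.A) = Finsupp.single i (algebraMap ℂ MP50e386.A c) := by
  rw [Finsupp.smul_single, smul_eq_mul, mul_one]
  simp [cst]

private theorem k05_edge (t : ℕ → ℂ) (i j : ℕ) :
    sbC (fun i => t i • ee i) (C (X s(i, j)) : UA) = (t i * t j) • (C (X s(i, j)) : UA) := by
  rw [sbC_C]
  have h : (X s(i, j) : MP50e386.A) = xv (ee i) (ee j) := (xv_ee i j).symm
  have h2 : sbR (fun i => t i • ee i) (X s(i, j) : MP50e386.A) =
      (t i * t j) • (X s(i, j) : MP50e386.A) := by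
    rw [h, sb_x_cst, linC_ee, linC_ee]
    unfold xv
    rw [k05_cst, k05_cst, xf_single, ← one_smul ℂ (ee i), ← one_smul ℂ (ee j), k05_cst, k05_cst,
      xf_single, map_one, one_mul, one_mul, ← map_mul, Algebra.smul_def]
  rw [h2]
  exact LinearMap.map_smul_of_tower (monomial 0 : MP50e386.A →ₗ[MP50e386.A] UA) (t i * t j) _

private theorem k05_leg (t : ℕ → ℂ) (p : ℕ × ℕ) :
    sbC (fun i => t i • ee i) (X p : UA) = (t p.2) • (X p : UA) := by
  obtain ⟨a, i⟩ := p
  rw [sbC_X, k05_cst, zf_single, algebraMap_smul]

private theorem k05_list {α : Type} (g : α → UA) (c : α → ℂ) (l : List α) :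
    (l.map fun p => c p • g p).prod = (l.map c).prod • (l.map g).prod := by
  induction l with
  | nil => simp
  | cons a l ih =>
    simp only [List.map_cons, List.prod_cons]
    rw [ih, smul_mul_smul_comm]

private theorem k05_mL_eq (es ls : List (ℕ × ℕ)) :
    mL es ls = (es.map fun p => (C (X s(p.1, p.2)) : UA)).prod * (ls.map fun p => (X p : UA)).prod := by
  unfold mL
  rw [map_list_prod, List.map_map]
  rfl

private theorem k05_lets (t : ℕ → ℂ) (es ls : List (ℕ × ℕ)) :
    ((lets es ls).map t).prod = (es.map fun p => t p.1 * t p.2).prod * (ls.map fun p => t p.2).prod := by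
  unfold lets
  rw [List.map_append, List.prod_append, List.map_map]
  congr 1
  induction es with
  | nil => simp
  | cons a l ih =>
    rw [List.flatMap_cons, List.map_append, List.prod_append, ih, List.map_cons, List.prod_cons]
    simp

private theorem k05_mL (t : ℕ → ℂ) (es ls : List (ℕ × ℕ)) :
    sbC (fun i => t i • ee i) (mL es ls) = ((lets es ls).map t).prod • mL es ls := by
  rw [k05_mL_eq, map_mul, map_list_prod, map_list_prod, List.map_map, List.map_map, k05_lets,
    ← smul_mul_smul_comm, ← k05_list, ← k05_list]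
  exact congrArg₂ (· * ·)
    (congrArg List.prod (List.map_congr_left fun p _ => k05_edge t p.1 p.2))
    (congrArg List.prod (List.map_congr_left fun p _ => k05_leg t p))

/-- the edges of a monomial -/
private noncomputable def k05E (s : Sym2 ℕ →₀ ℕ) : List (ℕ × ℕ) :=
  (Finsupp.toMultiset s).toList.map fun e => Quot.out e

private noncomputable def k05L (m : ℕ × ℕ →₀ ℕ) : List (ℕ × ℕ) := (Finsupp.toMultiset m).toList

private theorem k05_prod {σ R : Type} [CommRing R] (s : σ →₀ ℕ) :
    ((Finsupp.toMultiset s).toList.map fun e => (X e : MvPolynomial σ R)).prod = monomial s 1 := by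
  classical
  have h : ((Finsupp.toMultiset s).toList.map fun e => (X e : MvPolynomial σ R)).prod =
      ((Finsupp.toMultiset s).map fun e => (X e : MvPolynomial σ R)).prod := by
    conv_rhs => rw [← Multiset.coe_toList (Finsupp.toMultiset s)]
    rw [Multiset.map_coe, Multiset.prod_coe]
  rw [h, Finsupp.toMultiset_map, Finsupp.prod_toMultiset, Finsupp.prod_mapDomain_index
    (fun _ => pow_zero _) (fun _ _ _ => pow_add _ _ _), monomial_eq, C_1, one_mul]

private theorem k05_monL (s : Sym2 ℕ →₀ ℕ) (m : ℕ × ℕ →₀ ℕ) :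
    mL (k05E s) (k05L m) = C (monomial s 1) * monomial m 1 := by
  unfold mL k05E k05L
  rw [k05_prod, List.map_map]
  congr 2
  rw [← k05_prod s]
  congr 1
  apply List.map_congr_left
  intro e _
  have h : s((Quot.out e).1, (Quot.out e).2) = e := Quot.out_eq e
  change X s((Quot.out e).1, (Quot.out e).2) = X e
  rw [h]

private theorem k05_mon (s : Sym2 ℕ →₀ ℕ) (m : ℕ × ℕ →₀ ℕ) (c : ℂ) :
    (monomial m (monomial s c) : UA) = c • mL (k05E s) (k05L m) := by
  rw [k05_monL, C_mul_monomial, mul_one]
  have h : (monomial s c : MP50e386.A) = c • monomial s 1 := by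
    rw [smul_monomial, smul_eq_mul, mul_one]
  rw [h]
  exact LinearMap.map_smul_of_tower (monomial m : MP50e386.A →ₗ[MP50e386.A] UA) c _

private theorem k05_cf (t : ℕ → ℂ) (s : Sym2 ℕ →₀ ℕ) (m : ℕ × ℕ →₀ ℕ) (f : UA) :
    coeff s (coeff m (sbC (fun i => t i • ee i) f)) =
      ((lets (k05E s) (k05L m)).map t).prod * coeff s (coeff m f) := by
  classical
  induction f using MvPolynomial.induction_on' with
  | add p q hp hq => rw [map_add, coeff_add, coeff_add, coeff_add, coeff_add, hp, hq, mul_add]
  | monomial m' a =>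
    induction a using MvPolynomial.induction_on' with
    | add p q hp hq =>
      rw [map_add, map_add, coeff_add, coeff_add, coeff_add, coeff_add, hp, hq, mul_add]
    | monomial s' c =>
      rw [k05_mon, sbC_smulC, k05_mL, smul_comm, ← k05_mon, coeff_smul, coeff_smul, smul_eq_mul,
        coeff_monomial]
      split_ifs with h
      · rw [coeff_monomial]
        split_ifs with h2
        · rw [h, h2]
        · rw [mul_zero, mul_zero]
      · rw [coeff_zero, mul_zero, mul_zero]

private theorem k05_count (i : ℕ) (l : List ℕ) :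
    (l.map fun j => if j = i then (2 : ℂ) else 1).prod = 2 ^ l.count i := by
  induction l with
  | nil => simp
  | cons a l ih =>
    rw [List.map_cons, List.prod_cons, ih, List.count_cons]
    split_ifs with h1 h2 h2
    · rw [pow_succ, mul_comm]
    · exact absurd (by simpa using h1) h2
    · exact absurd (by simpa using h2) h1
    · rw [add_zero, one_mul]

private theorem k05_range (t : ℕ → ℂ) (n : ℕ) :
    ∏ i ∈ Finset.range n, t i = ((List.range n).map t).prod := by
  induction n with
  | zero => simp
  | succ n ih => rw [Finset.prod_range_succ, ih, List.range_succ]; simp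

theorem span_mL (n L D : ℕ) (f : UA) (hf : f ∈ UL n) (hfD : f ∈ BD MP50e386.A L D) :
    f ∈ Submodule.span ℂ {g : UA | ∃ es ls : List (ℕ × ℕ), (lets es ls).Perm (List.range n) ∧
      ls.length ≤ D ∧ (∀ p ∈ ls, p.1 < L) ∧ g = mL es ls} := by
  classical
  rw [f.as_sum]
  refine Submodule.sum_mem _ fun m hm => ?_
  have h1 : (monomial m (coeff m f) : UA) = ∑ s ∈ (coeff m f).support,
      monomial m (monomial s (coeff s (coeff m f))) := by
    conv_lhs => rw [(coeff m f).as_sum]
    rw [map_sum]
  rw [h1]
  refine Submodule.sum_mem _ fun s hs => ?_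
  rw [k05_mon]
  refine Submodule.smul_mem _ _ (Submodule.subset_span ⟨k05E s, k05L m, ?_, ?_, ?_, rfl⟩)
  · rw [List.perm_iff_count]
    intro i
    have h2 := k05_cf (fun j => if j = i then (2 : ℂ) else 1) s m f
    rw [hf, coeff_smul, coeff_smul, smul_eq_mul, k05_range, k05_count, k05_count] at h2
    have h3 := mul_right_cancel₀ (mem_support_iff.1 hs) h2
    have h4 : (2 : ℕ) ^ (List.range n).count i = 2 ^ (lets (k05E s) (k05L m)).count i := by
      exact_mod_cast h3
    exact (Nat.pow_right_injective le_rfl h4).symm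
  · have := (hfD hm).2
    unfold k05L
    rw [Multiset.length_toList, Finsupp.card_toMultiset]
    exact this
  · intro p hp
    unfold k05L at hp
    rw [Multiset.mem_toList, Finsupp.mem_toMultiset] at hp
    exact (hfD hm).1 p hp

end MP50e386N
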