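import Pool.Agent.Lib.MP_50e386_al.N.KDefs
import Pool.Agent.Lib.MP_50e386_al.N.K.Lett
import Pool.Agent.Lib.MP_50e386_al.N.K.Span1

/-! [N50 K06] multilinear monomials are permuted standard monomials. -/

namespace MP50e386N

open MvPolynomial

private theorem k06_lets_cons (p : ℕ × ℕ) (es ls : List (ℕ × ℕ)) :
    lets (p :: es) ls = p.1 :: p.2 :: lets es ls := by
  simp [lets]

private theorem k06_lets_nil_cons (p : ℕ × ℕ) (ls : List (ℕ × ℕ)) :
    lets [] (p :: ls) = p.2 :: lets [] ls := by
  simp [lets]

private theorem k06_mL_cons (p : ℕ × ℕ) (es ls : List (ℕ × ℕ)) :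
    mL (p :: es) ls = C (X s(p.1, p.2)) * mL es ls := by
  unfold mL
  rw [List.map_cons, List.prod_cons, C_mul, mul_assoc]

private theorem k06_mL_nil_cons (p : ℕ × ℕ) (ls : List (ℕ × ℕ)) :
    mL [] (p :: ls) = X p * mL [] ls := by
  unfold mL
  rw [List.map_cons, List.prod_cons, List.map_nil, List.prod_nil, C_1, one_mul, one_mul]

private theorem k06_mon : ∀ (es ls : List (ℕ × ℕ)) (φ : ℕ → ℕ),
    (∀ k < (lets es ls).length, φ k = (lets es ls).getD k 0) →
      lsub φ (mon es.length (ls.map Prod.fst)) = mL es ls := by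
  intro es
  induction es with
  | nil =>
    intro ls
    induction ls with
    | nil =>
      intro φ _
      simp [mon, mL]
    | cons p ls ih =>
      intro φ h
      rw [k06_lets_nil_cons] at h
      rw [k06_mL_nil_cons, List.map_cons, List.length_nil]
      have h0 : φ 0 = p.2 := h 0 (by simp)
      have h1 := ih (φ ∘ (· + 1)) (by
        intro k hk
        have := h (k + 1) (by simpa using hk)
        simpa using this)
      rw [List.length_nil] at h1
      rw [show mon 0 (p.1 :: ls.map Prod.fst) = X (p.1, 0) * lsub (· + 1) (mon 0 (ls.map Prod.fst))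
        from by rw [mon], map_mul, lsub_X, lsub_lsub, h1, h0]
  | cons p es ih =>
    intro ls φ h
    rw [k06_lets_cons] at h
    rw [k06_mL_cons, List.length_cons]
    have h0 : φ 0 = p.1 := h 0 (by simp)
    have h1 : φ 1 = p.2 := h 1 (by simp)
    have h2 := ih ls (φ ∘ (· + 2)) (by
      intro k hk
      have := h (k + 2) (by simpa using hk)
      simpa using this)
    rw [show mon (es.length + 1) (ls.map Prod.fst) =
      C (X s(0, 1)) * lsub (· + 2) (mon es.length (ls.map Prod.fst)) from by rw [mon],
      map_mul, lsub_C_X, lsub_lsub, h2, h0, h1]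

theorem mL_eq (n : ℕ) (es ls : List (ℕ × ℕ)) (h : (lets es ls).Perm (List.range n)) :
    2 * es.length + ls.length = n ∧ ∃ σ : Equiv.Perm (Fin n),
      mL es ls = lsub (extd fun k => (σ k : ℕ)) (mon es.length (ls.map Prod.fst)) := by
  have hlen : (lets es ls).length = n := by
    rw [h.length_eq, List.length_range]
  have hlen' : (lets es ls).length = 2 * es.length + ls.length := by
    clear h hlen
    induction es with
    | nil => simp [lets]
    | cons p es ih =>
      rw [k06_lets_cons, List.length_cons, List.length_cons, ih, List.length_cons]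
      ring
  refine ⟨by rw [← hlen', hlen], ?_⟩
  have hnd : (lets es ls).Nodup := h.nodup_iff.2 List.nodup_range
  have hmem : ∀ x ∈ lets es ls, x < n := fun x hx => List.mem_range.1 (h.mem_iff.1 hx)
  let s : Fin n → Fin n := fun k =>
    ⟨(lets es ls)[k.1]'(by rw [hlen]; exact k.2), hmem _ (List.getElem_mem _)⟩
  have hs : Function.Injective s := by
    intro k k' hk
    have h1 : (lets es ls)[k.1]'(by rw [hlen]; exact k.2) =
      (lets es ls)[k'.1]'(by rw [hlen]; exact k'.2) := congrArg Fin.val hk
    exact Fin.ext ((List.Nodup.getElem_inj_iff hnd).1 h1)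
  refine ⟨Equiv.ofBijective s (Finite.injective_iff_bijective.1 hs), (k06_mon es ls _ ?_).symm⟩
  intro k hk
  have hk' : k < n := by rwa [hlen] at hk
  rw [extd, dif_pos hk', List.getD_eq_getElem _ _ hk]
  rfl

theorem span_UL (n L D : ℕ) (f : UA) (hf : f ∈ UL n) (hfD : f ∈ BD MP50e386.A L D) :
    f ∈ Submodule.span ℂ {g : UA | ∃ (e : ℕ) (as : List ℕ) (σ : Equiv.Perm (Fin n)),
      2 * e + as.length = n ∧ as.length ≤ D ∧ (∀ a ∈ as, a < L) ∧
      g = lsub (extd fun k => (σ k : ℕ)) (mon e as)} := by
  refine Submodule.span_mono ?_ (span_mL n L D f hf hfD)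
  rintro g ⟨es, ls, h1, h2, h3, rfl⟩
  obtain ⟨h4, σ, h5⟩ := mL_eq n es ls h1
  refine ⟨es.length, ls.map Prod.fst, σ, by rw [List.length_map]; exact h4,
    by rw [List.length_map]; exact h2, ?_, h5⟩
  intro a ha
  obtain ⟨p, hp, rfl⟩ := List.mem_map.1 ha
  exact h3 p hp

end MP50e386N
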