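import Pool.Agent.Lib.MP_50e386_al.N.KDefs

/-! [N50 K01] the free supercommutative algebra exists. -/

namespace MP50e386N

open MvPolynomial

/-- the concrete free supercommutative algebra; `TT (Fin r) (Fin s ⊕ Fin s) ℂ = EB r s` -/
abbrev TT (E O B : Type) [CommRing B] :=
  ExteriorAlgebra (MvPolynomial (ℕ × E) B) ((ℕ × O) →₀ MvPolynomial (ℕ × E) B)

section k01

variable {S Q : Type} [CommRing S]

/-- coordinates along a list -/
private noncomputable def k01_crd (lo : List Q) (n : ℕ) : (Q →₀ S) →ₗ[S] (Fin n → S) :=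
  LinearMap.pi fun k => (lo[(k : ℕ)]?).elim 0 fun q => Finsupp.lapply q

open Classical in
private theorem k01_crd_single (lo : List Q) (n : ℕ) (q : Q) (k : Fin n) :
    k01_crd (S := S) lo n (Finsupp.single q 1) k = if lo[(k : ℕ)]? = some q then 1 else 0 := by
  unfold k01_crd
  rw [LinearMap.pi_apply]
  cases h : lo[(k : ℕ)]? with
  | none => simp
  | some q' =>
    simp only [Option.elim_some, Finsupp.lapply_apply, Option.some.injEq]
    rw [Finsupp.single_apply]
    by_cases h1 : q = q'
    · rw [if_pos h1, if_pos h1.symm]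
    · rw [if_neg h1, if_neg fun h2 => h1 h2.symm]

/-- the functional given by a list -/
private noncomputable def k01_D (lo : List Q) : ExteriorAlgebra S (Q →₀ S) →ₗ[S] S :=
  ExteriorAlgebra.liftAlternating fun n => if n = lo.length then
    (Matrix.detRowAlternating (R := S) (n := Fin n)).compLinearMap (k01_crd lo n) else 0

/-- the monomial given by a list -/
private noncomputable def k01_m (lo : List Q) : ExteriorAlgebra S (Q →₀ S) :=
  (lo.map fun q => ExteriorAlgebra.ι S (Finsupp.single q (1 : S))).prod

open Classical in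
/-- the matrix -/
private noncomputable def k01_M (S : Type) [CommRing S] (lo lo' : List Q) :
    Matrix (Fin lo'.length) (Fin lo'.length) S :=
  fun j k => if lo[(k : ℕ)]? = some (lo'.get j) then 1 else 0

private theorem k01_D_m (lo lo' : List Q) :
    k01_D (S := S) lo (k01_m lo') = if lo'.length = lo.length then (k01_M S lo lo').det else 0 := by
  have h1 : (k01_m lo' : ExteriorAlgebra S (Q →₀ S)) =
      ExteriorAlgebra.ιMulti S lo'.length (fun j => Finsupp.single (lo'.get j) (1 : S)) := by
    rw [ExteriorAlgebra.ιMulti_apply]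
    unfold k01_m
    conv_lhs => rw [← List.ofFn_get lo', List.map_ofFn]
    rfl
  rw [h1]
  unfold k01_D
  rw [ExteriorAlgebra.liftAlternating_apply_ιMulti]
  split_ifs with h
  · rw [AlternatingMap.compLinearMap_apply]
    change Matrix.det _ = _
    congr 1
    funext j k
    exact k01_crd_single lo _ _ k
  · rfl

private theorem k01_D_int (lo lo' : List Q) :
    ∃ z : ℤ, ∀ (S : Type) [CommRing S], k01_D (S := S) lo (k01_m lo') = (z : S) := by
  classical
  by_cases h : lo'.length = lo.length
  · refine ⟨(k01_M ℤ lo lo').det, fun S _ => ?_⟩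
    rw [k01_D_m, if_pos h]
    have h1 : k01_M S lo lo' = (Int.castRingHom S).mapMatrix (k01_M ℤ lo lo') := by
      funext j k
      change _ = Int.castRingHom S (k01_M ℤ lo lo' j k)
      unfold k01_M
      split_ifs <;> simp
    rw [h1, ← RingHom.map_det]
    rfl
  · refine ⟨0, fun S _ => ?_⟩
    rw [k01_D_m, if_neg h, Int.cast_zero]

private theorem k01_D_self (lo : List Q) (h : lo.Nodup) :
    k01_D (S := S) lo (k01_m lo) = 1 := by
  classical
  rw [k01_D_m, if_pos rfl]
  have h1 : k01_M S lo lo = 1 := by
    funext j k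
    unfold k01_M
    rw [Matrix.one_apply]
    have h2 : lo[(k : ℕ)]? = some (lo.get k) := by simp
    rw [h2]
    by_cases hjk : j = k
    · rw [if_pos hjk, hjk, if_pos rfl]
    · rw [if_neg hjk, if_neg]
      intro h3
      exact hjk ((List.Nodup.get_inj_iff h).1 (Option.some.inj h3)).symm
  rw [h1, Matrix.det_one]

private theorem k01_D_ne (lo lo' : List Q) (h : ¬ lo.Perm lo') :
    k01_D (S := S) lo (k01_m lo') = 0 := by
  classical
  rw [k01_D_m]
  split_ifs with hl
  · by_cases hn : lo'.Nodup
    · have h1 : ∃ q ∈ lo', q ∉ lo := by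
        by_contra hc
        push Not at hc
        exact h ((hn.subperm hc).perm_of_length_le hl.ge).symm
      obtain ⟨q, hq, hq'⟩ := h1
      obtain ⟨j, hj⟩ := List.get_of_mem hq
      refine Matrix.det_eq_zero_of_row_eq_zero j fun k => ?_
      unfold k01_M
      rw [if_neg]
      intro h2
      rw [hj] at h2
      exact hq' (List.mem_of_getElem? h2)
    · rw [List.nodup_iff_injective_get] at hn
      unfold Function.Injective at hn
      push Not at hn
      obtain ⟨i, j, hij, hne⟩ := hn
      refine Matrix.det_zero_of_row_eq hne ?_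
      funext k
      unfold k01_M
      rw [hij]
  · rfl

end k01

section k01'

variable {E O B : Type} [CommRing B]

/-- the odd part of a list -/
private def k01_lo (l : List ((E ⊕ O) × ℕ)) : List (ℕ × O) :=
  l.filterMap fun p => p.1.elim (fun _ => none) (fun b => some (p.2, b))

/-- the even part of a list -/
private noncomputable def k01_me : List ((E ⊕ O) × ℕ) → (ℕ × E) →₀ ℕ
  | [] => 0
  | (Sum.inl a, i) :: l => Finsupp.single (i, a) 1 + k01_me l
  | (Sum.inr _, _) :: l => k01_me l

private theorem k01_lo_inl (a : E) (i : ℕ) (l : List ((E ⊕ O) × ℕ)) :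
    k01_lo ((Sum.inl a, i) :: l) = k01_lo l := List.filterMap_cons_none rfl

private theorem k01_lo_inr (b : O) (i : ℕ) (l : List ((E ⊕ O) × ℕ)) :
    k01_lo ((Sum.inr b, i) :: l) = (i, b) :: k01_lo l := List.filterMap_cons_some rfl

private theorem k01_perm (l l' : List ((E ⊕ O) × ℕ)) (h : (k01_lo l).Perm (k01_lo l'))
    (h' : k01_me l = k01_me l') : l.Perm l' := by
  have : DecidableEq E := Classical.decEq _
  have : DecidableEq O := Classical.decEq _
  let inst : BEq ((E ⊕ O) × ℕ) := instBEqOfDecidableEq
  have c1 : ∀ (l : List ((E ⊕ O) × ℕ)) (a : E) (i : ℕ),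
      l.count (Sum.inl a, i) = k01_me l (i, a) := by
    intro l a i
    induction l with
    | nil => simp [k01_me]
    | cons p l ih =>
      obtain ⟨y | y, j⟩ := p
      · rw [List.count_cons, ih]
        simp only [k01_me, Finsupp.add_apply, Finsupp.single_apply, Prod.mk.injEq, beq_iff_eq,
          Sum.inl.injEq]
        by_cases h1 : y = a <;> by_cases h2 : j = i <;> simp [h1, h2, add_comm]
      · rw [List.count_cons, ih]
        simp [k01_me]
  have c2 : ∀ (l : List ((E ⊕ O) × ℕ)) (b : O) (i : ℕ),
      l.count (Sum.inr b, i) = (k01_lo l).count (i, b) := by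
    intro l b i
    induction l with
    | nil => simp [k01_lo]
    | cons p l ih =>
      obtain ⟨y | y, j⟩ := p
      · rw [List.count_cons, ih]
        rw [k01_lo_inl]
        simp
      · rw [List.count_cons, ih]
        rw [k01_lo_inr, List.count_cons]
        by_cases h1 : y = b <;> by_cases h2 : j = i <;> simp [h1, h2]
  rw [List.perm_iff_count]
  rintro ⟨y | y, i⟩
  · rw [c1, c1, h']
  · rw [c2, c2, h.count_eq]

/-- the generators -/
private noncomputable def k01_P (B : Type) [CommRing B] (y : E ⊕ O) (i : ℕ) : TT E O B :=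
  y.elim (fun a => algebraMap (MvPolynomial (ℕ × E) B) (TT E O B) (X (i, a)))
    (fun b => ExteriorAlgebra.ι (MvPolynomial (ℕ × E) B) (Finsupp.single (i, b) 1))

private theorem k01_pp (l : List ((E ⊕ O) × ℕ)) :
    (l.map fun p => k01_P B p.1 p.2).prod =
      algebraMap (MvPolynomial (ℕ × E) B) (TT E O B) (monomial (k01_me l) 1) *
        k01_m (k01_lo l) := by
  induction l with
  | nil => simp [k01_me, k01_lo, k01_m]
  | cons p l ih =>
    obtain ⟨y | y, j⟩ := p
    · rw [List.map_cons, List.prod_cons, ih]
      rw [k01_lo_inl, ← mul_assoc]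
      congr 1
      change algebraMap (MvPolynomial (ℕ × E) B) (TT E O B) (X (j, y)) * _ = _
      rw [← map_mul]
      congr 1
      change monomial _ _ * monomial _ _ = monomial (Finsupp.single (j, y) 1 + k01_me l) 1
      rw [monomial_mul, one_mul]
    · rw [List.map_cons, List.prod_cons, ih]
      rw [k01_lo_inr, ← mul_assoc, ← Algebra.commutes, mul_assoc]
      congr 1

private noncomputable def k01_coef (l : List ((E ⊕ O) × ℕ)) : TT E O B →ₗ[B] B :=
  (MvPolynomial.lcoeff B (k01_me l)).comp ((k01_D (k01_lo l)).restrictScalars B)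

private theorem k01_coef_pp (l l' : List ((E ⊕ O) × ℕ)) :
    k01_coef l ((l'.map fun p => k01_P B p.1 p.2).prod) =
      coeff (k01_me l) (monomial (k01_me l') (1 : B) * k01_D (k01_lo l) (k01_m (k01_lo l'))) := by
  rw [k01_pp]
  unfold k01_coef
  rw [LinearMap.comp_apply, LinearMap.restrictScalars_apply, ← Algebra.smul_def, map_smul,
    smul_eq_mul]
  rfl

private theorem k01_comm (y : E ⊕ O) (i : ℕ) (y' : E ⊕ O) (i' : ℕ) :
    k01_P B y i * k01_P B y' i' = ss (par y) (par y') • (k01_P B y' i' * k01_P B y i) := by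
  rcases y with a | b
  · have h : ss (par (Sum.inl a : E ⊕ O)) (par y') = 1 := by simp [ss, par]
    rw [h, one_smul]
    exact Algebra.commutes _ _
  · rcases y' with a' | b'
    · have h : ss (par (Sum.inr b : E ⊕ O)) (par (Sum.inl a' : E ⊕ O)) = 1 := by simp [ss, par]
      rw [h, one_smul]
      exact (Algebra.commutes _ _).symm
    · have h : ss (par (Sum.inr b : E ⊕ O)) (par (Sum.inr b' : E ⊕ O)) = -1 := by simp [ss, par]
      rw [h, neg_smul, one_smul]
      exact eq_neg_of_add_eq_zero_left (ExteriorAlgebra.ι_add_mul_swap _ _)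

private theorem k01_gen :
    Algebra.adjoin B {t | ∃ (y : E ⊕ O) (i : ℕ), t = k01_P B y i} = ⊤ := by
  rw [Algebra.eq_top_iff]
  intro t
  have halg : ∀ r : MvPolynomial (ℕ × E) B, algebraMap (MvPolynomial (ℕ × E) B) (TT E O B) r ∈
      Algebra.adjoin B {t | ∃ (y : E ⊕ O) (i : ℕ), t = k01_P B y i} := by
    intro r
    induction r using MvPolynomial.induction_on with
    | C c =>
      have : algebraMap (MvPolynomial (ℕ × E) B) (TT E O B) (C c) = algebraMap B (TT E O B) c :=
        (IsScalarTower.algebraMap_apply B (MvPolynomial (ℕ × E) B) (TT E O B) c).symm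
      rw [this]
      exact Subalgebra.algebraMap_mem _ c
    | add p q hp hq =>
      rw [map_add]
      exact Subalgebra.add_mem _ hp hq
    | mul_X p x hp =>
      rw [map_mul]
      exact Subalgebra.mul_mem _ hp (Algebra.subset_adjoin ⟨Sum.inl x.2, x.1, rfl⟩)
  induction t using ExteriorAlgebra.induction with
  | algebraMap r => exact halg r
  | ι x =>
    induction x using Finsupp.induction_linear with
    | zero =>
      rw [map_zero]
      exact Subalgebra.zero_mem _
    | add x y hx hy =>
      rw [map_add]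
      exact Subalgebra.add_mem _ hx hy
    | single q r =>
      have h1 : (Finsupp.single q r : (ℕ × O) →₀ MvPolynomial (ℕ × E) B) =
          r • Finsupp.single q 1 := by
        rw [Finsupp.smul_single, smul_eq_mul, mul_one]
      rw [h1, map_smul, Algebra.smul_def]
      exact Subalgebra.mul_mem _ (halg r) (Algebra.subset_adjoin ⟨Sum.inr q.2, q.1, rfl⟩)
  | mul a b ha hb => exact Subalgebra.mul_mem _ ha hb
  | add a b ha hb => exact Subalgebra.add_mem _ ha hb

private theorem k01_nodup (l : List ((E ⊕ O) × ℕ)) (h : l.Nodup) : (k01_lo l).Nodup := by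
  unfold k01_lo
  refine h.filterMap ?_
  rintro ⟨y | y, i⟩ ⟨y' | y', i'⟩ q hq hq'
  · exact absurd hq (by simp)
  · exact absurd hq (by simp)
  · exact absurd hq' (by simp)
  · simp only [Sum.elim_inr, Option.mem_def, Option.some.injEq] at hq hq'
    rw [← hq'] at hq
    simp only [Prod.mk.injEq] at hq
    rw [hq.1, hq.2]

/-- the free supercommutative algebra -/
private noncomputable def k01_S (E O B : Type) [CommRing B] : SAlg E O B (TT E O B) where
  P := k01_P B
  comm := k01_comm
  sq := fun b i => ExteriorAlgebra.ι_sq_zero _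
  gen := k01_gen
  coef := k01_coef
  coef_self := by
    classical
    intro l hl
    rw [k01_coef_pp, k01_D_self _ (k01_nodup l hl), mul_one, coeff_monomial, if_pos rfl]
  coef_ne := by
    classical
    intro l l' hl
    rw [k01_coef_pp]
    by_cases h : (k01_lo l).Perm (k01_lo l')
    · have h' : k01_me l' ≠ k01_me l := fun h' => hl (k01_perm l l' h h'.symm)
      obtain ⟨z, hz⟩ := k01_D_int (k01_lo l) (k01_lo l')
      rw [hz]
      have h1 : ((z : ℤ) : MvPolynomial (ℕ × E) B) = C (z : B) := by
        rw [map_intCast]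
      rw [h1, mul_comm, coeff_C_mul, coeff_monomial, if_neg h', mul_zero]
    · rw [k01_D_ne _ _ h, mul_zero, coeff_zero]

end k01'

theorem exists_SAlg_TT (E O B : Type) [CommRing B] : ∃ S : SAlg E O B (TT E O B),
    (∀ a i, S.P (Sum.inl a) i = algebraMap (MvPolynomial (ℕ × E) B) (TT E O B) (X (i, a))) ∧
    ∀ b i, S.P (Sum.inr b) i =
      ExteriorAlgebra.ι (MvPolynomial (ℕ × E) B) (Finsupp.single (i, b) 1) :=
  ⟨k01_S E O B, fun _ _ => rfl, fun _ _ => rfl⟩

theorem exists_SAlg (E O B : Type) [CommRing B] [Algebra ℂ B] :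
    ∃ (T : Type) (_ : Ring T) (_ : Algebra B T) (_ : Algebra ℂ T) (_ : IsScalarTower ℂ B T),
      Nonempty (SAlg E O B T) := by
  obtain ⟨S, -, -⟩ := exists_SAlg_TT E O B
  let i1 : Algebra ℂ (TT E O B) := Algebra.compHom (TT E O B) (algebraMap ℂ B)
  refine ⟨TT E O B, inferInstance, inferInstance, i1, ?_, ⟨S⟩⟩
  refine ⟨fun c b t => ?_⟩
  change (c • b) • t = algebraMap ℂ B c • (b • t)
  have h : c • b = algebraMap ℂ B c * b := Algebra.smul_def c b
  rw [h, mul_smul]

end MP50e386N
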