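import Pool.Agent.Lib.MP_50e386_al.N.KDefs
import Pool.Agent.Lib.MP_50e386_al.N.K.TT
import Pool.Agent.Lib.MP_50e386_al.N.K.Sign
import Pool.Agent.Lib.MP_50e386_al.N.K.Lett
import Pool.Agent.Lib.MP_50e386_al.N.K.Span2

/-! [N50 K18] the expansion of the exterior evaluation of a multilinear element. -/

namespace MP50e386N

open MvPolynomial

variable {E O : Type} [Fintype E] [Fintype O] [DecidableEq E] [DecidableEq O] {n : ℕ}
  (W : Form E O)

private theorem k18_evF_C {T : Type} [Ring T] [Algebra ℂ T] (S : SAlg E O ℂ T) (c : ℂ) :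
    evF S W (C (algebraMap ℂ MP50e386.A c)) = algebraMap ℂ (Subalgebra.center ℂ T) c := by
  unfold evF
  rw [eval₂Hom_C]
  exact AlgHom.commutes _ c

private theorem k18_evF_smul {T : Type} [Ring T] [Algebra ℂ T] (S : SAlg E O ℂ T) (c : ℂ)
    (f : UA) : ((evF S W (c • f) : Subalgebra.center ℂ T) : T) =
      c • ((evF S W f : Subalgebra.center ℂ T) : T) := by
  have h2 : c • f = C (algebraMap ℂ MP50e386.A c) * f := by
    rw [Algebra.smul_def]
    rfl
  rw [h2, map_mul, k18_evF_C, ← Algebra.smul_def]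
  rfl

private theorem k18_evF_x {T : Type} [Ring T] [Algebra ℂ T] (S : SAlg E O ℂ T) (i j : ℕ) :
    ((evF S W (C (X s(i, j))) : Subalgebra.center ℂ T) : T) = evx S W i j := by
  unfold evF
  rw [eval₂Hom_C]
  change ((aeval (Sym2.lift _) (X s(i, j)) : Subalgebra.center ℂ T) : T) = _
  rw [aeval_X, Sym2.lift_mk]

private theorem k18_evF_z {T : Type} [Ring T] [Algebra ℂ T] (S : SAlg E O ℂ T) (a i : ℕ) :
    ((evF S W (X (a, i)) : Subalgebra.center ℂ T) : T) = evz S W a i := by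
  unfold evF
  rw [eval₂Hom_X']

theorem isW_add {f g : UA} {w w' : (Fin n → E ⊕ O) → ℂ} (hf : IsW n W f w) (hg : IsW n W g w') :
    IsW n W (f + g) (w + w') := by
  intro T _ _ S φ
  rw [map_add, map_add]
  have h1 := hf T S φ
  have h2 := hg T S φ
  change ((evF S W (lsub (extd φ) f) : Subalgebra.center ℂ T) : T) +
    ((evF S W (lsub (extd φ) g) : Subalgebra.center ℂ T) : T) = _
  rw [h1, h2, ← Finset.sum_add_distrib]
  refine Finset.sum_congr rfl fun τ _ => ?_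
  rw [Pi.add_apply, add_smul]

theorem isW_smul {f : UA} {w : (Fin n → E ⊕ O) → ℂ} (hf : IsW n W f w) (c : ℂ) :
    IsW n W (c • f) (c • w) := by
  intro T _ _ S φ
  rw [lsub_smul, k18_evF_smul, hf T S φ, Finset.smul_sum]
  refine Finset.sum_congr rfl fun τ _ => ?_
  rw [Pi.smul_apply, smul_smul, smul_eq_mul]

private theorem k18_zero : IsW n W (0 : UA) (0 : (Fin n → E ⊕ O) → ℂ) := by
  intro T _ _ S φ
  rw [map_zero, map_zero]
  simp

theorem isW_sum {ι : Type} (F : Finset ι) (f : ι → UA) (w : ι → (Fin n → E ⊕ O) → ℂ)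
    (h : ∀ i ∈ F, IsW n W (f i) (w i)) : IsW n W (∑ i ∈ F, f i) (∑ i ∈ F, w i) := by
  classical
  induction F using Finset.induction_on with
  | empty =>
    rw [Finset.sum_empty, Finset.sum_empty]
    exact k18_zero W
  | insert a F ha ih =>
    rw [Finset.sum_insert ha, Finset.sum_insert ha]
    exact isW_add W (h a (Finset.mem_insert_self _ _))
      (ih fun i hi => h i (Finset.mem_insert_of_mem hi))

private theorem k18_lis_perm {τ τ' : Fin n → E ⊕ O}
    (h : (lis τ (fun k => (k : ℕ))).Perm (lis τ' (fun k => (k : ℕ)))) : τ = τ' := by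
  funext k
  have h1 : (τ k, (k : ℕ)) ∈ lis τ (fun k => (k : ℕ)) := by
    unfold lis
    rw [List.mem_ofFn]
    exact ⟨k, rfl⟩
  have h2 := h.mem_iff.1 h1
  unfold lis at h2
  rw [List.mem_ofFn] at h2
  obtain ⟨k', hk'⟩ := h2
  rw [Prod.mk.injEq] at hk'
  have h3 : k' = k := Fin.ext hk'.2
  rw [← hk'.1, h3]

private theorem k18_lis_nodup (τ : Fin n → E ⊕ O) : (lis τ (fun k => (k : ℕ))).Nodup := by
  unfold lis
  rw [List.nodup_ofFn]
  intro k k' hk
  have := (Prod.mk.inj hk).2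
  exact Fin.ext this

theorem isW_unique {f : UA} {w w' : (Fin n → E ⊕ O) → ℂ} (hf : IsW n W f w)
    (hf' : IsW n W f w') : w = w' := by
  obtain ⟨S, -, -⟩ := exists_SAlg_TT E O ℂ
  have key : ∀ {w : (Fin n → E ⊕ O) → ℂ}, IsW n W f w → ∀ τ0,
      S.coef (lis τ0 (fun k => (k : ℕ)))
        ((evF S W (lsub (extd (n := n) fun k => (k : ℕ)) f) :
          Subalgebra.center ℂ (TT E O ℂ)) : TT E O ℂ) = w τ0 := by
    intro w hw τ0
    rw [hw _ S (fun k => (k : ℕ)), map_sum, Finset.sum_eq_single τ0]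
    · rw [map_smul]
      have := S.coef_self _ (k18_lis_nodup τ0)
      unfold SAlg.pp
      rw [this, smul_eq_mul, mul_one]
    · intro τ _ hτ
      rw [map_smul]
      have := S.coef_ne (lis τ0 (fun k => (k : ℕ))) (lis τ (fun k => (k : ℕ)))
        (fun h => hτ (k18_lis_perm h).symm)
      unfold SAlg.pp
      rw [this, smul_zero]
    · intro h
      exact absurd (Finset.mem_univ _) h
  funext τ0
  rw [← key hf τ0, ← key hf' τ0]

theorem isW_one : IsW (E := E) (O := O) 0 W 1 (fun _ => 1) := by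
  intro T _ _ S φ
  rw [map_one, map_one, Fintype.sum_unique]
  simp [lis, SAlg.pp]

/-- value of an edge -/
def We (W : Form E O) (y y' : E ⊕ O) : ℂ := match y, y' with
  | Sum.inl a, Sum.inl a' => W.be a a'
  | Sum.inr b, Sum.inr b' => W.ze b b'
  | _, _ => 0

/-- value of a leg -/
def Wl (W : Form E O) (a : ℕ) (y : E ⊕ O) : ℂ := match y with
  | Sum.inl a' => W.le a a'
  | _ => 0

theorem isW_edge : IsW 2 W (C (X s(0, 1))) (fun τ => We W (τ 0) (τ 1)) := by
  intro T _ _ S φ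
  rw [lsub_C_X, k18_evF_x]
  have h1 : ∑ τ : Fin 2 → E ⊕ O, We W (τ 0) (τ 1) • S.pp (lis τ φ) =
      ∑ p : (E ⊕ O) × (E ⊕ O), We W p.1 p.2 • (S.P p.1 (φ 0) * S.P p.2 (φ 1)) := by
    refine Fintype.sum_equiv (finTwoArrowEquiv (E ⊕ O)) _ _ (fun τ => ?_)
    simp [lis, SAlg.pp, finTwoArrowEquiv]
  have h2 : ∑ p : (E ⊕ O) × (E ⊕ O), We W p.1 p.2 • (S.P p.1 (φ 0) * S.P p.2 (φ 1)) =
      ∑ y, ∑ y', We W y y' • (S.P y (φ 0) * S.P y' (φ 1)) := by
    rw [← Finset.univ_product_univ, Finset.sum_product]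
  have h3 : extd φ 0 = φ 0 := rfl
  have h4 : extd φ 1 = φ 1 := rfl
  rw [h1, h2, Fintype.sum_sum_type, h3, h4]
  unfold evx
  congr 1
  · refine Finset.sum_congr rfl fun a _ => ?_
    rw [Fintype.sum_sum_type]
    simp [We]
  · refine Finset.sum_congr rfl fun a _ => ?_
    rw [Fintype.sum_sum_type]
    simp [We]

theorem isW_leg (a : ℕ) : IsW 1 W (X (a, 0)) (fun τ => Wl W a (τ 0)) := by
  intro T _ _ S φ
  rw [lsub_X, k18_evF_z]
  have h1 : ∑ τ : Fin 1 → E ⊕ O, Wl W a (τ 0) • S.pp (lis τ φ) =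
      ∑ y : E ⊕ O, Wl W a y • S.P y (φ 0) := by
    refine Fintype.sum_equiv (Equiv.funUnique (Fin 1) (E ⊕ O)) _ _ (fun τ => ?_)
    simp [lis, SAlg.pp]
  have h3 : extd φ 0 = φ 0 := rfl
  rw [h1, Fintype.sum_sum_type, h3]
  unfold evz
  simp [Wl]

private theorem k18_extd_lt {n : ℕ} (φ : Fin n → ℕ) (k : ℕ) (h : k < n) :
    extd φ k = φ ⟨k, h⟩ := by
  unfold extd
  rw [dif_pos h]

private theorem k18_pp_append {T : Type} [Ring T] [Algebra ℂ T] (S : SAlg E O ℂ T)
    (l l' : List ((E ⊕ O) × ℕ)) : S.pp (l ++ l') = S.pp l * S.pp l' := by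
  unfold SAlg.pp
  rw [List.map_append, List.prod_append]

private theorem k18_lis {n' n : ℕ} (τ : Fin (n' + n) → E ⊕ O) (φ : Fin (n' + n) → ℕ) :
    lis τ φ = lis (τ ∘ Fin.castAdd n) (φ ∘ Fin.castAdd n) ++
      lis (τ ∘ Fin.natAdd n') (φ ∘ Fin.natAdd n') := by
  unfold lis
  rw [← List.ofFn_fin_append]
  congr 1
  funext k
  refine Fin.addCases (fun k => ?_) (fun k => ?_) k
  · simp only [Fin.append_left, Function.comp_apply]
  · simp only [Fin.append_right, Function.comp_apply]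

/-- concatenation -/
theorem isW_cat {n' : ℕ} {h f : UA} (hh : h ∈ UL n') (hf : f ∈ UL n)
    {w' : (Fin n' → E ⊕ O) → ℂ} {w : (Fin n → E ⊕ O) → ℂ} (hw' : IsW n' W h w')
    (hw : IsW n W f w) : IsW (n' + n) W (h * lsub (· + n') f)
      (fun τ => w' (τ ∘ Fin.castAdd n) * w (τ ∘ Fin.natAdd n')) := by
  intro T _ _ S φ
  rw [map_mul, lsub_lsub]
  have h1 : lsub (extd φ) h = lsub (extd (φ ∘ Fin.castAdd n)) h := by
    refine lsub_congr hh fun k hk => ?_
    rw [k18_extd_lt _ k hk, k18_extd_lt _ k (Nat.lt_add_right n hk)]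
    rfl
  have h2 : lsub (extd φ ∘ (· + n')) f = lsub (extd (φ ∘ Fin.natAdd n')) f := by
    refine lsub_congr hf fun k hk => ?_
    rw [k18_extd_lt _ k hk, Function.comp_apply, k18_extd_lt _ (k + n') (by omega)]
    have : (⟨k + n', by omega⟩ : Fin (n' + n)) = Fin.natAdd n' ⟨k, hk⟩ := by
      apply Fin.ext
      simp [add_comm]
    rw [this]
    rfl
  rw [h1, h2, map_mul]
  change ((evF S W (lsub (extd (φ ∘ Fin.castAdd n)) h) : Subalgebra.center ℂ T) : T) *
    ((evF S W (lsub (extd (φ ∘ Fin.natAdd n')) f) : Subalgebra.center ℂ T) : T) = _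
  rw [hw' T S _, hw T S _, Finset.sum_mul_sum, ← Finset.sum_product', Finset.univ_product_univ]
  refine Fintype.sum_equiv (Fin.appendEquiv n' n) _ _ (fun p => ?_)
  obtain ⟨τ1, τ2⟩ := p
  have e1 : (Fin.append τ1 τ2) ∘ Fin.castAdd n = τ1 := by
    funext k
    rw [Function.comp_apply, Fin.append_left]
  have e2 : (Fin.append τ1 τ2) ∘ Fin.natAdd n' = τ2 := by
    funext k
    rw [Function.comp_apply, Fin.append_right]
  change (w' τ1 • S.pp (lis τ1 (φ ∘ Fin.castAdd n))) * (w τ2 • S.pp (lis τ2 (φ ∘ Fin.natAdd n'))) =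
    (w' ((Fin.append τ1 τ2) ∘ Fin.castAdd n) * w ((Fin.append τ1 τ2) ∘ Fin.natAdd n')) •
      S.pp (lis (Fin.append τ1 τ2) φ)
  rw [k18_lis, e1, e2, k18_pp_append, smul_mul_assoc, mul_smul_comm, smul_smul]

theorem isW_perm {f : UA} {w : (Fin n → E ⊕ O) → ℂ} (hfU : f ∈ UL n) (hf : IsW n W f w)
    (σ : Equiv.Perm (Fin n)) : IsW n W (lsub (extd fun k => (σ k : ℕ)) f)
      (fun τ => (kap σ (par ∘ τ) : ℂ) * w (τ ∘ σ)) := by
  intro T _ _ S φ
  rw [lsub_lsub]
  have h1 : lsub (extd φ ∘ extd fun k => (σ k : ℕ)) f = lsub (extd (φ ∘ σ)) f := by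
    refine lsub_congr hfU fun k hk => ?_
    exact extd_comp φ σ k hk
  rw [h1, hf T S _]
  symm
  refine Fintype.sum_equiv (Equiv.arrowCongr σ.symm (Equiv.refl (E ⊕ O))) _ _ (fun τ => ?_)
  change ((kap σ (par ∘ τ) : ℂ) * w (τ ∘ σ)) • S.pp (lis τ φ) = w (τ ∘ σ) • S.pp (lis (τ ∘ σ) (φ ∘ σ))
  rw [pp_perm S τ φ σ, mul_comm, mul_smul, Int.cast_smul_eq_zsmul]

private theorem k18_mon (e : ℕ) : ∀ (as : List ℕ) (m : ℕ), m = 2 * e + as.length →
    ∃ w : (Fin m → E ⊕ O) → ℂ, IsW m W (mon e as) w := by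
  induction e with
  | zero =>
    intro as
    induction as with
    | nil =>
      intro m hm
      obtain rfl : m = 0 := by simpa using hm
      refine ⟨fun _ => 1, ?_⟩
      rw [mon]
      exact isW_one W
    | cons a as ih =>
      intro m hm
      obtain ⟨w, hw⟩ := ih (2 * 0 + as.length) rfl
      obtain rfl : m = 1 + (2 * 0 + as.length) := by
        rw [hm, List.length_cons]
        omega
      rw [mon]
      exact ⟨_, isW_cat W (leg_mem_UL a) (mon_mem_UL 0 as) (isW_leg W a) hw⟩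
  | succ e ih =>
    intro as m hm
    obtain ⟨w, hw⟩ := ih as (2 * e + as.length) rfl
    obtain rfl : m = 2 + (2 * e + as.length) := by
      rw [hm]
      omega
    rw [mon]
    exact ⟨_, isW_cat W edge_mem_UL (mon_mem_UL e as) (isW_edge W) hw⟩

theorem exists_isW {f : UA} (hf : f ∈ UL n) : ∃ w, IsW n W f w := by
  obtain ⟨L, D, hfD⟩ := exists_BD f
  have h := span_UL n L D f hf hfD
  clear hf hfD
  induction h using Submodule.span_induction with
  | mem g hg =>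
    obtain ⟨e, as, σ, h1, -, -, rfl⟩ := hg
    subst h1
    obtain ⟨w, hw⟩ := k18_mon W e as _ rfl
    exact ⟨_, isW_perm W (mon_mem_UL e as) hw σ⟩
  | zero => exact ⟨0, k18_zero W⟩
  | add a b _ _ ha hb =>
    obtain ⟨w, hw⟩ := ha
    obtain ⟨w', hw'⟩ := hb
    exact ⟨_, isW_add W hw hw'⟩
  | smul c a _ ha =>
    obtain ⟨w, hw⟩ := ha
    exact ⟨_, isW_smul W hw c⟩

end MP50e386N
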