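import Pool.Agent.Lib.MP_50e386_al.N.KDefs
import Pool.Agent.Lib.MP_50e386_al.N.K.Exp

/-! [N50 K20] (d2) -/

namespace MP50e386N

open MvPolynomial

variable {E O : Type} [Fintype E] [Fintype O] [DecidableEq E] [DecidableEq O] {n : ℕ}
  (W : Form E O)

private theorem k20_kap_sq (σ : Equiv.Perm (Fin n)) (π : Fin n → Bool) :
    ((kap σ π : ℤ) : ℂ) * ((kap σ π : ℤ) : ℂ) = 1 := by
  have h1 : kap σ π = 1 ∨ kap σ π = -1 := by
    unfold kap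
    split_ifs with h
    · exact h.choose_spec.1
    · exact Or.inl rfl
  rcases h1 with h1 | h1 <;> rw [h1] <;> norm_num

private theorem k20_zero : IsW (E := E) (O := O) n W 0 0 := by
  intro T _ _ S φ
  simp

/-- (d2) -/
theorem w_eq_zero_of_eop {f : UA} (hfU : f ∈ UL n) {w : (Fin n → E ⊕ O) → ℂ}
    (hf : IsW n W f w) (τ : Fin n → E ⊕ O) (h : eop τ f = 0) : w τ = 0 := by
  obtain ⟨F, hF, hsum⟩ : ∃ F : Finset (Equiv.Perm (Fin n)), (∀ σ, σ ∈ F ↔ τ ∘ σ = τ) ∧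
      ∑ σ ∈ F, kap σ (par ∘ τ) • lsub (extd fun k => (σ k : ℕ)) f = 0 := by
    unfold eop at h
    refine ⟨_, ?_, h⟩
    intro σ
    simp
  have h1 : IsW n W (∑ σ ∈ F, ((kap σ (par ∘ τ) : ℤ) : ℂ) • lsub (extd fun k => (σ k : ℕ)) f)
      (∑ σ ∈ F, ((kap σ (par ∘ τ) : ℤ) : ℂ) •
        fun ρ : Fin n → E ⊕ O => (kap σ (par ∘ ρ) : ℂ) * w (ρ ∘ σ)) :=
    isW_sum W F _ _ fun σ _ => isW_smul W (isW_perm W hfU hf σ) _
  have h2 : ∑ σ ∈ F, ((kap σ (par ∘ τ) : ℤ) : ℂ) • lsub (extd fun k => (σ k : ℕ)) f = 0 := by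
    rw [← hsum]
    refine Finset.sum_congr rfl fun σ _ => ?_
    rw [Int.cast_smul_eq_zsmul]
  rw [h2] at h1
  have h3 := congrFun (isW_unique W h1 (k20_zero W)) τ
  rw [Finset.sum_apply] at h3
  have h4 : ∀ σ ∈ F, (((kap σ (par ∘ τ) : ℤ) : ℂ) •
      fun ρ : Fin n → E ⊕ O => (kap σ (par ∘ ρ) : ℂ) * w (ρ ∘ σ)) τ = w τ := by
    intro σ hσ
    rw [Pi.smul_apply, smul_eq_mul, (hF σ).1 hσ, ← mul_assoc, k20_kap_sq, one_mul]
  rw [Finset.sum_congr rfl h4, Finset.sum_const, Pi.zero_apply, nsmul_eq_mul] at h3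
  rcases mul_eq_zero.1 h3 with h5 | h5
  · have h6 : F.card = 0 := by exact_mod_cast h5
    have h7 : (1 : Equiv.Perm (Fin n)) ∈ F := (hF 1).2 rfl
    rw [Finset.card_eq_zero.1 h6] at h7
    exact absurd h7 (Finset.notMem_empty _)
  · exact h5

end MP50e386N
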