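import Mathlib

/-! [N50 K21] averaging (Maschke). -/

namespace MP50e386N

theorem maschke_kill {G V : Type} [Group G] [Fintype G] [AddCommGroup V] [Module ℂ V]
    (ρ : Representation ℂ G V) (M M' : Submodule ℂ V) (hM : ∀ g, ∀ v ∈ M, ρ g v ∈ M)
    (hM' : ∀ g, ∀ v ∈ M', ρ g v ∈ M') (hMM' : M ≤ M') (f : V) (hf : f ∈ M') :
    ∃ g ∈ M, ∀ c : G → ℂ, (∀ v ∈ M', ∑ x, c x • ρ x v ∈ M) → ∑ x, c x • ρ x (f - g) = 0 := by
  have _ := hM'
  obtain ⟨q, hq⟩ := LinearMap.exists_leftInverse_of_injective M.subtype (Submodule.ker_subtype M)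
  have hq' : ∀ v (hv : v ∈ M), ((q v : M) : V) = v := by
    intro v hv
    have := LinearMap.congr_fun hq ⟨v, hv⟩
    rw [LinearMap.comp_apply, LinearMap.id_apply] at this
    exact congrArg Subtype.val this
  have hG : (Fintype.card G : ℂ) ≠ 0 := by
    exact_mod_cast Fintype.card_ne_zero
  set p : V → V := fun v => (Fintype.card G : ℂ)⁻¹ • ∑ g : G, ρ g ((q (ρ g⁻¹ v) : M) : V) with hp
  have hpM : ∀ v, p v ∈ M := fun v =>
    M.smul_mem _ (M.sum_mem fun g _ => hM g _ (q (ρ g⁻¹ v)).2)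
  have hpid : ∀ v ∈ M, p v = v := by
    intro v hv
    have e : ∀ g : G, ρ g ((q (ρ g⁻¹ v) : M) : V) = v := by
      intro g
      rw [hq' _ (hM g⁻¹ v hv)]
      exact Representation.self_inv_apply ρ g v
    simp only [hp]
    rw [Finset.sum_congr rfl fun g _ => e g, Finset.sum_const, Finset.card_univ,
      ← Nat.cast_smul_eq_nsmul ℂ, smul_smul, inv_mul_cancel₀ hG, one_smul]
  have hpadd : ∀ v w, p (v + w) = p v + p w := by
    intro v w
    simp only [hp, map_add, Submodule.coe_add, Finset.sum_add_distrib, smul_add]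
  have hpsmul : ∀ (a : ℂ) v, p (a • v) = a • p v := by
    intro a v
    simp only [hp, map_smul, Submodule.coe_smul]
    rw [← Finset.smul_sum, smul_comm]
  have hp0 : p 0 = 0 := by
    have := hpsmul 0 0
    rwa [zero_smul, zero_smul] at this
  have hpsum : ∀ (s : Finset G) (F : G → V), p (∑ x ∈ s, F x) = ∑ x ∈ s, p (F x) := by
    intro s F
    induction s using Finset.cons_induction with
    | empty => rw [Finset.sum_empty, Finset.sum_empty, hp0]
    | cons a s ha ih => rw [Finset.sum_cons, Finset.sum_cons, hpadd, ih]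
  have hpcomm : ∀ (h : G) v, p (ρ h v) = ρ h (p v) := by
    intro h v
    simp only [hp]
    rw [map_smul, map_sum]
    congr 1
    rw [← Equiv.sum_comp (Equiv.mulLeft h)]
    refine Finset.sum_congr rfl fun g _ => ?_
    have e1 : ρ (Equiv.mulLeft h g)⁻¹ (ρ h v) = ρ g⁻¹ v := by
      rw [Equiv.coe_mulLeft, ← Module.End.mul_apply, ← map_mul]
      congr 2
      group
    rw [e1, Equiv.coe_mulLeft, map_mul, Module.End.mul_apply]
  refine ⟨p f, hpM f, ?_⟩
  intro c hc
  have h1 : f - p f ∈ M' := M'.sub_mem hf (hMM' (hpM f))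
  have h2 := hpid _ (hc _ h1)
  rw [← h2, hpsum]
  apply Finset.sum_eq_zero
  intro x _
  have h3 : p (f - p f) = 0 := by
    have e : f - p f = f + (-1 : ℂ) • p f := by rw [neg_one_smul, sub_eq_add_neg]
    rw [e, hpadd, hpsmul, hpid _ (hpM f), neg_one_smul, add_neg_cancel]
  rw [hpsmul, hpcomm, h3, map_zero, smul_zero]

end MP50e386N
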