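import Pool.Agent.Lib.MP_50e386_al.N.KDefs
import Pool.Agent.Lib.MP_50e386_al.N.T4

/-! [N50 K14] decomposition into multidegrees. -/

namespace MP50e386N

open MvPolynomial

private theorem ones_prod (n : ℕ) (t : ℕ → ℂ) :
    ((∑ i ∈ Finset.range n, Finsupp.single i 1 : ℕ →₀ ℕ).prod fun i k => t i ^ k) =
      ∏ i ∈ Finset.range n, t i := by
  rw [← Finsupp.prod_finsetSum_index]
  · refine Finset.prod_congr rfl fun i _ => ?_
    have h0 : (Finsupp.single i 1 : ℕ →₀ ℕ).prod (fun i k => t i ^ k) = t i ^ 1 :=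
      Finsupp.prod_single_index (h := fun i k => t i ^ k) (pow_zero _)
    rw [h0, pow_one]
  · intro a
    exact pow_zero _
  · intro a b c
    exact pow_add _ _ _

theorem UL_iff_MW (n : ℕ) (f : UA) :
    f ∈ UL n ↔ MW (∑ i ∈ Finset.range n, Finsupp.single i 1) f := by
  constructor
  · intro h t
    rw [ones_prod]
    exact h t
  · intro h t
    have := h t
    rw [ones_prod] at this
    exact this

theorem UL_iff_ML (n : ℕ) (f : UA) : f ∈ UL n ↔ ML n f := UL_iff_MW n f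

private theorem MW_sub' {κ : ℕ →₀ ℕ} {f g : UA} (hf : MW κ f) (hg : MW κ g) : MW κ (f - g) := by
  intro t
  rw [map_sub, hf t, hg t, smul_sub]

/-- an element of a stable submodule is the sum of its components, which are in the submodule -/
theorem exists_MW (N : Submodule MP50e386.A UA) (hN : GLS N) (f : UA) (hf : f ∈ N) :
    ∃ (F : Finset (ℕ →₀ ℕ)) (g : (ℕ →₀ ℕ) → UA), (∀ κ, MW κ (g κ) ∧ g κ ∈ N) ∧
      f = ∑ κ ∈ F, g κ := by
  classical
  have hfT : f ∈ LT MP50e386.A Set.univ := by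
    rw [LT_univ]
    exact Algebra.mem_top
  obtain ⟨s, g, h1, h2, -⟩ := exists_MW_decomp hfT
  have hgN : ∀ m ∈ s, g m ∈ N := GLS_MW_comp hN s g (fun m hm => (h2 m hm).1) (h1 ▸ hf)
  refine ⟨s, fun κ => if κ ∈ s then g κ else 0, fun κ => ?_, ?_⟩
  · by_cases hκ : κ ∈ s
    · simp only [if_pos hκ]
      exact ⟨(h2 κ hκ).1, hgN κ hκ⟩
    · simp only [if_neg hκ]
      refine ⟨fun t => ?_, Submodule.zero_mem _⟩
      rw [map_zero, smul_zero]
  · rw [h1]
    exact Finset.sum_congr rfl fun κ hκ => (if_pos hκ).symm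

/-- components of different multidegrees are linearly independent -/
theorem MW_uniq (F : Finset (ℕ →₀ ℕ)) (f g : (ℕ →₀ ℕ) → UA) (hf : ∀ κ ∈ F, MW κ (f κ))
    (hg : ∀ κ ∈ F, MW κ (g κ)) (h : ∑ κ ∈ F, f κ = ∑ κ ∈ F, g κ) : ∀ κ ∈ F, f κ = g κ := by
  intro κ hκ
  have h1 := MW_comp_mem (R := MP50e386.A) ⊥ (fun t _ f hf => by
    rw [Submodule.mem_bot] at hf ⊢
    rw [hf, map_zero]) F (fun κ => f κ - g κ) (fun κ hκ => MW_sub' (hf κ hκ) (hg κ hκ)) (by
    rw [Finset.sum_sub_distrib, h, sub_self]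
    exact Submodule.zero_mem _) κ hκ
  rw [Submodule.mem_bot] at h1
  exact sub_eq_zero.1 h1

/-- multilinear elements of a sum -/
theorem UL_sup (N N' : Submodule MP50e386.A UA) (hN : GLS N) (hN' : GLS N') (n : ℕ) (f : UA)
    (hf : f ∈ UL n) (hfN : f ∈ N ⊔ N') :
    ∃ g g' : UA, g ∈ UL n ∧ g ∈ N ∧ g' ∈ UL n ∧ g' ∈ N' ∧ f = g + g' := by
  classical
  obtain ⟨u, hu, v, hv, rfl⟩ := Submodule.mem_sup.1 hfN
  obtain ⟨s, g, hg, hus⟩ := exists_MW N hN u hu
  obtain ⟨s', g', hg', hvs⟩ := exists_MW N' hN' v hv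
  set κ₀ : ℕ →₀ ℕ := ∑ i ∈ Finset.range n, Finsupp.single i 1 with hκ₀
  set G : (ℕ →₀ ℕ) → UA := fun κ => if κ ∈ s then g κ else 0 with hG
  set G' : (ℕ →₀ ℕ) → UA := fun κ => if κ ∈ s' then g' κ else 0 with hG'
  have hz : ∀ κ, MW κ (0 : UA) := fun κ t => by rw [map_zero, smul_zero]
  have hGm : ∀ κ, MW κ (G κ) ∧ G κ ∈ N := by
    intro κ
    simp only [hG]
    split_ifs
    · exact hg κ
    · exact ⟨hz κ, Submodule.zero_mem _⟩
  have hGm' : ∀ κ, MW κ (G' κ) ∧ G' κ ∈ N' := by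
    intro κ
    simp only [hG']
    split_ifs
    · exact hg' κ
    · exact ⟨hz κ, Submodule.zero_mem _⟩
  set F : Finset (ℕ →₀ ℕ) := insert κ₀ (s ∪ s') with hF
  have e1 : u = ∑ κ ∈ F, G κ := by
    rw [hus]
    simp only [hG]
    rw [Finset.sum_ite_mem]
    congr 1
    rw [Finset.inter_eq_right.2]
    exact fun κ hκ => Finset.mem_insert_of_mem (Finset.mem_union_left _ hκ)
  have e2 : v = ∑ κ ∈ F, G' κ := by
    rw [hvs]
    simp only [hG']
    rw [Finset.sum_ite_mem]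
    congr 1
    rw [Finset.inter_eq_right.2]
    exact fun κ hκ => Finset.mem_insert_of_mem (Finset.mem_union_right _ hκ)
  have hfW := (UL_iff_MW n _).1 hf
  have key := MW_uniq F (fun κ => if κ = κ₀ then u + v else 0) (fun κ => G κ + G' κ) (by
    intro κ _
    by_cases h : κ = κ₀
    · simp only [if_pos h]
      rw [h]
      exact hfW
    · simp only [if_neg h]
      exact hz κ) (fun κ _ => MW_add (hGm κ).1 (hGm' κ).1) (by
    rw [Finset.sum_add_distrib, ← e1, ← e2, Finset.sum_ite_eq' F κ₀, if_pos]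
    exact Finset.mem_insert_self _ _) κ₀ (Finset.mem_insert_self _ _)
  simp only [if_true] at key
  exact ⟨G κ₀, G' κ₀, (UL_iff_MW n _).2 (hGm κ₀).1, (hGm κ₀).2, (UL_iff_MW n _).2 (hGm' κ₀).1,
    (hGm' κ₀).2, key⟩

end MP50e386N
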