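import Pool.Agent.Lib.MP_50e386_al.N.KDefs
import Pool.Agent.Lib.MP_50e386_al.N.K.Mdeg

/-! [N50 K15] (pol): a stable submodule is determined by its multilinear elements. -/

namespace MP50e386N

open MvPolynomial

theorem le_of_UL (N N' : Submodule MP50e386.A UA) (hN : GLS N) (hN' : GLS N')
    (h : ∀ n, ∀ f ∈ UL n, f ∈ N' → f ∈ N) : N' ≤ N :=
  pol_le hN' hN fun n f hf hML => h n f ((UL_iff_ML n f).2 hML) hf

end MP50e386N
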