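import Pool.Agent.Lib.MP_50e386_al.N.KDefs
import Pool.Agent.Lib.MP_50e386_al.N.K.TT

/-! [N50 K02] the exterior evaluation of the standard form has the kernel `J_{r|s} A[z]`. -/

namespace MP50e386N

open MvPolynomial

section k02

variable {E K O T0 : Type} [Ring T0] [Algebra ℂ T0] (S0 : SAlg E O ℂ T0)

/-- exponents of the central variables -/
abbrev k02_M (K : Type) := (ℕ × K) →₀ ℕ

/-- polynomials in central variables over `T0` -/
abbrev k02_T (K T0 : Type) [Ring T0] := AddMonoidAlgebra T0 (k02_M K)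

/-- the letters of `T0` -/
def k02_pr {E K O : Type} : ((E ⊕ K) ⊕ O) × ℕ → Option ((E ⊕ O) × ℕ)
  | (Sum.inl (Sum.inl a), i) => some (Sum.inl a, i)
  | (Sum.inl (Sum.inr _), _) => none
  | (Sum.inr b, i) => some (Sum.inr b, i)

/-- the exponent of the central letters -/
noncomputable def k02_mo {E K O : Type} : ((E ⊕ K) ⊕ O) × ℕ → k02_M K
  | (Sum.inl (Sum.inl _), _) => 0
  | (Sum.inl (Sum.inr k), i) => Finsupp.single (i, k) 1
  | (Sum.inr _, _) => 0

/-- the generators -/
noncomputable def k02_P : (E ⊕ K) ⊕ O → ℕ → k02_T K T0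
  | Sum.inl (Sum.inl a), i => AddMonoidAlgebra.single 0 (S0.P (Sum.inl a) i)
  | Sum.inl (Sum.inr k), i => AddMonoidAlgebra.single (Finsupp.single (i, k) 1) 1
  | Sum.inr b, i => AddMonoidAlgebra.single 0 (S0.P (Sum.inr b) i)

private theorem k02_ss_inl {E' O' : Type} (a : E') (y : E' ⊕ O') :
    ss (par (Sum.inl a : E' ⊕ O')) (par y) = 1 := by simp [ss, par]

private theorem k02_ss_inr {E' O' : Type} (a : E') (y : E' ⊕ O') :
    ss (par y) (par (Sum.inl a : E' ⊕ O')) = 1 := by simp [ss, par]

omit [Algebra ℂ T0] in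
private theorem k02_single_zsmul (m : k02_M K) (n : ℤ) (x : T0) :
    (AddMonoidAlgebra.single m (n • x) : k02_T K T0) = n • AddMonoidAlgebra.single m x :=
  map_zsmul (AddMonoidAlgebra.singleAddHom m : T0 →+ k02_T K T0) n x

private theorem k02_comm (y : (E ⊕ K) ⊕ O) (i : ℕ) (y' : (E ⊕ K) ⊕ O) (i' : ℕ) :
    k02_P S0 y i * k02_P S0 y' i' =
      ss (par y) (par y') • (k02_P S0 y' i' * k02_P S0 y i) := by
  rcases y with (a | k) | b <;> rcases y' with (a' | k') | b'
  · have h := S0.comm (Sum.inl a) i (Sum.inl a') i'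
    rw [k02_ss_inl, one_smul] at h ⊢
    simp only [k02_P, AddMonoidAlgebra.single_mul_single, add_zero]
    rw [h]
  · rw [k02_ss_inl, one_smul]
    simp only [k02_P, AddMonoidAlgebra.single_mul_single, add_zero, zero_add, mul_one, one_mul]
  · have h := S0.comm (Sum.inl a) i (Sum.inr b') i'
    rw [k02_ss_inl, one_smul] at h ⊢
    simp only [k02_P, AddMonoidAlgebra.single_mul_single, add_zero]
    rw [h]
  · rw [k02_ss_inl, one_smul]
    simp only [k02_P, AddMonoidAlgebra.single_mul_single, add_zero, zero_add, mul_one, one_mul]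
  · rw [k02_ss_inl, one_smul]
    simp only [k02_P, AddMonoidAlgebra.single_mul_single, mul_one]
    rw [add_comm]
  · rw [k02_ss_inl, one_smul]
    simp only [k02_P, AddMonoidAlgebra.single_mul_single, add_zero, zero_add, mul_one, one_mul]
  · have h := S0.comm (Sum.inr b) i (Sum.inl a') i'
    rw [k02_ss_inr, one_smul] at h ⊢
    simp only [k02_P, AddMonoidAlgebra.single_mul_single, add_zero]
    rw [h]
  · rw [k02_ss_inr, one_smul]
    simp only [k02_P, AddMonoidAlgebra.single_mul_single, add_zero, zero_add, mul_one, one_mul]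
  · have h := S0.comm (Sum.inr b) i (Sum.inr b') i'
    have e : ss (par (Sum.inr b : E ⊕ O)) (par (Sum.inr b' : E ⊕ O)) =
        ss (par (Sum.inr b : (E ⊕ K) ⊕ O)) (par (Sum.inr b' : (E ⊕ K) ⊕ O)) := rfl
    rw [e] at h
    simp only [k02_P, AddMonoidAlgebra.single_mul_single, add_zero]
    rw [h, k02_single_zsmul]

private theorem k02_sq (b : O) (i : ℕ) :
    k02_P S0 (Sum.inr b : (E ⊕ K) ⊕ O) i * k02_P S0 (Sum.inr b) i = 0 := by
  simp only [k02_P, AddMonoidAlgebra.single_mul_single, S0.sq, AddMonoidAlgebra.single_zero]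

private theorem k02_gen : Algebra.adjoin ℂ {t : k02_T K T0 | ∃ (y : (E ⊕ K) ⊕ O) (i : ℕ),
    t = k02_P S0 y i} = ⊤ := by
  rw [eq_top_iff]
  rintro t -
  have h0 : ∀ x : T0, (AddMonoidAlgebra.single 0 x : k02_T K T0) ∈
      Algebra.adjoin ℂ {t : k02_T K T0 | ∃ (y : (E ⊕ K) ⊕ O) (i : ℕ), t = k02_P S0 y i} := by
    intro x
    have hx : x ∈ Algebra.adjoin ℂ {t | ∃ y i, t = S0.P y i} := by
      rw [S0.gen]
      exact Algebra.mem_top
    induction hx using Algebra.adjoin_induction with
    | mem x hx =>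
      obtain ⟨y, i, rfl⟩ := hx
      rcases y with a | b
      · exact Algebra.subset_adjoin ⟨Sum.inl (Sum.inl a), i, rfl⟩
      · exact Algebra.subset_adjoin ⟨Sum.inr b, i, rfl⟩
    | algebraMap c => exact Subalgebra.algebraMap_mem _ c
    | add x y _ _ hx hy =>
      rw [AddMonoidAlgebra.single_add]
      exact Subalgebra.add_mem _ hx hy
    | mul x y _ _ hx hy =>
      have := Subalgebra.mul_mem _ hx hy
      rw [AddMonoidAlgebra.single_mul_single, add_zero] at this
      exact this
  have h1 : ∀ m : k02_M K, (AddMonoidAlgebra.single m 1 : k02_T K T0) ∈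
      Algebra.adjoin ℂ {t : k02_T K T0 | ∃ (y : (E ⊕ K) ⊕ O) (i : ℕ), t = k02_P S0 y i} := by
    intro m
    induction m using Finsupp.induction_linear with
    | zero => exact h0 1
    | add m m' hm hm' =>
      have := Subalgebra.mul_mem _ hm hm'
      rw [AddMonoidAlgebra.single_mul_single, one_mul] at this
      exact this
    | single p n =>
      induction n with
      | zero =>
        rw [Finsupp.single_zero]
        exact h0 1
      | succ n ih =>
        have h2 : (AddMonoidAlgebra.single (Finsupp.single p 1) 1 : k02_T K T0) ∈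
            Algebra.adjoin ℂ {t : k02_T K T0 | ∃ (y : (E ⊕ K) ⊕ O) (i : ℕ), t = k02_P S0 y i} :=
          Algebra.subset_adjoin ⟨Sum.inl (Sum.inr p.2), p.1, rfl⟩
        have := Subalgebra.mul_mem _ ih h2
        rw [AddMonoidAlgebra.single_mul_single, one_mul, ← Finsupp.single_add] at this
        exact this
  induction t using AddMonoidAlgebra.induction_linear with
  | zero => exact Subalgebra.zero_mem _
  | add x y hx hy => exact Subalgebra.add_mem _ hx hy
  | single m x =>
    have := Subalgebra.mul_mem _ (h1 m) (h0 x)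
    rw [AddMonoidAlgebra.single_mul_single, one_mul, add_zero] at this
    exact this

private theorem k02_pp (l : List (((E ⊕ K) ⊕ O) × ℕ)) :
    (l.map fun p => k02_P S0 p.1 p.2).prod = AddMonoidAlgebra.single (l.map k02_mo).sum
      (((l.filterMap k02_pr).map fun p => S0.P p.1 p.2).prod) := by
  induction l with
  | nil => rfl
  | cons p l ih =>
    rw [List.map_cons, List.prod_cons, ih, List.map_cons, List.sum_cons]
    rcases p with ⟨(a | k) | b, i⟩
    · have e : k02_pr ((Sum.inl (Sum.inl a), i) : ((E ⊕ K) ⊕ O) × ℕ) =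
        some (Sum.inl a, i) := rfl
      rw [List.filterMap_cons_some e, List.map_cons, List.prod_cons]
      simp only [k02_P, k02_mo, AddMonoidAlgebra.single_mul_single]
    · have e : k02_pr ((Sum.inl (Sum.inr k), i) : ((E ⊕ K) ⊕ O) × ℕ) = none := rfl
      rw [List.filterMap_cons_none e]
      simp only [k02_P, k02_mo, AddMonoidAlgebra.single_mul_single, one_mul]
    · have e : k02_pr ((Sum.inr b, i) : ((E ⊕ K) ⊕ O) × ℕ) = some (Sum.inr b, i) := rfl
      rw [List.filterMap_cons_some e, List.map_cons, List.prod_cons]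
      simp only [k02_P, k02_mo, AddMonoidAlgebra.single_mul_single]

/-- the coefficient of a monomial in the central variables -/
def k02_cf (m : k02_M K) : k02_T K T0 →ₗ[ℂ] T0 where
  toFun x := x.coeff m
  map_add' _ _ := rfl
  map_smul' _ _ := rfl

private theorem k02_pr_inj (p p' : ((E ⊕ K) ⊕ O) × ℕ) (b : (E ⊕ O) × ℕ)
    (h : b ∈ k02_pr p) (h' : b ∈ k02_pr p') : p = p' := by
  rcases p with ⟨(a | k) | c, i⟩ <;> rcases p' with ⟨(a' | k') | c', i'⟩ <;>
    simp only [k02_pr, Option.mem_def, Option.some.injEq, reduceCtorEq] at h h' <;>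
    subst h <;> simp_all

open Classical in
private theorem k02_mo_apply (l : List (((E ⊕ K) ⊕ O) × ℕ)) (i : ℕ) (k : K) :
    (l.map k02_mo).sum (i, k) = l.countP (fun p => decide (p = (Sum.inl (Sum.inr k), i))) := by
  induction l with
  | nil => rfl
  | cons p l ih =>
    rw [List.map_cons, List.sum_cons, Finsupp.add_apply, ih, List.countP_cons, add_comm]
    congr 1
    rcases p with ⟨(a | k') | c, i'⟩
    · simp [k02_mo]
    · by_cases h : i' = i ∧ k' = k
      · obtain ⟨rfl, rfl⟩ := h
        simp [k02_mo]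
      · rw [if_neg]
        · simp only [k02_mo]
          rw [Finsupp.single_apply, if_neg]
          intro h'
          exact h ⟨congrArg Prod.fst h', congrArg Prod.snd h'⟩
        · intro h'
          simp only [decide_eq_true_eq, Prod.mk.injEq, Sum.inl.injEq, Sum.inr.injEq] at h'
          exact h ⟨h'.2, h'.1⟩
    · simp [k02_mo]

private theorem k02_perm {l l' : List (((E ⊕ K) ⊕ O) × ℕ)}
    (h1 : (l.map k02_mo).sum = (l'.map k02_mo).sum)
    (h2 : (l.filterMap k02_pr).Perm (l'.filterMap k02_pr)) : l.Perm l' := by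
  classical
  let I : BEq (((E ⊕ K) ⊕ O) × ℕ) := ⟨fun a b => decide (a = b)⟩
  have hL : @LawfulBEq _ I := by
    refine @LawfulBEq.mk _ I (@ReflBEq.mk _ I ?_) ?_
    · intro a
      exact decide_eq_true rfl
    · intro a b h
      exact of_decide_eq_true h
  have hc : ∀ (l : List (((E ⊕ K) ⊕ O) × ℕ)) (q : ((E ⊕ K) ⊕ O) × ℕ) (b : (E ⊕ O) × ℕ),
      k02_pr q = some b → l.countP (fun p => decide (p = q)) =
        (l.filterMap k02_pr).countP (fun p => decide (p = b)) := by
    intro l q b hq
    rw [List.countP_filterMap]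
    refine List.countP_congr fun p _ => ?_
    rw [decide_eq_true_eq]
    constructor
    · rintro rfl
      rw [hq]
      simp
    · intro hp
      rcases hq' : k02_pr p with _ | b'
      · rw [hq'] at hp
        simp at hp
      · rw [hq'] at hp
        simp only [Option.map_some, Option.getD_some, decide_eq_true_eq] at hp
        subst hp
        exact k02_pr_inj p q _ hq' hq
  refine (@List.perm_iff_count _ I hL l l').2 fun q => ?_
  change l.countP (fun p => decide (p = q)) = l'.countP (fun p => decide (p = q))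
  rcases q with ⟨(a | k) | b, i⟩
  · rw [hc l _ (Sum.inl a, i) rfl, hc l' _ (Sum.inl a, i) rfl]
    exact h2.countP_eq _
  · have := DFunLike.congr_fun h1 (i, k)
    rw [k02_mo_apply, k02_mo_apply] at this
    exact this
  · rw [hc l _ (Sum.inr b, i) rfl, hc l' _ (Sum.inr b, i) rfl]
    exact h2.countP_eq _

/-- the supercommutative algebra with more even letters -/
noncomputable def k02_S : SAlg (E ⊕ K) O ℂ (k02_T K T0) where
  P := k02_P S0
  comm := k02_comm S0
  sq := k02_sq S0
  gen := k02_gen S0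
  coef l := (S0.coef (l.filterMap k02_pr)).comp (k02_cf (l.map k02_mo).sum)
  coef_self := by
    intro l hl
    rw [k02_pp, LinearMap.comp_apply]
    have e : k02_cf (l.map k02_mo).sum (AddMonoidAlgebra.single (l.map k02_mo).sum
        (((l.filterMap k02_pr).map fun p => S0.P p.1 p.2).prod) : k02_T K T0) =
        ((l.filterMap k02_pr).map fun p => S0.P p.1 p.2).prod := by
      change (AddMonoidAlgebra.single _ _ : k02_T K T0).coeff _ = _
      rw [AddMonoidAlgebra.coeff_single, Finsupp.single_eq_same]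
    rw [e]
    exact S0.coef_self _ (hl.filterMap fun p p' b h h' => k02_pr_inj p p' b h h')
  coef_ne := by
    intro l l' hl
    rw [k02_pp, LinearMap.comp_apply]
    by_cases hm : (l.map k02_mo).sum = (l'.map k02_mo).sum
    · have e : k02_cf (l.map k02_mo).sum (AddMonoidAlgebra.single (l'.map k02_mo).sum
          (((l'.filterMap k02_pr).map fun p => S0.P p.1 p.2).prod) : k02_T K T0) =
          ((l'.filterMap k02_pr).map fun p => S0.P p.1 p.2).prod := by
        change (AddMonoidAlgebra.single _ _ : k02_T K T0).coeff _ = _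
        rw [AddMonoidAlgebra.coeff_single, hm, Finsupp.single_eq_same]
      rw [e]
      exact S0.coef_ne _ _ fun h => hl (k02_perm hm h)
    · have e : k02_cf (l.map k02_mo).sum (AddMonoidAlgebra.single (l'.map k02_mo).sum
          (((l'.filterMap k02_pr).map fun p => S0.P p.1 p.2).prod) : k02_T K T0) = 0 := by
        change (AddMonoidAlgebra.single _ _ : k02_T K T0).coeff _ = _
        rw [AddMonoidAlgebra.coeff_single, Finsupp.single_eq_of_ne (fun h => hm h)]
      rw [e, map_zero]

end k02

section k02b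

variable {r L s : ℕ} (S0 : SAlg (Fin r) (Fin s ⊕ Fin s) ℂ (EB r s))

private theorem k02_evx
    (h1 : ∀ a i, S0.P (Sum.inl a) i = algebraMap (PG r) (EB r s) (X (i, a)))
    (h2 : ∀ b i, S0.P (Sum.inr b) i = ExteriorAlgebra.ι (PG r) (Finsupp.single (i, b) 1))
    (i j : ℕ) : evx (k02_S S0) (stdW r L s) i j =
      (AddMonoidAlgebra.single 0 (xE r s i j) : k02_T (Fin L) (EB r s)) := by
  have hs : ∀ (ι : Type) (t : Finset ι) (f : ι → EB r s),
      (AddMonoidAlgebra.single 0 (∑ x ∈ t, f x) : k02_T (Fin L) (EB r s)) =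
        ∑ x ∈ t, AddMonoidAlgebra.single 0 (f x) := fun ι t f =>
    map_sum (AddMonoidAlgebra.singleAddHom 0 : EB r s →+ k02_T (Fin L) (EB r s)) f t
  have hg : ∀ a i, (k02_S S0 : SAlg (Fin r ⊕ Fin L) (Fin s ⊕ Fin s) ℂ
      (k02_T (Fin L) (EB r s))).P (Sum.inl (Sum.inl a)) i =
      AddMonoidAlgebra.single 0 (gg i a) := by
    intro a i
    change AddMonoidAlgebra.single 0 (S0.P (Sum.inl a) i) = _
    rw [h1]
    rfl
  have ht : ∀ b i, (k02_S S0 : SAlg (Fin r ⊕ Fin L) (Fin s ⊕ Fin s) ℂ
      (k02_T (Fin L) (EB r s))).P (Sum.inr b) i =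
      AddMonoidAlgebra.single 0 (th i b) := by
    intro b i
    change AddMonoidAlgebra.single 0 (S0.P (Sum.inr b) i) = _
    rw [h2]
    rfl
  unfold evx xE
  rw [AddMonoidAlgebra.single_add]
  congr 1
  · simp only [Fintype.sum_sum_type, stdW, zero_smul, Finset.sum_const_zero, add_zero, ite_smul,
      one_smul, Finset.sum_ite_eq, Finset.mem_univ, if_true, hg,
      AddMonoidAlgebra.single_mul_single]
    rw [hs]
  · simp only [Fintype.sum_sum_type, stdW, zero_smul, Finset.sum_const_zero, add_zero, zero_add,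
      ite_smul, one_smul, neg_smul, Finset.sum_ite_eq, Finset.mem_univ, if_true, ht,
      AddMonoidAlgebra.single_mul_single]
    rw [hs, ← Finset.sum_add_distrib]
    refine Finset.sum_congr rfl fun c _ => ?_
    rw [AddMonoidAlgebra.single_sub, sub_eq_add_neg]

private theorem k02_evC
    (h1 : ∀ a i, S0.P (Sum.inl a) i = algebraMap (PG r) (EB r s) (X (i, a)))
    (h2 : ∀ b i, S0.P (Sum.inr b) i = ExteriorAlgebra.ι (PG r) (Finsupp.single (i, b) 1))
    (a : MP50e386.A) : ((evF (k02_S S0) (stdW r L s) (C a) : Subalgebra.center ℂ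
        (k02_T (Fin L) (EB r s))) : k02_T (Fin L) (EB r s)) =
      AddMonoidAlgebra.single 0 ((evE r s a : Subalgebra.center ℂ (EB r s)) : EB r s) := by
  unfold evF
  rw [eval₂Hom_C]
  have key : (Subalgebra.center ℂ (k02_T (Fin L) (EB r s))).val.comp
      (aeval (Sym2.lift ⟨fun i j => (⟨evx (k02_S S0) (stdW r L s) i j,
        evx_mem_center (k02_S S0) (stdW r L s) i j⟩ :
        Subalgebra.center ℂ (k02_T (Fin L) (EB r s))), fun i j => by
          rw [Subtype.mk.injEq]; exact evx_comm (k02_S S0) (stdW r L s) i j⟩) :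
        MP50e386.A →ₐ[ℂ] Subalgebra.center ℂ (k02_T (Fin L) (EB r s))) =
      (AddMonoidAlgebra.singleZeroAlgHom : EB r s →ₐ[ℂ] k02_T (Fin L) (EB r s)).comp
        ((Subalgebra.center ℂ (EB r s)).val.comp (evE r s)) := by
    refine MvPolynomial.algHom_ext fun q => ?_
    induction q using Sym2.ind with
    | _ i j =>
      rw [AlgHom.comp_apply, AlgHom.comp_apply, AlgHom.comp_apply, aeval_X]
      unfold evE
      rw [aeval_X]
      exact k02_evx S0 h1 h2 i j
  exact AlgHom.congr_fun key a

private theorem k02_evz (k : Fin L) (i : ℕ) :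
    evz (k02_S S0) (stdW r L s) k i =
      (AddMonoidAlgebra.single (Finsupp.single (i, k) 1) 1 : k02_T (Fin L) (EB r s)) := by
  unfold evz
  simp only [Fintype.sum_sum_type, stdW, zero_smul, Finset.sum_const_zero, zero_add, ite_smul,
    one_smul]
  rw [Finset.sum_eq_single k]
  · rw [if_pos rfl]
    rfl
  · intro k' _ hk
    rw [if_neg fun h => hk (Fin.ext h).symm]
  · intro h
    exact absurd (Finset.mem_univ k) h

/-- the exponent of a letter -/
noncomputable def k02_h (L : ℕ) (p : ℕ × ℕ) : k02_M (Fin L) :=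
  if hp : p.1 < L then Finsupp.single (p.2, ⟨p.1, hp⟩) 1 else 0

/-- the exponent of a monomial -/
noncomputable def k02_mu (L : ℕ) (m : ℕ × ℕ →₀ ℕ) : k02_M (Fin L) :=
  m.sum fun p n => n • k02_h L p

private theorem k02_mu_apply (L : ℕ) (m : ℕ × ℕ →₀ ℕ) (i : ℕ) (k : Fin L) :
    k02_mu L m (i, k) = m (k.val, i) := by
  unfold k02_mu
  rw [Finsupp.sum_apply]
  unfold Finsupp.sum
  rw [Finset.sum_eq_single (k.val, i)]
  · change (m (k.val, i) • k02_h L (k.val, i)) (i, k) = _
    unfold k02_h
    rw [dif_pos k.2]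
    simp
  · rintro ⟨a, j⟩ _ hne
    change (m (a, j) • k02_h L (a, j)) (i, k) = 0
    rw [Finsupp.smul_apply]
    unfold k02_h
    split_ifs with ha
    · rw [Finsupp.single_apply, if_neg, smul_zero]
      intro h
      apply hne
      have e1 := congrArg Prod.fst h
      have e2 := congrArg (fun z => (Prod.snd z).val) h
      simp only at e1 e2
      rw [e1, e2]
    · rw [Finsupp.coe_zero, Pi.zero_apply, smul_zero]
  · intro h
    change (m (k.val, i) • k02_h L (k.val, i)) (i, k) = 0
    rw [Finsupp.notMem_support_iff.1 h, zero_smul, Finsupp.coe_zero, Pi.zero_apply]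

private theorem k02_mu_inj (L : ℕ) {m m' : ℕ × ℕ →₀ ℕ} (hm : ∀ p ∈ m.support, p.1 < L)
    (hm' : ∀ p ∈ m'.support, p.1 < L) (h : k02_mu L m = k02_mu L m') : m = m' := by
  ext p
  by_cases hp : p.1 < L
  · have := DFunLike.congr_fun h (p.2, ⟨p.1, hp⟩)
    rw [k02_mu_apply, k02_mu_apply] at this
    exact this
  · rw [Finsupp.notMem_support_iff.1 fun h => hp (hm p h),
      Finsupp.notMem_support_iff.1 fun h => hp (hm' p h)]

/-- monomials in the central variables as elements of the center -/
noncomputable def k02_ka (r L s : ℕ) : Multiplicative (k02_M (Fin L)) →*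
    Subalgebra.center ℂ (k02_T (Fin L) (EB r s)) where
  toFun g := ⟨AddMonoidAlgebra.single g.toAdd 1, by
    rw [Subalgebra.mem_center_iff]
    intro b
    exact ((AddMonoidAlgebra.single_commute (fun m' => AddCommute.all _ m')
      (fun r' => Commute.one_left r') b).eq).symm⟩
  map_one' := rfl
  map_mul' g g' := by
    refine Subtype.ext ?_
    change (AddMonoidAlgebra.single (g.toAdd + g'.toAdd) 1 : k02_T (Fin L) (EB r s)) =
      AddMonoidAlgebra.single g.toAdd 1 * AddMonoidAlgebra.single g'.toAdd 1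
    rw [AddMonoidAlgebra.single_mul_single, one_mul]

private theorem k02_ev
    (h1 : ∀ a i, S0.P (Sum.inl a) i = algebraMap (PG r) (EB r s) (X (i, a)))
    (h2 : ∀ b i, S0.P (Sum.inr b) i = ExteriorAlgebra.ι (PG r) (Finsupp.single (i, b) 1))
    (f : UA) (hf : f ∈ LL L) : ((evF (k02_S S0) (stdW r L s) f : Subalgebra.center ℂ
        (k02_T (Fin L) (EB r s))) : k02_T (Fin L) (EB r s)) =
      ∑ m ∈ f.support, AddMonoidAlgebra.single (k02_mu L m)
        ((evE r s (coeff m f) : Subalgebra.center ℂ (EB r s)) : EB r s) := by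
  have hz : ∀ m ∈ f.support, (∏ p ∈ m.support, (⟨evz (k02_S S0) (stdW r L s) p.1 p.2,
      evz_mem_center (k02_S S0) (stdW r L s) p.1 p.2⟩ :
      Subalgebra.center ℂ (k02_T (Fin L) (EB r s))) ^ m p) =
      k02_ka r L s (Multiplicative.ofAdd (k02_mu L m)) := by
    intro m hm
    unfold k02_mu Finsupp.sum
    rw [ofAdd_sum, map_prod]
    refine Finset.prod_congr rfl fun p hp => ?_
    rw [ofAdd_nsmul, map_pow]
    congr 1
    refine Subtype.ext ?_
    have hpL : p.1 < L := hf m hm p hp
    change evz (k02_S S0) (stdW r L s) p.1 p.2 = AddMonoidAlgebra.single (k02_h L p) 1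
    rw [k02_h, dif_pos hpL]
    exact k02_evz S0 ⟨p.1, hpL⟩ p.2
  have hev : evF (k02_S S0) (stdW r L s) f = ∑ m ∈ f.support,
      evF (k02_S S0) (stdW r L s) (C (coeff m f)) *
        k02_ka r L s (Multiplicative.ofAdd (k02_mu L m)) := by
    have e : evF (k02_S S0) (stdW r L s) f = ∑ m ∈ f.support,
        evF (k02_S S0) (stdW r L s) (C (coeff m f)) *
        ∏ p ∈ m.support, (⟨evz (k02_S S0) (stdW r L s) p.1 p.2,
          evz_mem_center (k02_S S0) (stdW r L s) p.1 p.2⟩ :
          Subalgebra.center ℂ (k02_T (Fin L) (EB r s))) ^ m p := by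
      unfold evF
      simp only [eval₂Hom_C]
      rw [coe_eval₂Hom, eval₂_eq]
    rw [e]
    exact Finset.sum_congr rfl fun m hm => by rw [hz m hm]
  rw [hev, AddSubmonoidClass.coe_finsetSum]
  refine Finset.sum_congr rfl fun m _ => ?_
  rw [MulMemClass.coe_mul, k02_evC S0 h1 h2]
  change AddMonoidAlgebra.single 0 _ * AddMonoidAlgebra.single (k02_mu L m) 1 = _
  rw [AddMonoidAlgebra.single_mul_single, zero_add, mul_one]

end k02b

theorem exists_SAlg_std (r L s : ℕ) : ∃ (T : Type) (_ : Ring T) (_ : Algebra ℂ T)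
    (S : SAlg (Fin r ⊕ Fin L) (Fin s ⊕ Fin s) ℂ T), ∀ f ∈ LL L,
      (evF S (stdW r L s) f = 0 ↔ ∀ m, coeff m f ∈ Jrs r s) := by
  obtain ⟨S0, h1, h2⟩ := exists_SAlg_TT (Fin r) (Fin s ⊕ Fin s) ℂ
  refine ⟨k02_T (Fin L) (EB r s), inferInstance, inferInstance, k02_S S0, fun f hf => ?_⟩
  have hev := k02_ev S0 h1 h2 f hf
  constructor
  · intro h0 m
    rw [h0, ZeroMemClass.coe_zero] at hev
    by_cases hm : m ∈ f.support
    · have h3 := congrArg (fun t : k02_T (Fin L) (EB r s) => t.coeff (k02_mu L m)) hev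
      simp only [AddMonoidAlgebra.coeff_zero, AddMonoidAlgebra.coeff_sum,
        AddMonoidAlgebra.coeff_single, Finsupp.coe_zero, Pi.zero_apply,
        Finsupp.finsetSum_apply] at h3
      rw [Finset.sum_eq_single m] at h3
      · rw [Finsupp.single_eq_same] at h3
        unfold Jrs
        rw [RingHom.mem_ker]
        exact Subtype.ext h3.symm
      · intro m' hm' hne
        rw [Finsupp.single_eq_of_ne]
        intro h
        exact hne (k02_mu_inj L (hf m' hm') (hf m hm) h.symm)
      · intro h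
        exact absurd hm h
    · rw [notMem_support_iff.1 hm]
      exact Ideal.zero_mem _
  · intro h
    refine Subtype.ext ?_
    rw [hev, ZeroMemClass.coe_zero]
    refine Finset.sum_eq_zero fun m _ => ?_
    have h3 := h m
    unfold Jrs at h3
    rw [RingHom.mem_ker] at h3
    have h4 : ((evE r s (coeff m f) : Subalgebra.center ℂ (EB r s)) : EB r s) = 0 :=
      congrArg Subtype.val h3
    rw [h4, AddMonoidAlgebra.single_zero]

end MP50e386N
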