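import Pool.Agent.Lib.MP_50e386_al.N.KDefs
import Pool.Agent.Lib.MP_50e386_al.N.K.TStd
import Pool.Agent.Lib.MP_50e386_al.N.K.EopW
import Pool.Agent.Lib.MP_50e386_al.N.K.Mas
import Pool.Agent.Lib.MP_50e386_al.N.K.Pol

/-! [N50 K22] (d3): the criterion. -/

namespace MP50e386N

open MvPolynomial

private theorem k22_extd_mul {n : ℕ} (σ τ : Equiv.Perm (Fin n)) :
    (extd fun k => (σ k : ℕ)) ∘ (extd fun k => (τ k : ℕ)) = extd fun k => ((σ * τ) k : ℕ) := by
  funext k
  show extd _ (extd _ k) = extd _ k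
  by_cases hk : k < n
  · have h1 : extd (fun k => (τ k : ℕ)) k = ((τ ⟨k, hk⟩ : Fin n) : ℕ) := by
      unfold extd
      rw [dif_pos hk]
    have h2 : extd (fun k => ((σ * τ) k : ℕ)) k = ((σ (τ ⟨k, hk⟩) : Fin n) : ℕ) := by
      unfold extd
      rw [dif_pos hk]
      rfl
    rw [h1, h2]
    unfold extd
    rw [dif_pos (τ ⟨k, hk⟩).2]
  · have h1 : extd (fun k => (τ k : ℕ)) k = k := by
      unfold extd
      rw [dif_neg hk]
    have h2 : extd (fun k => ((σ * τ) k : ℕ)) k = k := by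
      unfold extd
      rw [dif_neg hk]
    rw [h1, h2]
    unfold extd
    rw [dif_neg hk]

private theorem k22_extd_id (n : ℕ) : (extd fun k : Fin n => (k : ℕ)) = id := by
  funext k
  unfold extd
  split_ifs <;> rfl

/-- the permutation action on polynomials -/
private noncomputable def k22_rep (n : ℕ) : Representation ℂ (Equiv.Perm (Fin n)) UA where
  toFun σ :=
    { toFun := fun f => lsub (extd fun k => (σ k : ℕ)) f
      map_add' := fun f g => map_add _ f g
      map_smul' := fun c f => lsub_smul _ c f }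
  map_one' := by
    refine LinearMap.ext fun f => ?_
    show lsub (extd fun k => (((1 : Equiv.Perm (Fin n)) k : Fin n) : ℕ)) f = f
    have h : (extd fun k => (((1 : Equiv.Perm (Fin n)) k : Fin n) : ℕ)) = id := k22_extd_id n
    rw [h, lsub_id]
  map_mul' σ τ := by
    refine LinearMap.ext fun f => ?_
    show lsub (extd fun k => ((σ * τ) k : ℕ)) f =
      lsub (extd fun k => (σ k : ℕ)) (lsub (extd fun k => (τ k : ℕ)) f)
    rw [lsub_lsub, k22_extd_mul]

private theorem k22_rep_apply (n : ℕ) (σ : Equiv.Perm (Fin n)) (f : UA) :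
    k22_rep n σ f = lsub (extd fun k => (σ k : ℕ)) f := rfl

open Classical in
/-- coefficients of `eop` -/
private noncomputable def k22_c {E O : Type} {n : ℕ} (τ : Fin n → E ⊕ O)
    (σ : Equiv.Perm (Fin n)) : ℂ := if τ ∘ σ = τ then (kap σ (par ∘ τ) : ℂ) else 0

private theorem k22_eop {E O : Type} {n : ℕ} (τ : Fin n → E ⊕ O) (f : UA) :
    ∑ σ : Equiv.Perm (Fin n), k22_c τ σ • k22_rep n σ f = eop τ f := by
  unfold eop
  rw [Finset.sum_filter]
  refine Finset.sum_congr rfl fun σ _ => ?_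
  rw [k22_rep_apply]
  unfold k22_c
  by_cases h : τ ∘ σ = τ
  · rw [if_pos h, if_pos h, Int.cast_smul_eq_zsmul]
  · rw [if_neg h, if_neg h, zero_smul]

private theorem k22_eop_UL {E O : Type} {n : ℕ} (τ : Fin n → E ⊕ O) {f : UA} (hf : f ∈ UL n) :
    eop τ f ∈ UL n := by
  unfold eop
  refine Submodule.sum_mem _ fun σ _ => ?_
  exact zsmul_mem (UL_perm hf σ) _

private theorem k22_coeff_mem (J : Ideal MP50e386.A) (L D : ℕ) (f : UA)
    (hf : f ∈ BD MP50e386.A L D) (h : ∀ m, coeff m f ∈ J) : f ∈ J • BD MP50e386.A L D := by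
  rw [f.as_sum]
  refine Submodule.sum_mem _ fun m hm => ?_
  have e : monomial m (coeff m f) = coeff m f • (monomial m (1 : MP50e386.A)) := by
    rw [smul_monomial, smul_eq_mul, mul_one]
  rw [e]
  refine Submodule.smul_mem_smul (h m) ?_
  unfold BD at hf ⊢
  rw [mem_restrictSupport_iff] at hf ⊢
  intro m' hm'
  have h1 : m' = m := by
    have := MvPolynomial.support_monomial_subset hm'
    rwa [Finset.mem_singleton] at this
  rw [h1]
  exact hf hm

/-- (d3) -/
theorem crit (r s L D : ℕ) (N N' : Submodule MP50e386.A UA) (hN : GLS N) (hN' : GLS N')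
    (hJ : Jrs r s • BD MP50e386.A L D ≤ N) (hNN' : N ≤ N') (hN'D : N' ≤ BD MP50e386.A L D)
    (h : ∀ n, ∀ f ∈ UL n, f ∈ N' →
      ∀ τ : Fin n → (Fin r ⊕ Fin L) ⊕ (Fin s ⊕ Fin s), eop τ f ∈ N) : N' ≤ N := by
  refine le_of_UL N N' hN hN' ?_
  intro n f hfU hfN'
  obtain ⟨g, hgM, hg⟩ := maschke_kill (k22_rep n) (N.restrictScalars ℂ ⊓ UL n)
    (N'.restrictScalars ℂ ⊓ UL n)
    (fun σ v hv => ⟨hN.lsub_mem _ hv.1, UL_perm hv.2 σ⟩)
    (fun σ v hv => ⟨hN'.lsub_mem _ hv.1, UL_perm hv.2 σ⟩)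
    (fun v hv => ⟨hNN' hv.1, hv.2⟩) f ⟨hfN', hfU⟩
  have hgN : g ∈ N := hgM.1
  have hgU : g ∈ UL n := hgM.2
  have hfgU : f - g ∈ UL n := Submodule.sub_mem _ hfU hgU
  have hfgN' : f - g ∈ N' := Submodule.sub_mem _ hfN' (hNN' hgN)
  have he : ∀ τ : Fin n → (Fin r ⊕ Fin L) ⊕ (Fin s ⊕ Fin s), eop τ (f - g) = 0 := by
    intro τ
    have h1 := hg (k22_c τ) (by
      intro v hv
      rw [k22_eop]
      exact ⟨h n v hv.2 hv.1 τ, k22_eop_UL τ hv.2⟩)
    rwa [k22_eop] at h1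
  obtain ⟨w, hw⟩ := exists_isW (stdW r L s) hfgU
  have hw0 : ∀ τ, w τ = 0 := fun τ => w_eq_zero_of_eop (stdW r L s) hfgU hw τ (he τ)
  obtain ⟨T, iR, iA, S, hS⟩ := exists_SAlg_std r L s
  have h2 := hw T S (fun k => (k : ℕ))
  rw [k22_extd_id, lsub_id] at h2
  have h3 : ((evF S (stdW r L s) (f - g) : Subalgebra.center ℂ T) : T) = 0 := by
    rw [h2]
    refine Finset.sum_eq_zero fun τ _ => ?_
    rw [hw0 τ, zero_smul]
  have h4 : evF S (stdW r L s) (f - g) = 0 := Subtype.ext h3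
  have hBD := hN'D hfgN'
  have hLL : f - g ∈ LL L := by
    intro m hm p hp
    unfold BD at hBD
    rw [mem_restrictSupport_iff] at hBD
    exact (hBD hm).1 p hp
  have h5 := (hS (f - g) hLL).1 h4
  have h6 : f - g ∈ N := hJ (k22_coeff_mem _ L D _ hBD h5)
  have h7 : f = (f - g) + g := (sub_add_cancel f g).symm
  rw [h7]
  exact Submodule.add_mem _ h6 hgN

end MP50e386N
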