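import Pool.Agent.Lib.MP_50e386_al.N.KDefs
import Pool.Agent.Lib.MP_50e386_al.N.K.Lett
import Pool.Agent.Lib.MP_50e386_al.N.K.Sign

/-! [N50 K07] (t1), (t3), linearity of the super evaluation. -/

namespace MP50e386N

open MvPolynomial

variable {E O T : Type} [Ring T] [Algebra UA T] [Algebra ℂ T] [IsScalarTower ℂ UA T]
  (S : SAlg E O UA T)

theorem ft_add {n : ℕ} (τ : Fin n → E ⊕ O) (f g : UA) :
    ft S τ (f + g) = ft S τ f + ft S τ g := by
  funext m
  change (∑ ι : Fin n → Fin m, algebraMap UA T (lsub (extd fun k => (ι k : ℕ)) (f + g)) *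
    S.pp (lis τ fun k => (ι k : ℕ))) =
    (∑ ι : Fin n → Fin m, algebraMap UA T (lsub (extd fun k => (ι k : ℕ)) f) *
      S.pp (lis τ fun k => (ι k : ℕ))) +
    ∑ ι : Fin n → Fin m, algebraMap UA T (lsub (extd fun k => (ι k : ℕ)) g) *
      S.pp (lis τ fun k => (ι k : ℕ))
  rw [← Finset.sum_add_distrib]
  refine Finset.sum_congr rfl fun ι _ => ?_
  rw [map_add, map_add, add_mul]

private theorem k07_algebraMap_smul (c : ℂ) (f : UA) :
    algebraMap UA T (c • f) = c • algebraMap UA T f := by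
  rw [Algebra.algebraMap_eq_smul_one, Algebra.algebraMap_eq_smul_one, smul_assoc]

theorem ft_smul {n : ℕ} (τ : Fin n → E ⊕ O) (c : ℂ) (f : UA) :
    ft S τ (c • f) = c • ft S τ f := by
  funext m
  change (∑ ι : Fin n → Fin m, algebraMap UA T (lsub (extd fun k => (ι k : ℕ)) (c • f)) *
    S.pp (lis τ fun k => (ι k : ℕ))) =
    c • ∑ ι : Fin n → Fin m, algebraMap UA T (lsub (extd fun k => (ι k : ℕ)) f) *
      S.pp (lis τ fun k => (ι k : ℕ))
  rw [Finset.smul_sum]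
  refine Finset.sum_congr rfl fun ι _ => ?_
  rw [lsub_smul, k07_algebraMap_smul, smul_mul_assoc]

/-- (t1) -/
theorem ft_mem_NT {N : Submodule MP50e386.A UA} (hN : GLS N) {n : ℕ} (τ : Fin n → E ⊕ O) {f : UA}
    (hf : f ∈ N) (m : ℕ) : ft S τ f m ∈ NT (T := T) S N := by
  refine AddSubgroup.sum_mem _ fun ι _ => ?_
  exact AddSubgroup.subset_closure ⟨_, hN.lsub_mem _ hf, _, rfl⟩

/-- (t3) -/
theorem ft_perm {n : ℕ} (τ : Fin n → E ⊕ O) {f : UA} (hf : f ∈ UL n) (σ : Equiv.Perm (Fin n)) :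
    ft S τ (lsub (extd fun k => (σ k : ℕ)) f) = kap σ (par ∘ τ) • ft S (τ ∘ σ) f := by
  funext m
  change (∑ ι : Fin n → Fin m, algebraMap UA T (lsub (extd fun k => (ι k : ℕ))
      (lsub (extd fun k => (σ k : ℕ)) f)) * S.pp (lis τ fun k => (ι k : ℕ))) =
    kap σ (par ∘ τ) • ∑ ι : Fin n → Fin m, algebraMap UA T (lsub (extd fun k => (ι k : ℕ)) f) *
      S.pp (lis (τ ∘ σ) fun k => (ι k : ℕ))
  have h1 : ∑ ι : Fin n → Fin m, algebraMap UA T (lsub (extd fun k => (ι k : ℕ)) f) *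
      S.pp (lis (τ ∘ σ) fun k => (ι k : ℕ)) =
      ∑ ι : Fin n → Fin m, algebraMap UA T (lsub (extd fun k => (ι (σ k) : ℕ)) f) *
      S.pp (lis (τ ∘ σ) fun k => (ι (σ k) : ℕ)) := by
    refine (Fintype.sum_equiv (Equiv.arrowCongr σ.symm (Equiv.refl (Fin m))) _ _ ?_).symm
    intro ι
    rfl
  rw [h1, Finset.smul_sum]
  refine Finset.sum_congr rfl fun ι _ => ?_
  have h2 : lsub (extd fun k => (ι k : ℕ)) (lsub (extd fun k => (σ k : ℕ)) f) =
      lsub (extd fun k => (ι (σ k) : ℕ)) f := by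
    rw [lsub_lsub]
    refine lsub_congr hf fun k hk => ?_
    exact extd_comp (fun k => (ι k : ℕ)) σ k hk
  have h3 : S.pp (lis (τ ∘ σ) fun k => (ι (σ k) : ℕ)) =
      kap σ (par ∘ τ) • S.pp (lis τ fun k => (ι k : ℕ)) :=
    pp_perm S τ (fun k => (ι k : ℕ)) σ
  rw [h2, h3, mul_smul_comm, smul_smul, kap_mul_self, one_smul]

end MP50e386N
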