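import Pool.Agent.Lib.MP_50e386_al.N.KDefs
import Pool.Agent.Lib.MP_50e386_al.N.K.Lett

/-! [N50 K08] (t2): the super evaluation of a concatenation. -/

namespace MP50e386N

open MvPolynomial

variable {E O T : Type} [Ring T] [Algebra UA T] [Algebra ℂ T] (S : SAlg E O UA T)

private theorem k08_extd_lt {n : ℕ} (φ : Fin n → ℕ) (k : ℕ) (h : k < n) :
    extd φ k = φ ⟨k, h⟩ := by
  unfold extd
  rw [dif_pos h]

private theorem k08_left {n' n m : ℕ} (i : Fin n' → Fin m) (j : Fin n → Fin m) (k : ℕ)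
    (hk : k < n') :
    extd (fun k => ((Fin.append i j k : Fin m) : ℕ)) k = extd (fun k => (i k : ℕ)) k := by
  rw [k08_extd_lt _ k hk, k08_extd_lt _ k (Nat.lt_add_right n hk)]
  have : (⟨k, Nat.lt_add_right n hk⟩ : Fin (n' + n)) = Fin.castAdd n ⟨k, hk⟩ := rfl
  rw [this, Fin.append_left]

private theorem k08_right {n' n m : ℕ} (i : Fin n' → Fin m) (j : Fin n → Fin m) (k : ℕ)
    (hk : k < n) :
    ((extd (fun k => ((Fin.append i j k : Fin m) : ℕ))) ∘ (· + n')) k = extd (fun k => (j k : ℕ)) k := by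
  rw [k08_extd_lt _ k hk, Function.comp_apply, k08_extd_lt _ (k + n') (by omega)]
  have : (⟨k + n', by omega⟩ : Fin (n' + n)) = Fin.natAdd n' ⟨k, hk⟩ := by
    apply Fin.ext
    simp [add_comm]
  rw [this, Fin.append_right]

private theorem k08_pp_append (l l' : List ((E ⊕ O) × ℕ)) : S.pp (l ++ l') = S.pp l * S.pp l' := by
  unfold SAlg.pp
  rw [List.map_append, List.prod_append]

private theorem k08_lis {n' n m : ℕ} (ρ : Fin n' → E ⊕ O) (τ : Fin n → E ⊕ O)
    (i : Fin n' → Fin m) (j : Fin n → Fin m) :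
    lis (Fin.append ρ τ) (fun k => ((Fin.append i j k : Fin m) : ℕ)) =
      lis ρ (fun k => (i k : ℕ)) ++ lis τ (fun k => (j k : ℕ)) := by
  unfold lis
  rw [← List.ofFn_fin_append]
  congr 1
  funext k
  refine Fin.addCases (fun k => ?_) (fun k => ?_) k
  · simp only [Fin.append_left]
  · simp only [Fin.append_right]

private theorem k08_apply {n : ℕ} (τ : Fin n → E ⊕ O) (f : UA) (m : ℕ) :
    ft S τ f m = ∑ ι : Fin n → Fin m, algebraMap UA T (lsub (extd fun k => (ι k : ℕ)) f) *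
      S.pp (lis τ fun k => (ι k : ℕ)) := rfl

private theorem k08_mul (x y : TN S) (m : ℕ) : (x * y) m = x m * y m := rfl

/-- (t2) -/
theorem ft_cat {n' n : ℕ} (ρ : Fin n' → E ⊕ O) (τ : Fin n → E ⊕ O) {h f : UA} (hh : h ∈ UL n')
    (hf : f ∈ UL n) :
    ft S (Fin.append ρ τ) (h * lsub (· + n') f) = ft S ρ h * ft S τ f := by
  funext m
  rw [k08_mul, k08_apply, k08_apply, k08_apply]
  rw [Finset.sum_mul_sum, ← Finset.sum_product', Finset.univ_product_univ]
  symm
  refine Fintype.sum_equiv (Fin.appendEquiv n' n) _ _ (fun p => ?_)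
  obtain ⟨i, j⟩ := p
  change _ = algebraMap UA T (lsub (extd fun k => ((Fin.append i j k : Fin m) : ℕ)) (h * lsub (· + n') f)) *
      S.pp (lis (Fin.append ρ τ) fun k => ((Fin.append i j k : Fin m) : ℕ))
  rw [map_mul, lsub_lsub, lsub_congr hh (fun k hk => k08_left i j k hk),
    lsub_congr hf (fun k hk => k08_right i j k hk), k08_lis, k08_pp_append, map_mul]
  dsimp only
  have key : ∀ (a b : UA) (x y : T), algebraMap UA T a * x * (algebraMap UA T b * y) =
      algebraMap UA T a * algebraMap UA T b * (x * y) := by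
    intro a b x y
    rw [mul_assoc, mul_assoc, ← mul_assoc x, ← Algebra.commutes b x, mul_assoc]
  exact key _ _ _ _

theorem ft_one (τ : Fin 0 → E ⊕ O) : ft S τ 1 = 1 := by
  funext m
  change ∑ ι : Fin 0 → Fin m,
    algebraMap UA T (lsub (extd fun k => (ι k : ℕ)) 1) * S.pp (lis τ fun k => (ι k : ℕ)) = 1
  rw [Fintype.sum_unique]
  simp [lis, SAlg.pp]

theorem ft_edge (τ : Fin 2 → E ⊕ O) : ft S τ (C (X s(0, 1))) = XX S (τ 0) (τ 1) := by
  funext m
  change ∑ ι : Fin 2 → Fin m,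
    algebraMap UA T (lsub (extd fun k => (ι k : ℕ)) (C (X s(0, 1)))) *
      S.pp (lis τ fun k => (ι k : ℕ)) =
    ∑ i ∈ Finset.range m, ∑ j ∈ Finset.range m,
      algebraMap UA T (C (X s(i, j))) * (S.P (τ 0) i * S.P (τ 1) j)
  rw [Finset.sum_range]
  simp_rw [Finset.sum_range]
  rw [← Finset.sum_product', Finset.univ_product_univ]
  refine Fintype.sum_equiv (finTwoArrowEquiv (Fin m)) _ _ (fun ι => ?_)
  rw [lsub_C_X]
  simp [lis, SAlg.pp, finTwoArrowEquiv, extd]

theorem ft_leg (a : ℕ) (τ : Fin 1 → E ⊕ O) : ft S τ (X (a, 0)) = ZZ S a (τ 0) := by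
  funext m
  change ∑ ι : Fin 1 → Fin m,
    algebraMap UA T (lsub (extd fun k => (ι k : ℕ)) (X (a, 0))) *
      S.pp (lis τ fun k => (ι k : ℕ)) =
    ∑ i ∈ Finset.range m, algebraMap UA T (X (a, i)) * S.P (τ 0) i
  rw [Finset.sum_range]
  refine Fintype.sum_equiv (Equiv.funUnique (Fin 1) (Fin m)) _ _ (fun ι => ?_)
  rw [lsub_X]
  simp [lis, SAlg.pp, extd]

end MP50e386N
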