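import Pool.Agent.Lib.MP_50e386_al.N.KDefs
import Pool.Agent.Lib.MP_50e386_al.N.K.Span2
import Pool.Agent.Lib.MP_50e386_al.N.K.Ft1
import Pool.Agent.Lib.MP_50e386_al.N.K.Ft2
import Pool.Agent.Lib.MP_50e386_al.N.K.ChiL

/-! [N50 K12] (t6): `f_τ ∈ SS_{≤ D}`. -/

namespace MP50e386N

open MvPolynomial

variable {E O T : Type} [Fintype E] [Fintype O] [Ring T] [Algebra UA T] [Algebra ℂ T]
  [IsScalarTower ℂ UA T] (S : SAlg E O UA T)

private theorem k12_C_smul {E O T : Type} [Ring T] [Algebra UA T] [Algebra ℂ T]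
    (S : SAlg E O UA T) (c : ℂ) (x : TN S) : (C c : KK E O) • x = c • x := by
  rw [Algebra.smul_def, Algebra.smul_def]
  congr 1
  change ((KH S (C c) : Subalgebra.center ℂ (TN S)) : TN S) = algebraMap ℂ (TN S) c
  have : (C c : KK E O) = algebraMap ℂ (KK E O) c := rfl
  rw [this, AlgHom.commutes]
  rfl

private theorem k12_csmul_mem {E O T : Type} [Ring T] [Algebra UA T] [Algebra ℂ T]
    (S : SAlg E O UA T) (M : Submodule (KK E O) (TN S)) (c : ℂ) {x : TN S} (hx : x ∈ M) :
    c • x ∈ M := by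
  rw [← k12_C_smul]
  exact M.smul_mem _ hx

private theorem k12_X_smul_one {E O T : Type} [Ring T] [Algebra UA T] [Algebra ℂ T]
    (S : SAlg E O UA T) (p : (E × E) ⊕ (O × O)) :
    (X p : KK E O) • (1 : TN S) =
      Sum.elim (fun p : E × E => XX S (Sum.inl p.1) (Sum.inl p.2))
        (fun p : O × O => XX S (Sum.inr p.1) (Sum.inr p.2)) p := by
  rw [Algebra.smul_def, mul_one]
  change ((KH S (X p) : Subalgebra.center ℂ (TN S)) : TN S) = _
  unfold KH
  rw [aeval_X]
  rcases p with p | p <;> rfl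

private theorem k12_XX_swap {E O T : Type} [Ring T] [Algebra UA T] [Algebra ℂ T]
    (S : SAlg E O UA T) (a : E) (b : O) :
    XX S (Sum.inr b) (Sum.inl a) = XX S (Sum.inl a) (Sum.inr b) := by
  funext m
  change (∑ i ∈ Finset.range m, ∑ j ∈ Finset.range m,
    algebraMap UA T (C (X s(i, j))) * (S.P (Sum.inr b) i * S.P (Sum.inl a) j)) =
    ∑ i ∈ Finset.range m, ∑ j ∈ Finset.range m,
    algebraMap UA T (C (X s(i, j))) * (S.P (Sum.inl a) i * S.P (Sum.inr b) j)
  rw [Finset.sum_comm]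
  refine Finset.sum_congr rfl fun i _ => Finset.sum_congr rfl fun j _ => ?_
  rw [S.even_central a i, Sym2.eq_swap]

private theorem k12_XX_mem (y y' : E ⊕ O) : XX S y y' ∈ Chi S 0 := by
  rcases y with a | b <;> rcases y' with a' | b'
  · have := k12_X_smul_one S (Sum.inl (a, a'))
    rw [Sum.elim_inl] at this
    rw [← this]
    exact (Chi S 0).smul_mem _ (one_mem_Chi S)
  · refine Submodule.subset_span ⟨[(a, b')], Nat.zero_le _, ?_⟩
    simp
  · rw [k12_XX_swap]
    refine Submodule.subset_span ⟨[(a', b)], Nat.zero_le _, ?_⟩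
    simp
  · have := k12_X_smul_one S (Sum.inr (b, b'))
    rw [Sum.elim_inr] at this
    rw [← this]
    exact (Chi S 0).smul_mem _ (one_mem_Chi S)

omit [Fintype E] [Fintype O] [IsScalarTower ℂ UA T] in
private theorem k12_ZD_mono (L : ℕ) {D D' : ℕ} (h : D ≤ D') : ZD S L D ≤ ZD S L D' := by
  refine Submodule.span_mono ?_
  rintro x ⟨l, h1, h2, h3⟩
  exact ⟨l, h1, h2.trans h, h3⟩

omit [Fintype E] [Fintype O] [IsScalarTower ℂ UA T] in
private theorem k12_ZZ_mul {L D a : ℕ} (ha : a < L) (y : E ⊕ O) {x : TN S} (hx : x ∈ ZD S L D) :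
    ZZ S a y * x ∈ ZD S L (1 + D) := by
  unfold ZD at hx
  induction hx using Submodule.span_induction with
  | mem x hx =>
    obtain ⟨l, h1, h2, rfl⟩ := hx
    refine Submodule.subset_span ⟨(a, y) :: l, ?_, ?_, ?_⟩
    · intro p hp
      rcases List.mem_cons.1 hp with rfl | hp
      · exact ha
      · exact h1 p hp
    · rw [List.length_cons]; omega
    · rw [List.map_cons, List.prod_cons]
  | zero => rw [mul_zero]; exact Submodule.zero_mem _
  | add x x' _ _ h h' => rw [mul_add]; exact Submodule.add_mem _ h h'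
  | smul k x _ h => rw [mul_smul_comm]; exact Submodule.smul_mem _ _ h

private theorem k12_mon_nil : mon 0 [] = 1 := by rw [mon]

private theorem k12_mon_cons (a : ℕ) (as : List ℕ) :
    mon 0 (a :: as) = X (a, 0) * lsub (· + 1) (mon 0 as) := by rw [mon]

private theorem k12_mon_succ (e : ℕ) (as : List ℕ) :
    mon (e + 1) as = C (X s(0, 1)) * lsub (· + 2) (mon e as) := by rw [mon]

private theorem k12_split {Y : Type} {n' n : ℕ} (τ : Fin (n' + n) → Y) :
    ∃ (ρ : Fin n' → Y) (τ' : Fin n → Y), τ = Fin.append ρ τ' :=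
  ⟨fun i => τ (Fin.castAdd n i), fun i => τ (Fin.natAdd n' i), (Fin.append_castAdd_natAdd).symm⟩

private theorem k12_legs (L : ℕ) (as : List ℕ) (hL : ∀ a ∈ as, a < L) :
    ∀ (n : ℕ) (τ : Fin n → E ⊕ O), n = as.length → ft S τ (mon 0 as) ∈ ZD S L as.length := by
  induction as with
  | nil =>
    intro n τ hn
    rw [List.length_nil] at hn
    subst hn
    rw [k12_mon_nil, ft_one]
    exact one_mem_ZD S L _
  | cons a as ih =>
    intro n τ hn
    rw [List.length_cons, Nat.add_comm] at hn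
    subst hn
    rw [List.length_cons, Nat.add_comm]
    obtain ⟨ρ, τ', rfl⟩ := k12_split τ
    have hm : mon 0 as ∈ UL as.length := by
      have := mon_mem_UL 0 as
      rwa [Nat.mul_zero, Nat.zero_add] at this
    rw [k12_mon_cons, ft_cat S ρ τ' (leg_mem_UL a) hm, ft_leg]
    exact k12_ZZ_mul S (hL a (List.mem_cons_self ..)) _
      (ih (fun b hb => hL b (List.mem_cons_of_mem _ hb)) _ _ rfl)

private theorem k12_mon (L D e : ℕ) (as : List ℕ) (hL : ∀ a ∈ as, a < L) (hD : as.length ≤ D) :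
    ∀ (n : ℕ) (τ : Fin n → E ⊕ O), n = 2 * e + as.length → ft S τ (mon e as) ∈ SSD S L D := by
  induction e with
  | zero =>
    intro n τ hn
    have h1 := k12_ZD_mono S L hD (k12_legs S L as hL n τ (by omega))
    have h2 := Submodule.mul_mem_mul (one_mem_Chi S) h1
    rwa [one_mul] at h2
  | succ e ih =>
    intro n τ hn
    have hn' : n = 2 + (2 * e + as.length) := by omega
    subst hn'
    obtain ⟨ρ, τ', rfl⟩ := k12_split τ
    rw [k12_mon_succ, ft_cat S ρ τ' edge_mem_UL (mon_mem_UL e as), ft_edge]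
    exact Chi_mul_SSD S L D (Submodule.mul_mem_mul (k12_XX_mem S _ _) (ih _ _ rfl))

/-- (t6) -/
theorem ft_mem_SSD {n L D : ℕ} (τ : Fin n → E ⊕ O) {f : UA} (hf : f ∈ UL n)
    (hfD : f ∈ BD MP50e386.A L D) : ft S τ f ∈ SSD S L D := by
  have h := span_UL n L D f hf hfD
  clear hf hfD
  induction h using Submodule.span_induction with
  | mem g hg =>
    obtain ⟨e, as, σ, hn, hD, hL, rfl⟩ := hg
    have hm : mon e as ∈ UL n := by
      have := mon_mem_UL e as
      rwa [hn] at this
    rw [ft_perm S τ hm]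
    exact (SSD S L D).toAddSubgroup.zsmul_mem (k12_mon S L D e as hL hD n _ hn.symm) _
  | zero =>
    have : ft S τ (0 : UA) = 0 := by
      have := ft_smul S τ 0 (0 : UA)
      rwa [zero_smul, zero_smul] at this
    rw [this]
    exact Submodule.zero_mem _
  | add x y _ _ hx hy => rw [ft_add]; exact Submodule.add_mem _ hx hy
  | smul c x _ hx => rw [ft_smul]; exact k12_csmul_mem S _ c hx

theorem ft_C_mem_Chi {n : ℕ} (τ : Fin n → E ⊕ O) {f : MP50e386.A} (hf : (C f : UA) ∈ UL n) :
    ft S τ (C f) ∈ Chi S 0 := by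
  rw [← SSD_zero S 0]
  refine ft_mem_SSD S τ hf ?_
  unfold BD
  rw [mem_restrictSupport_iff]
  intro m hm
  have hm' : m ∈ (C f : UA).support := hm
  rw [mem_support_iff, coeff_C] at hm'
  have h0 : m = 0 := by
    by_contra h
    exact hm' (if_neg (Ne.symm h))
  subst h0
  refine ⟨fun p hp => ?_, ?_⟩
  · simp at hp
  · simp

end MP50e386N
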