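import Mathlib

/-! [N50 K26] linear algebra: factorisation of symmetric and antisymmetric complex matrices. -/

namespace MP50e386N

open Module

section k26

variable {V : Type*} [AddCommGroup V] [Module ℂ V] [FiniteDimensional ℂ V]

private theorem k26_fr (K K' : Submodule ℂ V) (hK : K ≤ K') (u : V) (hu : u ∈ K') (hu' : u ∉ K) :
    finrank ℂ K + 1 ≤ finrank ℂ K' :=
  Submodule.finrank_lt_finrank_of_lt (lt_of_le_of_ne hK fun h => hu' (h ▸ hu))

private theorem k26_sym (l : ℕ) : ∀ F : V →ₗ[ℂ] V →ₗ[ℂ] ℂ, (∀ x y, F x y = F y x) →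
    finrank ℂ V ≤ finrank ℂ (LinearMap.ker F) + l →
    ∃ α : Fin l → V →ₗ[ℂ] ℂ, ∀ x y, F x y = ∑ i, α i x * α i y := by
  induction l with
  | zero =>
    intro F hF hl
    by_cases h0 : F = 0
    · exact ⟨fun _ => 0, fun x y => by simp [h0]⟩
    · exfalso
      have h1 : LinearMap.ker F = ⊤ := by
        apply Submodule.eq_top_of_finrank_eq
        have := Submodule.finrank_le (LinearMap.ker F)
        omega
      exact h0 (LinearMap.ker_eq_top.1 h1)
  | succ l ih =>
    intro F hF hl
    by_cases h0 : F = 0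
    · exact ⟨fun _ => 0, fun x y => by simp [h0]⟩
    · have h1 : ∃ x, F x x ≠ 0 := by
        by_contra hcon
        push Not at hcon
        apply h0
        ext x y
        have h2 := hcon (x + y)
        simp only [map_add, LinearMap.add_apply, hcon x, hcon y, hF y x] at h2
        have h3 : 2 * F x y = 0 := by linear_combination h2
        simpa using h3
      obtain ⟨x, hx⟩ := h1
      obtain ⟨z, hz⟩ := IsAlgClosed.exists_eq_mul_self (F x x)
      have hz0 : z ≠ 0 := by
        rintro rfl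
        rw [mul_zero] at hz
        exact hx hz
      set u : V := z⁻¹ • x with hu
      have huu : F u u = 1 := by
        simp only [hu, map_smul, LinearMap.smul_apply, smul_eq_mul, hz]
        field_simp
      set F' : V →ₗ[ℂ] V →ₗ[ℂ] ℂ := F - (F u).smulRight (F u) with hF'
      have hF'a : ∀ x y, F' x y = F x y - F u x * F u y := by
        intro x y
        rw [hF', LinearMap.sub_apply, LinearMap.smulRight_apply, LinearMap.sub_apply,
          LinearMap.smul_apply, smul_eq_mul]
      have hk : LinearMap.ker F ≤ LinearMap.ker F' := by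
        intro x hx
        rw [LinearMap.mem_ker] at hx ⊢
        ext y
        rw [hF'a, hF u x, hx]
        simp
      have hk2 : u ∈ LinearMap.ker F' := by
        rw [LinearMap.mem_ker]
        ext y
        rw [hF'a, huu]
        simp
      have hk3 : u ∉ LinearMap.ker F := by
        intro h
        rw [LinearMap.mem_ker] at h
        rw [h] at huu
        simp at huu
      have hfr := k26_fr _ _ hk u hk2 hk3
      obtain ⟨α, hα⟩ := ih F' (fun x y => by rw [hF'a, hF'a, hF x y, mul_comm]) (by omega)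
      refine ⟨Fin.cons (F u) α, fun x y => ?_⟩
      rw [Fin.sum_univ_succ]
      simp only [Fin.cons_zero, Fin.cons_succ]
      rw [← hα, hF'a]
      ring

private theorem k26_alt (l : ℕ) : ∀ F : V →ₗ[ℂ] V →ₗ[ℂ] ℂ, (∀ x y, F x y = - F y x) →
    finrank ℂ V < finrank ℂ (LinearMap.ker F) + 2 * (l + 1) →
    ∃ α β : Fin l → V →ₗ[ℂ] ℂ, ∀ x y, F x y = ∑ i, (α i x * β i y - β i x * α i y) := by
  have key : ∀ F : V →ₗ[ℂ] V →ₗ[ℂ] ℂ, (∀ x y, F x y = - F y x) → F ≠ 0 →
      ∃ u v : V, ∃ F' : V →ₗ[ℂ] V →ₗ[ℂ] ℂ, (∀ x y, F' x y = - F' y x) ∧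
        (∀ x y, F x y = F' x y + (F u y * -(F v x) - -(F v y) * F u x)) ∧
        finrank ℂ (LinearMap.ker F) + 2 ≤ finrank ℂ (LinearMap.ker F') := by
    intro F hF h0
    have h1 : ∃ x y, F x y ≠ 0 := by
      by_contra hcon
      push Not at hcon
      apply h0
      ext x y
      rw [hcon x y]
      rfl
    obtain ⟨u, v0, huv0⟩ := h1
    set v : V := (F u v0)⁻¹ • v0 with hv
    have huv : F u v = 1 := by
      rw [hv, map_smul, smul_eq_mul, inv_mul_cancel₀ huv0]
    have hxx : ∀ x, F x x = 0 := by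
      intro x
      have h2 := hF x x
      have h3 : 2 * F x x = 0 := by linear_combination h2
      simpa using h3
    have hvu : F v u = -1 := by rw [hF v u, huv]
    set F' : V →ₗ[ℂ] V →ₗ[ℂ] ℂ := F + (F v).smulRight (F u) - (F u).smulRight (F v) with hF'
    have hF'a : ∀ x y, F' x y = F x y + F v x * F u y - F u x * F v y := by
      intro x y
      rw [hF', LinearMap.sub_apply, LinearMap.add_apply, LinearMap.smulRight_apply,
        LinearMap.smulRight_apply, LinearMap.sub_apply, LinearMap.add_apply,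
        LinearMap.smul_apply, LinearMap.smul_apply, smul_eq_mul, smul_eq_mul]
    refine ⟨u, v, F', ?_, ?_, ?_⟩
    · intro x y
      rw [hF'a, hF'a, hF x y]
      ring
    · intro x y
      rw [hF'a]
      ring
    · have hk : LinearMap.ker F ≤ LinearMap.ker F' := by
        intro x hx
        rw [LinearMap.mem_ker] at hx ⊢
        ext y
        rw [hF'a, hF v x, hF u x, hx]
        simp
      have hku : u ∈ LinearMap.ker F' := by
        rw [LinearMap.mem_ker]
        ext y
        rw [hF'a, hxx, hvu]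
        simp
      have hkv : v ∈ LinearMap.ker F' := by
        rw [LinearMap.mem_ker]
        ext y
        rw [hF'a, hxx, huv]
        simp
      have h3 : u ∉ LinearMap.ker F := by
        intro h
        rw [LinearMap.mem_ker] at h
        rw [h] at huv
        simp at huv
      have h4 := k26_fr (LinearMap.ker F) (LinearMap.ker F ⊔ Submodule.span ℂ {u}) le_sup_left u
        (Submodule.mem_sup_right (Submodule.mem_span_singleton_self u)) h3
      have h5 : v ∉ LinearMap.ker F ⊔ Submodule.span ℂ {u} := by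
        intro h
        obtain ⟨r, hr, w, hw, hrw⟩ := Submodule.mem_sup.1 h
        obtain ⟨a, rfl⟩ := Submodule.mem_span_singleton.1 hw
        rw [LinearMap.mem_ker] at hr
        have h6 := huv
        rw [← hrw, map_add, map_smul, hxx, hF u r, hr] at h6
        simp at h6
      have h7 := k26_fr (LinearMap.ker F ⊔ Submodule.span ℂ {u}) (LinearMap.ker F')
        (sup_le hk (by
          rw [Submodule.span_singleton_le_iff_mem]
          exact hku)) v hkv h5
      omega
  induction l with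
  | zero =>
    intro F hF hl
    by_cases h0 : F = 0
    · exact ⟨fun _ => 0, fun _ => 0, fun x y => by simp [h0]⟩
    · exfalso
      obtain ⟨u, v, F', _, _, h3⟩ := key F hF h0
      have := Submodule.finrank_le (LinearMap.ker F')
      omega
  | succ l ih =>
    intro F hF hl
    by_cases h0 : F = 0
    · exact ⟨fun _ => 0, fun _ => 0, fun x y => by simp [h0]⟩
    · obtain ⟨u, v, F', h1, h2, h3⟩ := key F hF h0
      obtain ⟨α, β, hαβ⟩ := ih F' h1 (by omega)
      refine ⟨Fin.cons (-(F v)) α, Fin.cons (F u) β, fun x y => ?_⟩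
      rw [Fin.sum_univ_succ]
      simp only [Fin.cons_zero, Fin.cons_succ]
      rw [← hαβ, h2 x y]
      simp only [LinearMap.neg_apply]
      ring

end k26

section k26m

variable {E : Type} [Fintype E] [DecidableEq E]

private theorem k26_entry (B : E → E → ℂ) (a a' : E) :
    Matrix.toBilin' (Matrix.of B) (Pi.single a 1) (Pi.single a' 1) = B a a' := by
  rw [Matrix.toBilin'_single]
  rfl

private theorem k26_ker (B : E → E → ℂ) (hdet : (Matrix.of B).det = 0) :
    1 ≤ finrank ℂ (LinearMap.ker (Matrix.toBilin' (Matrix.of B))) := by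
  rw [Submodule.one_le_finrank_iff]
  obtain ⟨v, hv, hv2⟩ := Matrix.exists_vecMul_eq_zero_iff.2 hdet
  intro h
  have h1 : v ∈ LinearMap.ker (Matrix.toBilin' (Matrix.of B)) := by
    rw [LinearMap.mem_ker]
    apply LinearMap.ext
    intro w
    rw [Matrix.toBilin'_apply', Matrix.dotProduct_mulVec, hv2, zero_dotProduct]
    rfl
  rw [h, Submodule.mem_bot] at h1
  exact hv h1

private theorem k26_symF (B : E → E → ℂ) (hB : ∀ a a', B a a' = B a' a) (x y : E → ℂ) :
    Matrix.toBilin' (Matrix.of B) x y = Matrix.toBilin' (Matrix.of B) y x := by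
  rw [Matrix.toBilin'_apply, Matrix.toBilin'_apply, Finset.sum_comm]
  refine Finset.sum_congr rfl fun i _ => Finset.sum_congr rfl fun j _ => ?_
  simp only [Matrix.of_apply]
  rw [hB j i]
  ring

private theorem k26_altF (B : E → E → ℂ) (hB : ∀ a a', B a a' = - B a' a) (x y : E → ℂ) :
    Matrix.toBilin' (Matrix.of B) x y = - Matrix.toBilin' (Matrix.of B) y x := by
  rw [Matrix.toBilin'_apply, Matrix.toBilin'_apply, Finset.sum_comm, ← Finset.sum_neg_distrib]
  refine Finset.sum_congr rfl fun i _ => ?_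
  rw [← Finset.sum_neg_distrib]
  refine Finset.sum_congr rfl fun j _ => ?_
  simp only [Matrix.of_apply]
  rw [hB j i]
  ring

private theorem k26_fac (B : E → E → ℂ) (hB : ∀ a a', B a a' = B a' a) (l : ℕ)
    (h : Fintype.card E ≤ finrank ℂ (LinearMap.ker (Matrix.toBilin' (Matrix.of B))) + l) :
    ∃ M : Fin l → E → ℂ, ∀ a a', B a a' = ∑ u, M u a * M u a' := by
  obtain ⟨α, hα⟩ := k26_sym l (Matrix.toBilin' (Matrix.of B)) (k26_symF B hB) (by
    rw [finrank_fintype_fun_eq_card]; exact h)
  refine ⟨fun i a => α i (Pi.single a 1), fun a a' => ?_⟩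
  rw [← k26_entry B a a', hα]

private theorem k26_facA (B : E → E → ℂ) (hB : ∀ a a', B a a' = - B a' a) (l : ℕ)
    (h : Fintype.card E <
      finrank ℂ (LinearMap.ker (Matrix.toBilin' (Matrix.of B))) + 2 * (l + 1)) :
    ∃ P Q : Fin l → E → ℂ, ∀ a a', B a a' = ∑ u, (P u a * Q u a' - Q u a * P u a') := by
  obtain ⟨α, β, hα⟩ := k26_alt l (Matrix.toBilin' (Matrix.of B)) (k26_altF B hB) (by
    rw [finrank_fintype_fun_eq_card]; exact h)
  refine ⟨fun i a => α i (Pi.single a 1), fun i a => β i (Pi.single a 1), fun a a' => ?_⟩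
  rw [← k26_entry B a a', hα]

end k26m

theorem symm_factor_full {E : Type} [Fintype E] [DecidableEq E] (r : ℕ)
    (hE : Fintype.card E = r) (B : E → E → ℂ) (hB : ∀ a a', B a a' = B a' a) :
    ∃ M : Fin r → E → ℂ, ∀ a a', B a a' = ∑ u, M u a * M u a' :=
  k26_fac B hB r (by omega)

/-- a symmetric invertible matrix is congruent to the identity -/
theorem symm_congr_one {E : Type} [Fintype E] [DecidableEq E] (B : E → E → ℂ)
    (hB : ∀ a a', B a a' = B a' a) (hdet : (Matrix.of B).det ≠ 0) :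
    ∃ M : E → E → ℂ, ∀ a a', ∑ u, ∑ u', M u a * M u' a' * B u u' = if a = a' then 1 else 0 := by
  obtain ⟨M, hM⟩ := symm_factor_full (Fintype.card E) rfl B hB
  set e := Fintype.equivFin E with he
  set M' : Matrix E E ℂ := Matrix.of fun u a => M (e u) a with hM'
  have h1 : Matrix.of B = M'.transpose * M' := by
    ext a a'
    rw [Matrix.mul_apply, Matrix.of_apply, hM a a', ← e.sum_comp]
    rfl
  have h2 : M'.det ≠ 0 := by
    intro h
    apply hdet
    rw [h1, Matrix.det_mul, h, mul_zero]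
  have h3 : M' * M'⁻¹ = 1 := Matrix.mul_nonsing_inv _ (isUnit_iff_ne_zero.2 h2)
  refine ⟨fun u a => M'⁻¹ u a, fun a a' => ?_⟩
  have h4 : (M'⁻¹.transpose * Matrix.of B * M'⁻¹) = 1 := by
    rw [h1, Matrix.mul_assoc, Matrix.mul_assoc, h3, Matrix.mul_one, ← Matrix.transpose_mul, h3,
      Matrix.transpose_one]
  have h5 := congrFun (congrFun h4 a) a'
  rw [Matrix.one_apply] at h5
  rw [← h5, Matrix.mul_apply]
  simp only [Matrix.mul_apply, Matrix.transpose_apply, Matrix.of_apply, Finset.sum_mul]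
  rw [Finset.sum_comm]
  refine Finset.sum_congr rfl fun i _ => Finset.sum_congr rfl fun j _ => ?_
  ring

/-- a symmetric matrix of rank `≤ r` is pulled back from the identity of size `r` -/
theorem symm_factor_low {E : Type} [Fintype E] [DecidableEq E] (r : ℕ) (hE : Fintype.card E = r + 1)
    (B : E → E → ℂ) (hB : ∀ a a', B a a' = B a' a) (hdet : (Matrix.of B).det = 0) :
    ∃ M : Fin r → E → ℂ, ∀ a a', B a a' = ∑ u, M u a * M u a' :=
  k26_fac B hB r (by
    have := k26_ker B hdet
    omega)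

/-- the standard antisymmetric form -/
def Jst (s : ℕ) (b b' : Fin s ⊕ Fin s) : ℂ := match b, b' with
  | Sum.inl i, Sum.inr j => if i = j then 1 else 0
  | Sum.inr i, Sum.inl j => if i = j then -1 else 0
  | _, _ => 0

private theorem k26_J {E : Type} (s : ℕ) (P Q : Fin s → E → ℂ) (b b' : E) :
    ∑ u, ∑ u', (Sum.elim P Q : Fin s ⊕ Fin s → E → ℂ) u b *
      (Sum.elim P Q : Fin s ⊕ Fin s → E → ℂ) u' b' * Jst s u u' =
      ∑ u, (P u b * Q u b' - Q u b * P u b') := by
  rw [Fintype.sum_sum_type]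
  simp only [Fintype.sum_sum_type, Sum.elim_inl, Sum.elim_inr, Jst, mul_ite, mul_one, mul_zero,
    mul_neg, Finset.sum_ite_eq, Finset.mem_univ, if_true, Finset.sum_const_zero, zero_add,
    add_zero]
  rw [← Finset.sum_add_distrib]
  refine Finset.sum_congr rfl fun i _ => ?_
  ring

theorem anti_factor_std (s : ℕ) (Z : Fin s ⊕ Fin s → Fin s ⊕ Fin s → ℂ)
    (hZ : ∀ b b', Z b b' = - Z b' b) :
    ∃ M : Fin s ⊕ Fin s → Fin s ⊕ Fin s → ℂ,
      ∀ b b', Z b b' = ∑ u, ∑ u', M u b * M u' b' * Jst s u u' := by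
  obtain ⟨P, Q, h⟩ := k26_facA Z hZ s (by
    rw [Fintype.card_sum, Fintype.card_fin]
    omega)
  refine ⟨Sum.elim P Q, fun b b' => ?_⟩
  rw [k26_J, h]

theorem anti_congr_std (s : ℕ) (Z : Fin s ⊕ Fin s → Fin s ⊕ Fin s → ℂ)
    (hZ : ∀ b b', Z b b' = - Z b' b) (hdet : (Matrix.of Z).det ≠ 0) :
    ∃ M : Fin s ⊕ Fin s → Fin s ⊕ Fin s → ℂ,
      ∀ b b', ∑ u, ∑ u', M u b * M u' b' * Z u u' = Jst s b b' := by
  obtain ⟨M, hM⟩ := anti_factor_std s Z hZ
  set M' : Matrix (Fin s ⊕ Fin s) (Fin s ⊕ Fin s) ℂ := Matrix.of M with hM'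
  set Jm : Matrix (Fin s ⊕ Fin s) (Fin s ⊕ Fin s) ℂ := Matrix.of (Jst s) with hJm
  have h1 : Matrix.of Z = M'.transpose * Jm * M' := by
    ext a a'
    rw [Matrix.mul_apply, Matrix.of_apply, hM a a']
    simp only [Matrix.mul_apply, Finset.sum_mul]
    rw [Finset.sum_comm]
    refine Finset.sum_congr rfl fun i _ => Finset.sum_congr rfl fun j _ => ?_
    simp only [hM', hJm, Matrix.transpose_apply, Matrix.of_apply]
    ring
  have h2 : M'.det ≠ 0 := by
    intro h
    apply hdet
    rw [h1, Matrix.det_mul, h, mul_zero]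
  have h3 : M' * M'⁻¹ = 1 := Matrix.mul_nonsing_inv _ (isUnit_iff_ne_zero.2 h2)
  refine ⟨fun u a => M'⁻¹ u a, fun a a' => ?_⟩
  have h4 : (M'⁻¹.transpose * Matrix.of Z * M'⁻¹) = Jm := by
    rw [h1]
    calc M'⁻¹.transpose * (M'.transpose * Jm * M') * M'⁻¹
        = (M' * M'⁻¹).transpose * Jm * (M' * M'⁻¹) := by
          rw [Matrix.transpose_mul]
          simp only [Matrix.mul_assoc]
      _ = Jm := by rw [h3, Matrix.transpose_one, Matrix.one_mul, Matrix.mul_one]
  have h5 := congrFun (congrFun h4 a) a'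
  have h6 : Jm a a' = Jst s a a' := rfl
  rw [h6] at h5
  rw [← h5, Matrix.mul_apply]
  simp only [Matrix.mul_apply, Matrix.transpose_apply, Matrix.of_apply, Finset.sum_mul]
  rw [Finset.sum_comm]
  refine Finset.sum_congr rfl fun i _ => Finset.sum_congr rfl fun j _ => ?_
  ring

theorem anti_factor (s : ℕ) (Z : Fin (s + 1) ⊕ Fin (s + 1) → Fin (s + 1) ⊕ Fin (s + 1) → ℂ)
    (hZ : ∀ b b', Z b b' = - Z b' b) (hdet : (Matrix.of Z).det = 0) :
    ∃ M : Fin s ⊕ Fin s → Fin (s + 1) ⊕ Fin (s + 1) → ℂ,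
      ∀ b b', Z b b' = ∑ u, ∑ u', M u b * M u' b' * Jst s u u' := by
  have h0 := k26_ker Z hdet
  obtain ⟨P, Q, h⟩ := k26_facA Z hZ s (by
    rw [Fintype.card_sum, Fintype.card_fin]
    omega)
  refine ⟨Sum.elim P Q, fun b b' => ?_⟩
  rw [k26_J, h]

end MP50e386N
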