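import Pool.Agent.Lib.MP_50e386_al.N.KDefs

/-! [N50 K10] the submodules `N ⊗ T_0`. -/

namespace MP50e386N

open MvPolynomial

variable {E O T : Type} [Ring T] [Algebra UA T] [Algebra ℂ T] [IsScalarTower ℂ UA T]
  (S : SAlg E O UA T)

private theorem k10_ind {N N' : Submodule MP50e386.A UA} {x : T} (hx : x ∈ NT S N) (φ : T →+ T)
    (h : ∀ f ∈ N, ∀ l : List ((E ⊕ O) × ℕ), φ (algebraMap UA T f * S.pp l) ∈ NT S N') :
    φ x ∈ NT S N' := by
  unfold NT at hx
  induction hx using AddSubgroup.closure_induction with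
  | mem x hx =>
    obtain ⟨f, hf, l, rfl⟩ := hx
    exact h f hf l
  | zero =>
    rw [map_zero]
    exact AddSubgroup.zero_mem _
  | add a b _ _ ha hb =>
    rw [map_add]
    exact AddSubgroup.add_mem _ ha hb
  | neg a _ ha =>
    rw [map_neg]
    exact AddSubgroup.neg_mem _ ha

private theorem k10_gen {N : Submodule MP50e386.A UA} {f : UA} (hf : f ∈ N)
    (l : List ((E ⊕ O) × ℕ)) : algebraMap UA T f * S.pp l ∈ NT S N :=
  AddSubgroup.subset_closure ⟨f, hf, l, rfl⟩

private theorem k10_pp_cons (p : (E ⊕ O) × ℕ) (l : List ((E ⊕ O) × ℕ)) :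
    S.pp (p :: l) = S.P p.1 p.2 * S.pp l := by
  unfold SAlg.pp
  rw [List.map_cons, List.prod_cons]

private theorem k10_pp_append (l l' : List ((E ⊕ O) × ℕ)) :
    S.pp (l ++ l') = S.pp l * S.pp l' := by
  unfold SAlg.pp
  rw [List.map_append, List.prod_append]

theorem NT_C_mul {N : Submodule MP50e386.A UA} {x : T} (hx : x ∈ NT S N) (g : MP50e386.A) :
    algebraMap UA T (C g) * x ∈ NT S N := by
  refine k10_ind S hx (AddMonoidHom.mulLeft (algebraMap UA T (C g))) ?_
  intro f hf l
  rw [AddMonoidHom.coe_mulLeft, ← mul_assoc, ← map_mul]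
  refine k10_gen S ?_ l
  rw [← smul_eq_C_mul]
  exact N.smul_mem g hf

theorem NT_P_mul {N : Submodule MP50e386.A UA} {x : T} (hx : x ∈ NT S N) (y : E ⊕ O) (i : ℕ) :
    S.P y i * x ∈ NT S N := by
  refine k10_ind S hx (AddMonoidHom.mulLeft (S.P y i)) ?_
  intro f hf l
  have e : S.P y i * (algebraMap UA T f * S.pp l) = algebraMap UA T f * S.pp ((y, i) :: l) := by
    rw [k10_pp_cons, ← mul_assoc, ← Algebra.commutes, mul_assoc]
  rw [AddMonoidHom.coe_mulLeft, e]
  exact k10_gen S hf _

theorem NT_mul_P {N : Submodule MP50e386.A UA} {x : T} (hx : x ∈ NT S N) (y : E ⊕ O) (i : ℕ) :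
    x * S.P y i ∈ NT S N := by
  refine k10_ind S hx (AddMonoidHom.mulRight (S.P y i)) ?_
  intro f hf l
  have e : algebraMap UA T f * S.pp l * S.P y i = algebraMap UA T f * S.pp (l ++ [(y, i)]) := by
    rw [k10_pp_append, mul_assoc]
    congr 2
    unfold SAlg.pp
    simp
  rw [AddMonoidHom.mulRight_apply, e]
  exact k10_gen S hf _

theorem NT_smul {N : Submodule MP50e386.A UA} {x : T} (hx : x ∈ NT S N) (c : ℂ) :
    c • x ∈ NT S N := by
  rw [Algebra.smul_def, IsScalarTower.algebraMap_apply ℂ UA T c, MvPolynomial.algebraMap_apply]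
  exact NT_C_mul S hx _

private theorem k10_XX_mul {N : Submodule MP50e386.A UA} {x : T} (hx : x ∈ NT S N)
    (y y' : E ⊕ O) (m : ℕ) : XX S y y' m * x ∈ NT S N := by
  unfold XX
  rw [Finset.sum_mul]
  refine AddSubgroup.sum_mem _ fun i _ => ?_
  rw [Finset.sum_mul]
  refine AddSubgroup.sum_mem _ fun j _ => ?_
  rw [mul_assoc, mul_assoc]
  exact NT_C_mul S (NT_P_mul S (NT_P_mul S hx _ _) _ _) _

private theorem k10_mul_XX {N : Submodule MP50e386.A UA} {x : T} (hx : x ∈ NT S N)
    (y y' : E ⊕ O) (m : ℕ) : x * XX S y y' m ∈ NT S N := by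
  unfold XX
  rw [Finset.mul_sum]
  refine AddSubgroup.sum_mem _ fun i _ => ?_
  rw [Finset.mul_sum]
  refine AddSubgroup.sum_mem _ fun j _ => ?_
  rw [← mul_assoc, ← Algebra.commutes, mul_assoc, ← mul_assoc x]
  exact NT_C_mul S (NT_mul_P S (NT_mul_P S hx _ _) _ _) _

theorem NT_smul_KK {N : Submodule MP50e386.A UA} {F : TN S} (hF : ∀ m, F m ∈ NT (T := T) S N)
    (P : KK E O) (m : ℕ) : (P • F) m ∈ NT (T := T) S N := by
  induction P using MvPolynomial.induction_on generalizing F m with
  | C c =>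
    have e : (C c : KK E O) • F = c • F := by
      rw [Algebra.smul_def, Algebra.smul_def]
      congr 1
      change ((KH S (C c) : Subalgebra.center ℂ (TN S)) : TN S) = _
      rw [KH, ← MvPolynomial.algebraMap_eq, AlgHom.commutes]
      rfl
    rw [e]
    exact NT_smul S (hF m) c
  | add P Q hP hQ =>
    rw [add_smul]
    exact AddSubgroup.add_mem _ (hP hF m) (hQ hF m)
  | mul_X P n hP =>
    rw [mul_smul]
    refine hP (fun m => ?_) m
    rw [Algebra.smul_def]
    rcases n with p | p
    · have e : algebraMap (KK E O) (TN S) (X (Sum.inl p)) = XX S (Sum.inl p.1) (Sum.inl p.2) := by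
        change ((KH S (X (Sum.inl p)) : Subalgebra.center ℂ (TN S)) : TN S) = _
        rw [KH, aeval_X]
        rfl
      rw [e]
      exact k10_XX_mul S (hF m) _ _ m
    · have e : algebraMap (KK E O) (TN S) (X (Sum.inr p)) = XX S (Sum.inr p.1) (Sum.inr p.2) := by
        change ((KH S (X (Sum.inr p)) : Subalgebra.center ℂ (TN S)) : TN S) = _
        rw [KH, aeval_X]
        rfl
      rw [e]
      exact k10_XX_mul S (hF m) _ _ m

/-- sequences in `N ⊗ T_0` -/
def NTN (N : Submodule MP50e386.A UA) : Submodule (KK E O) (TN S) where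
  carrier := {F | ∀ m, F m ∈ NT (T := T) S N}
  zero_mem' := fun _ => AddSubgroup.zero_mem _
  add_mem' := fun ha hb m => AddSubgroup.add_mem _ (ha m) (hb m)
  smul_mem' := fun P _ hF m => NT_smul_KK S hF P m

theorem mem_NTN {N : Submodule MP50e386.A UA} {F : TN S} :
    F ∈ NTN S N ↔ ∀ m, F m ∈ NT (T := T) S N := Iff.rfl

theorem NTN_mono {N N' : Submodule MP50e386.A UA} (h : N ≤ N') : NTN S N ≤ NTN S N' := by
  intro F hF m
  refine AddSubgroup.closure_mono ?_ (hF m)
  rintro x ⟨f, hf, l, rfl⟩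
  exact ⟨f, h hf, l, rfl⟩

private theorem k10_NT_mul (h : Ideal MP50e386.A) (N : Submodule MP50e386.A UA) {x y : T}
    (hx : x ∈ NT S (IU h)) (hy : y ∈ NT S N) : x * y ∈ NT S (h • N) := by
  refine k10_ind S hx (AddMonoidHom.mulRight y) ?_
  intro f hf l
  rw [AddMonoidHom.mulRight_apply]
  refine k10_ind S hy (AddMonoidHom.mulLeft (algebraMap UA T f * S.pp l)) ?_
  intro g hg l'
  rw [AddMonoidHom.coe_mulLeft]
  have e : algebraMap UA T f * S.pp l * (algebraMap UA T g * S.pp l') =
      algebraMap UA T (f * g) * S.pp (l ++ l') := by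
    rw [k10_pp_append, map_mul]
    calc algebraMap UA T f * S.pp l * (algebraMap UA T g * S.pp l')
        = algebraMap UA T f * (S.pp l * algebraMap UA T g) * S.pp l' := by
          simp only [mul_assoc]
      _ = algebraMap UA T f * (algebraMap UA T g * S.pp l) * S.pp l' := by
          rw [← Algebra.commutes]
      _ = _ := by simp only [mul_assoc]
  rw [e]
  refine k10_gen S ?_ _
  obtain ⟨c, hc, rfl⟩ := hf
  have e2 : (Algebra.linearMap MP50e386.A UA) c * g = c • g := by
    rw [Algebra.linearMap_apply, ← Algebra.smul_def]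
  rw [e2]
  exact Submodule.smul_mem_smul hc hg

/-- `(h ⊗ T_0)(N ⊗ T_0) ≤ hN ⊗ T_0` -/
theorem NTN_mul (h : Ideal MP50e386.A) (N : Submodule MP50e386.A UA) :
    NTN S (IU h) * NTN S N ≤ NTN S (h • N) := by
  rw [Submodule.mul_le]
  intro a ha b hb m
  exact k10_NT_mul S h N (ha m) (hb m)

theorem Chi_mul_NTN (N : Submodule MP50e386.A UA) : Chi S 0 * NTN S N ≤ NTN S N := by
  rw [Submodule.mul_le]
  intro a ha b hb
  unfold Chi at ha
  induction ha using Submodule.span_induction with
  | mem x hx =>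
    obtain ⟨l, -, rfl⟩ := hx
    induction l with
    | nil =>
      rw [List.map_nil, List.prod_nil, one_mul]
      exact hb
    | cons p l ih =>
      rw [List.map_cons, List.prod_cons, mul_assoc]
      intro m
      exact k10_XX_mul S (ih m) _ _ m
  | zero =>
    rw [zero_mul]
    exact Submodule.zero_mem _
  | add x y _ _ hx hy =>
    rw [add_mul]
    exact Submodule.add_mem _ hx hy
  | smul c x _ hx =>
    rw [smul_mul_assoc]
    exact Submodule.smul_mem _ c hx

theorem NTN_mul_Chi (N : Submodule MP50e386.A UA) : NTN S N * Chi S 0 ≤ NTN S N := by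
  rw [Submodule.mul_le]
  intro b hb a ha
  unfold Chi at ha
  induction ha using Submodule.span_induction with
  | mem x hx =>
    obtain ⟨l, -, rfl⟩ := hx
    induction l generalizing b with
    | nil =>
      rw [List.map_nil, List.prod_nil, mul_one]
      exact hb
    | cons p l ih =>
      rw [List.map_cons, List.prod_cons, ← mul_assoc]
      refine ih _ (fun m => ?_)
      exact k10_mul_XX S (hb m) _ _ m
  | zero =>
    rw [mul_zero]
    exact Submodule.zero_mem _
  | add x y _ _ hx hy =>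
    rw [mul_add]
    exact Submodule.add_mem _ hx hy
  | smul c x _ hx =>
    rw [mul_smul_comm]
    exact Submodule.smul_mem _ c hx

end MP50e386N
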