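import Pool.Agent.Lib.MP_50e386_al.N.KDefs

/-! [N50 K28] the relations of `K`, and the Nullstellensatz. -/

namespace MP50e386N

open MvPolynomial

/-- `F₀` -/
noncomputable def F0 (E O : Type) [Fintype E] [Fintype O] [DecidableEq E] [DecidableEq O] :
    KK E O :=
  (Matrix.of fun a a' : E => (X (Sum.inl (a, a')) : KK E O)).det *
    (Matrix.of fun b b' : O => (X (Sum.inr (b, b')) : KK E O)).det

/-- `K`-relations: `X_{aa'} = X_{a'a}`, `X_{bb'} = - X_{b'b}` -/
noncomputable def Rel (E O : Type) : Ideal (KK E O) :=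
  Ideal.span ({P | ∃ a a' : E, P = X (Sum.inl (a, a')) - X (Sum.inl (a', a))} ∪
    {P | ∃ b b' : O, P = X (Sum.inr (b, b')) + X (Sum.inr (b', b))})

private theorem k28_XX_inl {E O T : Type} [Ring T] [Algebra UA T] [Algebra ℂ T]
    (S : SAlg E O UA T) (a a' : E) :
    XX S (Sum.inl a) (Sum.inl a') = XX S (Sum.inl a') (Sum.inl a) := by
  funext m
  change (∑ i ∈ Finset.range m, ∑ j ∈ Finset.range m,
    algebraMap UA T (C (X s(i, j))) * (S.P (Sum.inl a) i * S.P (Sum.inl a') j)) =
    ∑ i ∈ Finset.range m, ∑ j ∈ Finset.range m,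
    algebraMap UA T (C (X s(i, j))) * (S.P (Sum.inl a') i * S.P (Sum.inl a) j)
  rw [Finset.sum_comm]
  refine Finset.sum_congr rfl fun i _ => Finset.sum_congr rfl fun j _ => ?_
  rw [S.even_central, Sym2.eq_swap]

private theorem k28_XX_inr {E O T : Type} [Ring T] [Algebra UA T] [Algebra ℂ T]
    (S : SAlg E O UA T) (b b' : O) :
    XX S (Sum.inr b) (Sum.inr b') = - XX S (Sum.inr b') (Sum.inr b) := by
  funext m
  change (∑ i ∈ Finset.range m, ∑ j ∈ Finset.range m,
    algebraMap UA T (C (X s(i, j))) * (S.P (Sum.inr b) i * S.P (Sum.inr b') j)) =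
    - ∑ i ∈ Finset.range m, ∑ j ∈ Finset.range m,
    algebraMap UA T (C (X s(i, j))) * (S.P (Sum.inr b') i * S.P (Sum.inr b) j)
  rw [Finset.sum_comm, ← Finset.sum_neg_distrib]
  refine Finset.sum_congr rfl fun i _ => ?_
  rw [← Finset.sum_neg_distrib]
  refine Finset.sum_congr rfl fun j _ => ?_
  have e : ss (par (Sum.inr b : E ⊕ O)) (par (Sum.inr b' : E ⊕ O)) = -1 := by simp [ss, par]
  have e2 : ∀ x : T, (-1 : ℤ) • x = -x := fun x => by simp
  rw [S.comm (Sum.inr b) j (Sum.inr b') i, e, e2, Sym2.eq_swap, mul_neg]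

private theorem k28_ker {E O T : Type} [Ring T] [Algebra UA T] [Algebra ℂ T]
    (S : SAlg E O UA T) : Rel E O ≤ RingHom.ker (KH S) := by
  unfold Rel
  rw [Ideal.span_le]
  rintro P (⟨a, a', rfl⟩ | ⟨b, b', rfl⟩)
  · change KH S _ = 0
    rw [map_sub, sub_eq_zero]
    unfold KH
    rw [aeval_X, aeval_X]
    apply Subtype.ext
    exact k28_XX_inl S a a'
  · change KH S _ = 0
    rw [map_add, ← eq_neg_iff_add_eq_zero]
    unfold KH
    rw [aeval_X, aeval_X]
    apply Subtype.ext
    exact k28_XX_inr S b b'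

theorem Rel_smul {E O T : Type} [Ring T] [Algebra UA T] [Algebra ℂ T] (S : SAlg E O UA T)
    {P : KK E O} (hP : P ∈ Rel E O) (F : TN S) : P • F = 0 := by
  have h : KH S P = 0 := k28_ker S hP
  have h2 : P • F = ((KH S P : Subalgebra.center ℂ (TN S)) : TN S) * F := rfl
  rw [h2, h, ZeroMemClass.coe_zero, zero_mul]

/-- a polynomial vanishing at all forms with `G = 0` has a power in `(G) + Rel` -/
theorem nullst {E O : Type} [Fintype E] [Fintype O] [DecidableEq E] [DecidableEq O]
    (bb : Ideal (KK E O)) (G : KK E O) (h : ∀ P ∈ bb, ∀ W : Form E O, kev W G = 0 → kev W P = 0) :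
    ∃ e, bb ^ e ≤ Ideal.span {G} ⊔ Rel E O := by
  set I : Ideal (KK E O) := Ideal.span {G} ⊔ Rel E O with hI
  have h1 : bb ≤ I.radical := by
    intro P hP
    rw [← vanishingIdeal_zeroLocus_eq_radical (K := ℂ) I, mem_vanishingIdeal_iff]
    intro x hx
    rw [mem_zeroLocus_iff] at hx
    have hr : Rel E O ≤ I := le_sup_right
    have hG : G ∈ I := (le_sup_left : Ideal.span {G} ≤ I) (Ideal.mem_span_singleton_self G)
    let W : Form E O :=
      { be := fun a a' => x (Sum.inl (a, a'))
        be_symm := fun a a' => by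
          have h2 := hx _ (hr (Ideal.subset_span (Or.inl ⟨a, a', rfl⟩)))
          rw [map_sub, aeval_X, aeval_X, sub_eq_zero] at h2
          exact h2
        ze := fun b b' => x (Sum.inr (b, b'))
        ze_anti := fun b b' => by
          have h2 := hx _ (hr (Ideal.subset_span (Or.inr ⟨b, b', rfl⟩)))
          rw [map_add, aeval_X, aeval_X, ← eq_neg_iff_add_eq_zero] at h2
          exact h2
        le := fun _ _ => 0 }
    have hW : ∀ Q : KK E O, kev W Q = aeval x Q := by
      intro Q
      have e : (Sum.elim (fun p : E × E => W.be p.1 p.2) (fun p : O × O => W.ze p.1 p.2)) = x := by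
        funext p
        rcases p with p | p <;> rfl
      unfold kev
      rw [e]
    rw [← hW]
    exact h P hP W (by rw [hW]; exact hx G hG)
  obtain ⟨n, hn⟩ := Ideal.exists_radical_pow_le_of_fg I (IsNoetherian.noetherian _)
  exact ⟨n, (Ideal.pow_right_mono h1 n).trans hn⟩

end MP50e386N
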