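import Pool.Agent.Lib.MP_50e386_al.N.KDefs
import Pool.Agent.Lib.MP_50e386_al.N.K.Exp
import Pool.Agent.Lib.MP_50e386_al.N.K.FtSS

/-! [N50 K25] (t7): the super evaluation modulo the `χ`'s. -/

namespace MP50e386N

open MvPolynomial

section k25_basic

variable {E O T : Type} [Ring T] [Algebra UA T] [Algebra ℂ T] (S : SAlg E O UA T)

private theorem k25_alg (P : KK E O) : algebraMap (KK E O) (TN S) P =
    ((KH S P : Subalgebra.center ℂ (TN S)) : TN S) := rfl

private theorem k25_C (c : ℂ) (x : TN S) : (C c : KK E O) • x = c • x := by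
  rw [Algebra.smul_def, k25_alg, ← MvPolynomial.algebraMap_eq, AlgHom.commutes, Algebra.smul_def]
  rfl

private theorem k25_XX_swap (a : E) (b : O) :
    XX S (Sum.inr b) (Sum.inl a) = XX S (Sum.inl a) (Sum.inr b) := by
  funext m
  change (∑ i ∈ Finset.range m, ∑ j ∈ Finset.range m,
    algebraMap UA T (C (X s(i, j))) * (S.P (Sum.inr b) i * S.P (Sum.inl a) j)) =
    ∑ i ∈ Finset.range m, ∑ j ∈ Finset.range m,
    algebraMap UA T (C (X s(i, j))) * (S.P (Sum.inl a) i * S.P (Sum.inr b) j)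
  rw [Finset.sum_comm]
  refine Finset.sum_congr rfl fun j _ => Finset.sum_congr rfl fun i _ => ?_
  rw [Sym2.eq_swap, ← S.even_central a j (S.P (Sum.inr b) i)]

private theorem k25_XX_mem (a : E) (b : O) : XX S (Sum.inl a) (Sum.inr b) ∈ Chi S 1 := by
  refine Submodule.subset_span ⟨[(a, b)], le_rfl, ?_⟩
  simp

private theorem k25_edge (y y' : E ⊕ O) : ∃ P : KK E O, XX S y y' - P • (1 : TN S) ∈ Chi S 1 ∧
    ∀ W : Form E O, kev W P = We W y y' := by
  rcases y with a | b <;> rcases y' with a' | b'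
  · refine ⟨X (Sum.inl (a, a')), ?_, fun W => ?_⟩
    · rw [Algebra.smul_def, k25_alg, mul_one, KH, aeval_X, Sum.elim_inl, sub_self]
      exact Submodule.zero_mem _
    · rw [kev, aeval_X, Sum.elim_inl]
      rfl
  · refine ⟨0, ?_, fun W => ?_⟩
    · rw [zero_smul, sub_zero]
      exact k25_XX_mem S a b'
    · rw [map_zero]
      rfl
  · refine ⟨0, ?_, fun W => ?_⟩
    · rw [zero_smul, sub_zero, k25_XX_swap]
      exact k25_XX_mem S a' b
    · rw [map_zero]
      rfl
  · refine ⟨X (Sum.inr (b, b')), ?_, fun W => ?_⟩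
    · rw [Algebra.smul_def, k25_alg, mul_one, KH, aeval_X, Sum.elim_inr, sub_self]
      exact Submodule.zero_mem _
    · rw [kev, aeval_X, Sum.elim_inr]
      rfl

end k25_basic

variable {E O T : Type} [Fintype E] [Fintype O] [DecidableEq E] [DecidableEq O] [Ring T]
  [Algebra UA T] [Algebra ℂ T] [IsScalarTower ℂ UA T] (S : SAlg E O UA T)

/-- the statement for an element of `A[z]` -/
private def k25_Red (n : ℕ) (g : UA) : Prop := ∀ τ : Fin n → E ⊕ O,
  ∃ P : KK E O, ft S τ g - P • (1 : TN S) ∈ Chi S 1 ∧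
    ∀ (W : Form E O) (w : (Fin n → E ⊕ O) → ℂ), IsW n W g w → kev W P = w τ

private theorem k25_mem_zero {n : ℕ} {g : UA} {τ : Fin n → E ⊕ O} {P : KK E O}
    (h : ft S τ g - P • (1 : TN S) ∈ Chi S 1) : ft S τ g ∈ Chi S 0 := by
  have h1 : ft S τ g = (ft S τ g - P • (1 : TN S)) + P • (1 : TN S) := by abel
  rw [h1]
  exact Submodule.add_mem _ (Chi_anti S (Nat.zero_le 1) h)
    (Submodule.smul_mem _ _ (one_mem_Chi S))

private theorem k25_perm {n : ℕ} {g : UA} (hg : g ∈ UL n) (h : k25_Red S n g)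
    (σ : Equiv.Perm (Fin n)) : k25_Red S n (lsub (extd fun k => (σ k : ℕ)) g) := by
  intro τ
  obtain ⟨P, h1, h2⟩ := h (τ ∘ σ)
  refine ⟨kap σ (par ∘ τ) • P, ?_, fun W w hw => ?_⟩
  · rw [ft_perm S τ hg σ, smul_assoc, ← smul_sub]
    exact zsmul_mem h1 _
  · obtain ⟨w', hw'⟩ := exists_isW (n := n) W hg
    rw [map_zsmul, h2 W w' hw', isW_unique W hw (isW_perm W hg hw' σ), zsmul_eq_mul]

private theorem k25_mon (e : ℕ) : ∀ n, n = 2 * e → k25_Red S n (mon e []) := by
  induction e with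
  | zero =>
    intro n hn
    obtain rfl : n = 0 := by omega
    intro τ
    have hmon : (mon 0 [] : UA) = 1 := by rw [mon]
    rw [hmon]
    refine ⟨1, ?_, fun W w hw => ?_⟩
    · rw [ft_one S τ, one_smul, sub_self]
      exact Submodule.zero_mem _
    · have h1 : w = fun _ => 1 := isW_unique W hw (isW_one W)
      rw [map_one, h1]
  | succ e ih =>
    rintro n hn
    obtain rfl : n = 2 + 2 * e := by omega
    intro τ
    have hU : (mon e [] : UA) ∈ UL (2 * e) := by
      have := mon_mem_UL e []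
      simpa using this
    obtain ⟨Pe, a1, a2⟩ := k25_edge S (τ (Fin.castAdd (2 * e) 0)) (τ (Fin.castAdd (2 * e) 1))
    obtain ⟨Pf, b1, b2⟩ := ih (2 * e) rfl (τ ∘ Fin.natAdd 2)
    have hτ : τ = Fin.append (τ ∘ Fin.castAdd (2 * e)) (τ ∘ Fin.natAdd 2) := by
      funext k
      refine Fin.addCases (fun k => ?_) (fun k => ?_) k
      · rw [Fin.append_left]
        rfl
      · rw [Fin.append_right]
        rfl
    have hmon : (mon (e + 1) [] : UA) = C (X s(0, 1)) * lsub (· + 2) (mon e []) := by rw [mon]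
    refine ⟨Pe * Pf, ?_, fun W w hw => ?_⟩
    · have h1 : ft S τ (mon (e + 1) []) =
          XX S (τ (Fin.castAdd (2 * e) 0)) (τ (Fin.castAdd (2 * e) 1)) *
            ft S (τ ∘ Fin.natAdd 2) (mon e []) := by
        conv_lhs => rw [hτ, hmon]
        rw [ft_cat S _ _ edge_mem_UL hU, ft_edge]
        rfl
      have h2 : ∀ x y : TN S, x * y - (Pe * Pf) • (1 : TN S) =
          (x - Pe • (1 : TN S)) * y + Pe • (y - Pf • (1 : TN S)) := by
        intro x y
        rw [sub_mul, smul_mul_assoc, one_mul, smul_sub, smul_smul]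
        abel
      rw [h1, h2]
      refine Submodule.add_mem _ ?_ (Submodule.smul_mem _ _ b1)
      have h3 := Chi_mul S 1 0 (Submodule.mul_mem_mul a1 (k25_mem_zero S b1))
      simpa using h3
    · obtain ⟨w', hw'⟩ := exists_isW (n := 2 * e) W hU
      rw [hmon] at hw
      have h1 := isW_unique W hw (isW_cat W edge_mem_UL hU (isW_edge W) hw')
      rw [map_mul, a2 W, b2 W w' hw', h1]
      rfl

/-- (t7) -/
theorem redK {n : ℕ} {f : MP50e386.A} (hf : (C f : UA) ∈ UL n) (τ : Fin n → E ⊕ O) :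
    ∃ P : KK E O, ft S τ (C f) - P • (1 : TN S) ∈ Chi S 1 ∧
      ∀ (W : Form E O) (w : (Fin n → E ⊕ O) → ℂ), IsW n W (C f) w → kev W P = w τ := by
  have hBD : (C f : UA) ∈ BD MP50e386.A 0 0 := by
    unfold BD
    rw [mem_restrictSupport_iff]
    intro m hm
    have h1 : m = 0 := by
      by_contra hne
      have h2 : coeff m (C f : UA) ≠ 0 := mem_support_iff.1 hm
      rw [coeff_C, if_neg (Ne.symm hne)] at h2
      exact h2 rfl
    subst h1
    refine ⟨fun p hp => ?_, ?_⟩
    · simp at hp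
    · simp
  have hspan := span_UL n 0 0 (C f) hf hBD
  have key : (C f : UA) ∈ UL n ∧ k25_Red S n (C f) := by
    refine Submodule.span_induction (p := fun g _ => g ∈ UL n ∧ k25_Red S n g) ?_ ?_ ?_ ?_ hspan
    · rintro g ⟨e, as, σ, h1, h2, -, rfl⟩
      have h3 : as = [] := List.eq_nil_of_length_eq_zero (Nat.le_zero.1 h2)
      subst h3
      have h4 : n = 2 * e := by simpa using h1.symm
      have hU : (mon e [] : UA) ∈ UL n := by
        have := mon_mem_UL e []
        rw [h4]
        simpa using this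
      exact ⟨UL_perm hU σ, k25_perm S hU (k25_mon S e n h4) σ⟩
    · refine ⟨Submodule.zero_mem _, fun τ => ⟨0, ?_, fun W w hw => ?_⟩⟩
      · have h1 : ft S τ (0 : UA) = 0 := by
          have := ft_smul S τ 0 (0 : UA)
          rwa [zero_smul, zero_smul] at this
        rw [h1, zero_smul, sub_zero]
        exact Submodule.zero_mem _
      · obtain ⟨w', hw'⟩ := exists_isW (n := n) W (Submodule.zero_mem (UL n))
        have h1 := isW_smul W hw' 0
        rw [zero_smul, zero_smul] at h1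
        rw [map_zero, isW_unique W hw h1]
        rfl
    · rintro x y - - ⟨hx, hx'⟩ ⟨hy, hy'⟩
      refine ⟨Submodule.add_mem _ hx hy, fun τ => ?_⟩
      obtain ⟨P, p1, p2⟩ := hx' τ
      obtain ⟨Q, q1, q2⟩ := hy' τ
      refine ⟨P + Q, ?_, fun W w hw => ?_⟩
      · rw [ft_add, add_smul, add_sub_add_comm]
        exact Submodule.add_mem _ p1 q1
      · obtain ⟨wx, hwx⟩ := exists_isW (n := n) W hx
        obtain ⟨wy, hwy⟩ := exists_isW (n := n) W hy
        rw [map_add, p2 W wx hwx, q2 W wy hwy, isW_unique W hw (isW_add W hwx hwy)]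
        rfl
    · rintro c x - ⟨hx, hx'⟩
      refine ⟨Submodule.smul_mem _ c hx, fun τ => ?_⟩
      obtain ⟨P, p1, p2⟩ := hx' τ
      refine ⟨C c * P, ?_, fun W w hw => ?_⟩
      · rw [ft_smul, mul_smul, ← k25_C S c (ft S τ x), ← smul_sub]
        exact Submodule.smul_mem _ _ p1
      · obtain ⟨wx, hwx⟩ := exists_isW (n := n) W hx
        rw [map_mul, p2 W wx hwx, isW_unique W hw (isW_smul W hwx c), ← MvPolynomial.algebraMap_eq,
          AlgHom.commutes]
        rfl
  exact key.2 τ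

end MP50e386N
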