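import Pool.Agent.Lib.MP_50e386_al.N.KDefs
import Pool.Agent.Lib.MP_50e386_al.N.K.Lett
import Pool.Agent.Lib.MP_50e386_al.N.K.Mdeg

/-! [N50 K16] multilinear elements of a product `h Y`. -/

namespace MP50e386N

open MvPolynomial

private theorem k16_bil (v w : V) : (MP50e386.bil v w : MP50e386.A) = (xv v w : MP50e386.A) := by
  have h1 : ∀ (w : V) (i : ℕ), (MP50e386.bil (ee i) w : MP50e386.A) = xv (ee i) w := by
    intro w i
    induction w using Finsupp.induction_linear with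
    | zero =>
      unfold xv
      rw [map_zero, map_zero, map_zero]
    | add f g hf hg =>
      unfold xv at hf hg ⊢
      rw [map_add, hf, hg, map_add, map_add]
    | single j c =>
      have e1 : (Finsupp.single j c : V) = c • ee j := by
        rw [ee, Finsupp.smul_single, smul_eq_mul, mul_one]
      have e2 : (xv (ee i) (ee j) : MP50e386.A) = X s(i, j) := xv_ee i j
      unfold xv at e2 ⊢
      have e3 : (MP50e386.bil (ee i) (ee j) : MP50e386.A) = X s(i, j) := MP50e386.bil_ee i j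
      rw [e1, map_smul, map_smul, e3,
        ← algebraMap_smul MP50e386.A c (cst (ee j) : VR MP50e386.A), map_smul, e2,
        algebraMap_smul]
  induction v using Finsupp.induction_linear with
  | zero =>
    unfold xv
    rw [map_zero, map_zero, map_zero, LinearMap.zero_apply, LinearMap.zero_apply]
  | add f g hf hg =>
    unfold xv at hf hg ⊢
    rw [map_add, LinearMap.add_apply, hf, hg, map_add, map_add, LinearMap.add_apply]
  | single i c =>
    have e1 : (Finsupp.single i c : V) = c • ee i := by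
      rw [ee, Finsupp.smul_single, smul_eq_mul, mul_one]
    have e2 := h1 w i
    unfold xv at e2 ⊢
    rw [e1, map_smul, LinearMap.smul_apply, e2, map_smul,
      ← algebraMap_smul MP50e386.A c (cst (ee i) : VR MP50e386.A), map_smul,
      LinearMap.smul_apply, algebraMap_smul]

private theorem k16_sbR (φ : ℕ → V) (f : MP50e386.A) :
    (sbR φ f : MP50e386.A) = MP50e386.sub φ f := by
  have h : (sbR φ : MP50e386.A →ₐ[ℂ] MP50e386.A) = MP50e386.sub φ := by
    apply MvPolynomial.algHom_ext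
    intro s
    induction s using Sym2.ind with
    | _ i j =>
      rw [MP50e386.sub_X, k16_bil]
      have e2 : (xv (ee i) (ee j) : MP50e386.A) = X s(i, j) := xv_ee i j
      rw [← e2, sb_x_cst, linC_ee, linC_ee]
  rw [h]

private theorem k16_GLSI (h : Ideal MP50e386.A)
    (hh : ∀ w : ℕ → MP50e386.V, ∀ f ∈ h, MP50e386.sub w f ∈ h) : GLSI h := by
  intro φ f hf
  rw [k16_sbR]
  exact hh φ f hf

theorem IU_GLS (h : Ideal MP50e386.A)
    (hh : ∀ w : ℕ → MP50e386.V, ∀ f ∈ h, MP50e386.sub w f ∈ h) : GLS (IU h) :=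
  (GLS_ofI h).2 (k16_GLSI h hh)

theorem smul_GLS (h : Ideal MP50e386.A) (Y : Submodule MP50e386.A UA)
    (hh : ∀ w : ℕ → MP50e386.V, ∀ f ∈ h, MP50e386.sub w f ∈ h) (hY : GLS Y) :
    GLS (h • Y) := GLS.smul (k16_GLSI h hh) hY

/-- the multidegree of a substituted polynomial -/
private theorem k16_MW_lsub {κ : ℕ →₀ ℕ} {f : UA} (hf : MW κ f) (ψ : ℕ → ℕ) :
    MW (κ.mapDomain ψ) (lsub ψ f) := by
  intro t
  have h0 : ((κ.mapDomain ψ).prod fun i k => t i ^ k) = κ.prod fun i k => t (ψ i) ^ k :=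
    Finsupp.prod_mapDomain_index (h := fun i k => t i ^ k) (fun b => pow_zero _)
      (fun b m n => pow_add _ _ _)
  have h1 := hf (fun i => t (ψ i))
  have h2 : lsub ψ f = sbC (fun k => ee (ψ k)) f := rfl
  have h3 : (fun i => linC (fun i => t i • ee i) (ee (ψ i))) =
      fun i => linC (fun k => ee (ψ k)) (t (ψ i) • ee i) := by
    funext i
    rw [linC_ee, map_smul, linC_ee]
  rw [h0, h2, sbC_sbC, h3, ← sbC_sbC, h1, sbC_smulC]

/-- a polynomial depends only on its letters -/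
private theorem k16_congr {κ : ℕ →₀ ℕ} {f : UA} (hf : MW κ f) (φ : ℕ → ℕ)
    (h : ∀ k ∈ κ.support, φ k = k) : lsub φ f = f := by
  have h1 : lsub φ f = sbC ee f := by
    unfold lsub
    refine sbC_congr (MW_LT hf) _ _ fun i hi => ?_
    rw [h i (by simpa using hi)]
  rw [h1, sbC_id]

/-- the span of the products of multidegree `κ` -/
private noncomputable def k16_P (h : Ideal MP50e386.A) (Y : Submodule MP50e386.A UA)
    (κ : ℕ →₀ ℕ) : Submodule ℂ UA :=
  Submodule.span ℂ {g | ∃ (κ₁ κ₂ : ℕ →₀ ℕ) (u v : UA), κ₁ + κ₂ = κ ∧ MW κ₁ u ∧ u ∈ IU h ∧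
    MW κ₂ v ∧ v ∈ Y ∧ g = u * v}

private theorem k16_P_MW {h : Ideal MP50e386.A} {Y : Submodule MP50e386.A UA}
    {κ : ℕ →₀ ℕ} {g : UA} (hg : g ∈ k16_P h Y κ) : MW κ g := by
  unfold k16_P at hg
  induction hg using Submodule.span_induction with
  | mem x hx =>
    obtain ⟨κ₁, κ₂, u, v, h1, h2, -, h3, -, rfl⟩ := hx
    rw [← h1]
    exact MW_mul h2 h3
  | zero =>
    intro t
    rw [map_zero, smul_zero]
  | add x y _ _ hx hy => exact MW_add hx hy
  | smul c x _ hx =>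
    intro t
    rw [sbC_smulC, hx t, smul_comm]

private theorem k16_iSup {h : Ideal MP50e386.A} {Y : Submodule MP50e386.A UA}
    (hh : ∀ w : ℕ → MP50e386.V, ∀ f ∈ h, MP50e386.sub w f ∈ h) (hY : GLS Y) {f : UA}
    (hf : f ∈ h • Y) : f ∈ ⨆ κ, k16_P h Y κ := by
  refine Submodule.smul_induction_on hf (fun r hr v hv => ?_) (fun a b ha hb =>
    Submodule.add_mem _ ha hb)
  have hr' : (C r : UA) ∈ IU h := ⟨r, hr, rfl⟩
  obtain ⟨F, g, h1, h2⟩ := exists_MW (IU h) (IU_GLS h hh) (C r) hr'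
  obtain ⟨F', g', h1', h2'⟩ := exists_MW Y hY v hv
  have e : r • v = ∑ κ ∈ F, ∑ κ' ∈ F', g κ * g' κ' := by
    rw [MvPolynomial.smul_eq_C_mul, h2, h2', Finset.sum_mul_sum]
  rw [e]
  refine Submodule.sum_mem _ fun κ _ => Submodule.sum_mem _ fun κ' _ => ?_
  exact Submodule.mem_iSup_of_mem (κ + κ') (Submodule.subset_span
    ⟨κ, κ', g κ, g' κ', rfl, (h1 κ).1, (h1 κ).2, (h1' κ').1, (h1' κ').2, rfl⟩)

/-- the multilinear elements of `h Y` are spanned by the multilinear products -/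
private theorem k16_mem {h : Ideal MP50e386.A} {Y : Submodule MP50e386.A UA}
    (hh : ∀ w : ℕ → MP50e386.V, ∀ f ∈ h, MP50e386.sub w f ∈ h) (hY : GLS Y) {f : UA}
    {κ₀ : ℕ →₀ ℕ} (hf : f ∈ h • Y) (hfW : MW κ₀ f) : f ∈ k16_P h Y κ₀ := by
  classical
  obtain ⟨g, hg, hs⟩ := (Submodule.mem_iSup_iff_exists_finsupp _ _).1 (k16_iSup hh hY hf)
  have hs' : f = ∑ κ ∈ g.support, g κ := by
    rw [← hs]
    rfl
  set F : Finset (ℕ →₀ ℕ) := insert κ₀ g.support with hF
  have e1 : f = ∑ κ ∈ F, g κ := by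
    rw [hs', hF]
    refine Finset.sum_subset (Finset.subset_insert _ _) fun κ _ hκ => ?_
    exact Finsupp.notMem_support_iff.1 hκ
  have key := MW_uniq F (fun κ => if κ = κ₀ then f else 0) (fun κ => g κ) (by
    intro κ _
    by_cases hκ : κ = κ₀
    · simp only [if_pos hκ]
      rw [hκ]
      exact hfW
    · simp only [if_neg hκ]
      intro t
      rw [map_zero, smul_zero]) (fun κ _ => k16_P_MW (hg κ)) (by
    rw [← e1, Finset.sum_ite_eq' F κ₀, if_pos]
    exact Finset.mem_insert_self _ _) κ₀ (Finset.mem_insert_self _ _)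
  simp only [if_true] at key
  rw [key]
  exact hg κ₀

private theorem k16_extd {n : ℕ} (φ : Fin n → ℕ) (k : Fin n) : extd φ (k : ℕ) = φ k := by
  unfold extd
  rw [dif_pos k.2]

theorem split_UL (h : Ideal MP50e386.A) (Y : Submodule MP50e386.A UA)
    (hh : ∀ w : ℕ → MP50e386.V, ∀ f ∈ h, MP50e386.sub w f ∈ h) (hY : GLS Y) (n : ℕ) (f : UA)
    (hf : f ∈ UL n) (hfY : f ∈ h • Y) :
    f ∈ Submodule.span ℂ {g : UA | ∃ (n₁ n₂ : ℕ) (_ : n₁ + n₂ = n) (u v : UA)
      (σ : Equiv.Perm (Fin n)), u ∈ UL n₁ ∧ u ∈ IU h ∧ v ∈ UL n₂ ∧ v ∈ Y ∧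
      g = lsub (extd fun k => (σ k : ℕ)) (u * lsub (· + n₁) v)} := by
  classical
  have h1 := k16_mem hh hY hfY ((UL_iff_MW n f).1 hf)
  clear hf hfY
  unfold k16_P at h1
  refine Submodule.span_mono ?_ h1
  rintro g ⟨κ, κ', u, v, hκ, hu, huh, hv, hvY, rfl⟩
  have hval : ∀ k, κ k + κ' k = if k < n then 1 else 0 := by
    intro k
    have := DFunLike.congr_fun hκ k
    rw [Finsupp.add_apply, Finsupp.finsetSum_apply] at this
    rw [this]
    simp only [Finsupp.single_apply]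
    rw [Finset.sum_ite_eq' (Finset.range n) k]
    simp only [Finset.mem_range]
  set Q : Finset (Fin n) := Finset.univ.filter (fun i => κ i = 1) with hQ
  have hκQ : κ = ∑ q ∈ Q, Finsupp.single (q : ℕ) 1 := by
    ext k
    rw [Finsupp.finsetSum_apply]
    simp only [Finsupp.single_apply]
    have hk := hval k
    by_cases hkn : k < n
    · rw [if_pos hkn] at hk
      have e1 : ∀ q ∈ Q, (if (q : ℕ) = k then 1 else 0) = if q = ⟨k, hkn⟩ then 1 else 0 := by
        intro q _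
        simp only [Fin.ext_iff]
      rw [Finset.sum_congr rfl e1, Finset.sum_ite_eq' Q ⟨k, hkn⟩]
      simp only [hQ, Finset.mem_filter, Finset.mem_univ, true_and]
      split_ifs with h2
      · exact h2
      · omega
    · rw [if_neg hkn] at hk
      rw [Finset.sum_eq_zero fun q _ => if_neg (by have := q.2; omega)]
      omega
  have hκQ' : κ' = ∑ q ∈ Qᶜ, Finsupp.single (q : ℕ) 1 := by
    ext k
    rw [Finsupp.finsetSum_apply]
    simp only [Finsupp.single_apply]
    have hk := hval k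
    by_cases hkn : k < n
    · rw [if_pos hkn] at hk
      have e1 : ∀ q ∈ Qᶜ, (if (q : ℕ) = k then 1 else 0) = if q = ⟨k, hkn⟩ then 1 else 0 := by
        intro q _
        simp only [Fin.ext_iff]
      rw [Finset.sum_congr rfl e1, Finset.sum_ite_eq' Qᶜ ⟨k, hkn⟩]
      simp only [hQ, Finset.mem_compl, Finset.mem_filter, Finset.mem_univ, true_and]
      split_ifs with h2
      · omega
      · omega
    · rw [if_neg hkn] at hk
      rw [Finset.sum_eq_zero fun q _ => if_neg (by have := q.2; omega)]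
      omega
  clear_value Q
  clear hQ hval hκ
  obtain ⟨n₁, hm⟩ : ∃ n₁, Q.card = n₁ := ⟨_, rfl⟩
  obtain ⟨n₂, hn⟩ : ∃ n₂, Qᶜ.card = n₂ := ⟨_, rfl⟩
  have h12 : n₁ + n₂ = n := by
    rw [← hm, ← hn, Finset.card_add_card_compl, Fintype.card_fin]
  subst h12
  set σ : Equiv.Perm (Fin (n₁ + n₂)) :=
    finSumFinEquiv.symm.trans (finSumEquivOfFinset hm hn) with hσ
  have hσ1 : ∀ i : Fin n₁, σ (Fin.castAdd n₂ i) = Q.orderEmbOfFin hm i := by
    intro i
    rw [hσ, Equiv.trans_apply, finSumFinEquiv_symm_apply_castAdd, finSumEquivOfFinset_inl]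
  have hσ2 : ∀ i : Fin n₂, σ (Fin.natAdd n₁ i) = Qᶜ.orderEmbOfFin hn i := by
    intro i
    rw [hσ, Equiv.trans_apply, finSumFinEquiv_symm_apply_natAdd, finSumEquivOfFinset_inr]
  clear_value σ
  have hs1 : κ = ∑ i : Fin n₁, Finsupp.single (σ (Fin.castAdd n₂ i) : ℕ) 1 := by
    conv_lhs => rw [hκQ, ← Finset.map_orderEmbOfFin_univ Q hm, Finset.sum_map]
    exact Finset.sum_congr rfl fun i _ => by rw [hσ1]; rfl
  have hs2 : κ' = ∑ i : Fin n₂, Finsupp.single (σ (Fin.natAdd n₁ i) : ℕ) 1 := by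
    conv_lhs => rw [hκQ', ← Finset.map_orderEmbOfFin_univ Qᶜ hn, Finset.sum_map]
    exact Finset.sum_congr rfl fun i _ => by rw [hσ2]; rfl
  set ψ : ℕ → ℕ := extd fun k => (σ.symm k : ℕ) with hψ
  have hψσ : ∀ k : Fin (n₁ + n₂), ψ (σ k : ℕ) = k := by
    intro k
    rw [hψ, k16_extd, Equiv.symm_apply_apply]
  set χ : ℕ → ℕ := fun k => ψ k - n₁ with hχ
  have m1 : κ.mapDomain ψ = ∑ i ∈ Finset.range n₁, Finsupp.single i 1 := by
    rw [hs1, Finsupp.mapDomain_finsetSum, ← Fin.sum_univ_eq_sum_range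
      (fun i => (Finsupp.single i 1 : ℕ →₀ ℕ))]
    refine Finset.sum_congr rfl fun i _ => ?_
    rw [Finsupp.mapDomain_single, hψσ]
    rfl
  have m2 : κ'.mapDomain χ = ∑ i ∈ Finset.range n₂, Finsupp.single i 1 := by
    rw [hs2, Finsupp.mapDomain_finsetSum, ← Fin.sum_univ_eq_sum_range
      (fun i => (Finsupp.single i 1 : ℕ →₀ ℕ))]
    refine Finset.sum_congr rfl fun i _ => ?_
    rw [Finsupp.mapDomain_single, hχ]
    simp only [hψσ, Fin.val_natAdd, Nat.add_sub_cancel_left]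
  have hu' : lsub ψ u ∈ UL n₁ := by
    rw [UL_iff_MW, ← m1]
    exact k16_MW_lsub hu ψ
  have hv' : lsub χ v ∈ UL n₂ := by
    rw [UL_iff_MW, ← m2]
    exact k16_MW_lsub hv χ
  refine ⟨n₁, n₂, rfl, lsub ψ u, lsub χ v, σ, hu', GLS.lsub_mem (IU_GLS h hh) ψ huh, hv',
    GLS.lsub_mem hY χ hvY, ?_⟩
  rw [map_mul, lsub_lsub, lsub_lsub, lsub_lsub]
  have supp1 : ∀ k ∈ κ.support, ∃ i : Fin n₁, k = (σ (Fin.castAdd n₂ i) : ℕ) := by
    intro k hk
    by_contra hc
    push Not at hc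
    apply Finsupp.mem_support_iff.1 hk
    rw [hs1, Finsupp.finsetSum_apply]
    exact Finset.sum_eq_zero fun i _ => Finsupp.single_eq_of_ne (hc i)
  have supp2 : ∀ k ∈ κ'.support, ∃ i : Fin n₂, k = (σ (Fin.natAdd n₁ i) : ℕ) := by
    intro k hk
    by_contra hc
    push Not at hc
    apply Finsupp.mem_support_iff.1 hk
    rw [hs2, Finsupp.finsetSum_apply]
    exact Finset.sum_eq_zero fun i _ => Finsupp.single_eq_of_ne (hc i)
  have e1 : lsub ((extd fun k => (σ k : ℕ)) ∘ ψ) u = u := by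
    refine k16_congr hu _ fun k hk => ?_
    obtain ⟨i, rfl⟩ := supp1 k hk
    rw [Function.comp_apply, hψσ, k16_extd]
  have e2 : lsub (((extd fun k => (σ k : ℕ)) ∘ (· + n₁)) ∘ χ) v = v := by
    refine k16_congr hv _ fun k hk => ?_
    obtain ⟨i, rfl⟩ := supp2 k hk
    simp only [Function.comp_apply, hχ, hψσ, Fin.val_natAdd, Nat.add_sub_cancel_left]
    have e3 : (i : ℕ) + n₁ = ((Fin.natAdd n₁ i : Fin (n₁ + n₂)) : ℕ) := by
      rw [Fin.val_natAdd, add_comm]
    rw [e3, k16_extd]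
  rw [e1, e2]

end MP50e386N
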