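import Pool.Agent.Lib.MP_50e386_al.N.KDefs
import Pool.Agent.Lib.MP_50e386_al.N.K.Exp

/-! [N50 K19] (t8): values at a pulled back form. -/

namespace MP50e386N

open MvPolynomial

variable {E O E' O' : Type} [Fintype E] [Fintype O] [DecidableEq E] [DecidableEq O]
  [Fintype E'] [Fintype O'] [DecidableEq E'] [DecidableEq O'] {n : ℕ}

/-- entries of the parity preserving matrix `(M, M')` -/
def MM (M : E' → E → ℂ) (M' : O' → O → ℂ) (y' : E' ⊕ O') (y : E ⊕ O) : ℂ := match y', y with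
  | Sum.inl a', Sum.inl a => M a' a
  | Sum.inr b', Sum.inr b => M' b' b
  | _, _ => 0

/-- the pulled back table -/
private def k19_T (M : E' → E → ℂ) (M' : O' → O → ℂ) {n : ℕ} (w : (Fin n → E' ⊕ O') → ℂ) :
    (Fin n → E ⊕ O) → ℂ := fun τ => ∑ τ', (∏ k, MM M M' (τ' k) (τ k)) * w τ'

/-- the statement for `f` -/
private def k19_Q (W : Form E' O') (M : E' → E → ℂ) (M' : O' → O → ℂ) (n : ℕ) (f : UA) : Prop :=
  ∃ w, IsW n W f w ∧ IsW n (W.pull M M') f (k19_T M M' w)

omit [Fintype E] [Fintype O] [DecidableEq E] [DecidableEq O] [DecidableEq E'] [DecidableEq O'] in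
private theorem k19_perm (M : E' → E → ℂ) (M' : O' → O → ℂ) (w : (Fin n → E' ⊕ O') → ℂ)
    (σ : Equiv.Perm (Fin n)) (τ : Fin n → E ⊕ O) :
    k19_T M M' (fun τ' => (kap σ (par ∘ τ') : ℂ) * w (τ' ∘ σ)) τ =
      (kap σ (par ∘ τ) : ℂ) * k19_T M M' w (τ ∘ σ) := by
  unfold k19_T
  have h1 : ∀ τ' : Fin n → E' ⊕ O', (∏ k, MM M M' (τ' k) (τ k)) *
      ((kap σ (par ∘ τ') : ℂ) * w (τ' ∘ σ)) =
      (kap σ (par ∘ τ) : ℂ) * ((∏ k, MM M M' (τ' k) (τ k)) * w (τ' ∘ σ)) := by
    intro τ'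
    by_cases h : (∏ k, MM M M' (τ' k) (τ k)) = 0
    · rw [h]; ring
    · have hp : (par ∘ τ' : Fin n → Bool) = par ∘ τ := by
        funext k
        have hk : MM M M' (τ' k) (τ k) ≠ 0 := fun h0 =>
          h (Finset.prod_eq_zero (Finset.mem_univ k) h0)
        simp only [Function.comp_apply]
        rcases h1 : τ' k with a' | b' <;> rcases h2 : τ k with a | b
        · rfl
        · rw [h1, h2] at hk
          exact absurd rfl hk
        · rw [h1, h2] at hk
          exact absurd rfl hk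
        · rfl
      rw [hp]; ring
  rw [Finset.sum_congr rfl fun τ' _ => h1 τ', ← Finset.mul_sum]
  congr 1
  rw [← (Equiv.arrowCongr σ (Equiv.refl (E' ⊕ O'))).sum_comp
    (fun τ' => (∏ k, MM M M' (τ' k) (τ k)) * w (τ' ∘ σ))]
  refine Finset.sum_congr rfl fun τ' _ => ?_
  have h2 : ((Equiv.arrowCongr σ (Equiv.refl (E' ⊕ O'))) τ') ∘ σ = τ' := by
    funext k
    simp [Equiv.arrowCongr]
  rw [h2]
  congr 1
  rw [← Equiv.prod_comp σ]
  refine Finset.prod_congr rfl fun k _ => ?_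
  have h3 := congrFun h2 k
  simp only [Function.comp_apply] at h3
  rw [h3]
  rfl

omit [Fintype E] [Fintype O] [DecidableEq E] [DecidableEq O] in
private theorem k19_cat (M : E' → E → ℂ) (M' : O' → O → ℂ) {n' n : ℕ}
    (w' : (Fin n' → E' ⊕ O') → ℂ) (w : (Fin n → E' ⊕ O') → ℂ) (τ : Fin (n' + n) → E ⊕ O) :
    k19_T M M' (fun τ' => w' (τ' ∘ Fin.castAdd n) * w (τ' ∘ Fin.natAdd n')) τ =
      k19_T M M' w' (τ ∘ Fin.castAdd n) * k19_T M M' w (τ ∘ Fin.natAdd n') := by
  unfold k19_T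
  rw [Finset.sum_mul_sum, ← Finset.sum_product', ← (Fin.appendEquiv n' n).sum_comp]
  refine Finset.sum_congr rfl fun p _ => ?_
  have h1 : (Fin.appendEquiv n' n p : Fin (n' + n) → E' ⊕ O') ∘ Fin.castAdd n = p.1 := by
    funext k
    simp [Fin.appendEquiv]
  have h2 : (Fin.appendEquiv n' n p : Fin (n' + n) → E' ⊕ O') ∘ Fin.natAdd n' = p.2 := by
    funext k
    simp [Fin.appendEquiv]
  beta_reduce
  rw [h1, h2, Fin.prod_univ_add]
  have h3 : ∀ k, (Fin.appendEquiv n' n p : Fin (n' + n) → E' ⊕ O') (Fin.castAdd n k) = p.1 k :=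
    fun k => congrFun h1 k
  have h4 : ∀ k, (Fin.appendEquiv n' n p : Fin (n' + n) → E' ⊕ O') (Fin.natAdd n' k) = p.2 k :=
    fun k => congrFun h2 k
  simp only [h3, h4, Function.comp_apply]
  ring

private theorem k19_Q_cat (W : Form E' O') (M : E' → E → ℂ) (M' : O' → O → ℂ) {n' n : ℕ}
    {h f : UA} (hh : h ∈ UL n') (hf : f ∈ UL n) (h1 : k19_Q W M M' n' h) (h2 : k19_Q W M M' n f) :
    k19_Q W M M' (n' + n) (h * lsub (· + n') f) := by
  obtain ⟨w', a1, a2⟩ := h1
  obtain ⟨w, b1, b2⟩ := h2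
  refine ⟨_, isW_cat W hh hf a1 b1, ?_⟩
  have e : k19_T M M' (fun τ' : Fin (n' + n) → E' ⊕ O' =>
      w' (τ' ∘ Fin.castAdd n) * w (τ' ∘ Fin.natAdd n')) =
      fun τ => k19_T M M' w' (τ ∘ Fin.castAdd n) * k19_T M M' w (τ ∘ Fin.natAdd n') := by
    funext τ
    exact k19_cat M M' w' w τ
  rw [e]
  exact isW_cat (W.pull M M') hh hf a2 b2

private theorem k19_Q_edge (W : Form E' O') (M : E' → E → ℂ) (M' : O' → O → ℂ) :
    k19_Q W M M' 2 (C (X s(0, 1))) := by
  refine ⟨_, isW_edge W, ?_⟩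
  have e : k19_T M M' (fun τ' : Fin 2 → E' ⊕ O' => We W (τ' 0) (τ' 1)) =
      fun τ => We (W.pull M M') (τ 0) (τ 1) := by
    funext τ
    unfold k19_T
    rw [← (finTwoArrowEquiv (E' ⊕ O')).symm.sum_comp, Fintype.sum_prod_type]
    simp only [Fin.prod_univ_two]
    have e0 : ∀ x y : E' ⊕ O', (finTwoArrowEquiv (E' ⊕ O')).symm (x, y) 0 = x := fun _ _ => rfl
    have e1 : ∀ x y : E' ⊕ O', (finTwoArrowEquiv (E' ⊕ O')).symm (x, y) 1 = y := fun _ _ => rfl
    simp only [e0, e1]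
    generalize τ 0 = y0
    generalize τ 1 = y1
    rcases y0 with a | b <;> rcases y1 with a' | b'
    · simp only [Fintype.sum_sum_type, MM, We, Form.pull, zero_mul, mul_zero,
        Finset.sum_const_zero, add_zero]
    · simp only [Fintype.sum_sum_type, MM, We, zero_mul, mul_zero,
        Finset.sum_const_zero, add_zero]
    · simp only [Fintype.sum_sum_type, MM, We, zero_mul, mul_zero,
        Finset.sum_const_zero, add_zero]
    · simp only [Fintype.sum_sum_type, MM, We, Form.pull, zero_mul, mul_zero,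
        Finset.sum_const_zero, add_zero, zero_add]
  rw [e]
  exact isW_edge (W.pull M M')

private theorem k19_Q_leg (W : Form E' O') (M : E' → E → ℂ) (M' : O' → O → ℂ) (a : ℕ) :
    k19_Q W M M' 1 (X (a, 0)) := by
  refine ⟨_, isW_leg W a, ?_⟩
  have e : k19_T M M' (fun τ' : Fin 1 → E' ⊕ O' => Wl W a (τ' 0)) =
      fun τ => Wl (W.pull M M') a (τ 0) := by
    funext τ
    unfold k19_T
    rw [← (Equiv.funUnique (Fin 1) (E' ⊕ O')).symm.sum_comp]
    simp only [Fin.prod_univ_one]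
    have e0 : ∀ x : E' ⊕ O', (Equiv.funUnique (Fin 1) (E' ⊕ O')).symm x 0 = x := fun _ => rfl
    simp only [e0]
    generalize τ 0 = y0
    rcases y0 with a' | b'
    · simp only [Fintype.sum_sum_type, MM, Wl, Form.pull, zero_mul, mul_zero,
        Finset.sum_const_zero, add_zero]
    · simp only [Fintype.sum_sum_type, MM, Wl, zero_mul, mul_zero,
        Finset.sum_const_zero, add_zero]
  rw [e]
  exact isW_leg (W.pull M M') a

private theorem k19_Q_one (W : Form E' O') (M : E' → E → ℂ) (M' : O' → O → ℂ) :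
    k19_Q W M M' 0 (1 : UA) := by
  refine ⟨_, isW_one W, ?_⟩
  have e : k19_T M M' (fun _ : Fin 0 → E' ⊕ O' => (1 : ℂ)) = fun _ => 1 := by
    funext τ
    unfold k19_T
    simp
  rw [e]
  exact isW_one (W.pull M M')

private theorem k19_Q_mon (W : Form E' O') (M : E' → E → ℂ) (M' : O' → O → ℂ) :
    ∀ (e : ℕ) (as : List ℕ), k19_Q W M M' (2 * e + as.length) (mon e as) := by
  intro e
  induction e with
  | zero =>
    intro as
    induction as with
    | nil =>
      rw [show mon 0 [] = 1 by rw [mon]]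
      exact k19_Q_one W M M'
    | cons a as ih =>
      rw [show mon 0 (a :: as) = X (a, 0) * lsub (· + 1) (mon 0 as) by rw [mon]]
      have h := k19_Q_cat W M M' (leg_mem_UL a) (mon_mem_UL 0 as) (k19_Q_leg W M M' a) ih
      have e1 : 1 + (2 * 0 + as.length) = 2 * 0 + (a :: as).length := by
        rw [List.length_cons]; ring
      rw [e1] at h
      exact h
  | succ e ih =>
    intro as
    rw [show mon (e + 1) as = C (X s(0, 1)) * lsub (· + 2) (mon e as) by rw [mon]]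
    have h := k19_Q_cat W M M' edge_mem_UL (mon_mem_UL e as) (k19_Q_edge W M M') (ih as)
    have e1 : 2 + (2 * e + as.length) = 2 * (e + 1) + as.length := by ring
    rw [e1] at h
    exact h

private theorem k19_Q_perm (W : Form E' O') (M : E' → E → ℂ) (M' : O' → O → ℂ) {n : ℕ} {f : UA}
    (hfU : f ∈ UL n) (h : k19_Q W M M' n f) (σ : Equiv.Perm (Fin n)) :
    k19_Q W M M' n (lsub (extd fun k => (σ k : ℕ)) f) := by
  obtain ⟨w, a1, a2⟩ := h
  refine ⟨_, isW_perm W hfU a1 σ, ?_⟩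
  have e : k19_T M M' (fun τ' : Fin n → E' ⊕ O' => (kap σ (par ∘ τ') : ℂ) * w (τ' ∘ σ)) =
      fun τ => (kap σ (par ∘ τ) : ℂ) * k19_T M M' w (τ ∘ σ) := by
    funext τ
    exact k19_perm M M' w σ τ
  rw [e]
  exact isW_perm (W.pull M M') hfU a2 σ

private theorem k19_zero (W : Form E' O') {n : ℕ} : IsW n W (0 : UA) 0 := by
  intro T _ _ S φ
  rw [map_zero, map_zero]
  simp

private theorem k19_Q_all (W : Form E' O') (M : E' → E → ℂ) (M' : O' → O → ℂ) {n : ℕ} {f : UA}
    (hfU : f ∈ UL n) : k19_Q W M M' n f := by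
  obtain ⟨L, D, hfD⟩ := exists_BD f
  have hs := span_UL n L D f hfU hfD
  clear hfU hfD
  induction hs using Submodule.span_induction with
  | mem g hg =>
    obtain ⟨e, as, σ, h1, -, -, rfl⟩ := hg
    subst h1
    exact k19_Q_perm W M M' (mon_mem_UL e as) (k19_Q_mon W M M' e as) σ
  | zero =>
    refine ⟨0, k19_zero W, ?_⟩
    have e : k19_T M M' (0 : (Fin n → E' ⊕ O') → ℂ) = 0 := by
      funext τ
      unfold k19_T
      simp
    rw [e]
    exact k19_zero (W.pull M M')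
  | add g g' _ _ h1 h2 =>
    obtain ⟨w, a1, a2⟩ := h1
    obtain ⟨w', b1, b2⟩ := h2
    refine ⟨w + w', isW_add W a1 b1, ?_⟩
    have e : k19_T M M' (w + w') = k19_T M M' w + k19_T M M' w' := by
      funext τ
      unfold k19_T
      simp only [Pi.add_apply, mul_add, Finset.sum_add_distrib]
    rw [e]
    exact isW_add (W.pull M M') a2 b2
  | smul c g _ h =>
    obtain ⟨w, a1, a2⟩ := h
    refine ⟨c • w, isW_smul W a1 c, ?_⟩
    have e : k19_T M M' (c • w) = c • k19_T M M' w := by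
      funext τ
      unfold k19_T
      simp only [Pi.smul_apply, smul_eq_mul, Finset.mul_sum]
      exact Finset.sum_congr rfl fun _ _ => by ring
    rw [e]
    exact isW_smul (W.pull M M') a2 c

/-- (t8) -/
theorem isW_pull (W : Form E' O') (M : E' → E → ℂ) (M' : O' → O → ℂ) {f : UA} (hfU : f ∈ UL n)
    {w : (Fin n → E' ⊕ O') → ℂ} (hf : IsW n W f w) :
    IsW n (W.pull M M') f (fun τ => ∑ τ', (∏ k, MM M M' (τ' k) (τ k)) * w τ') := by
  obtain ⟨w', h1, h2⟩ := k19_Q_all W M M' hfU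
  have e := isW_unique W hf h1
  subst e
  exact h2

end MP50e386N
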