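import Pool.Agent.Lib.MP_50e386_al.N.KDefs
import Pool.Agent.Lib.MP_50e386_al.N.H8
import Pool.Agent.Lib.MP_50e386_al.N.K.TStd
import Pool.Agent.Lib.MP_50e386_al.N.K.Pull
import Pool.Agent.Lib.MP_50e386_al.N.K.La

/-! [N50 K27] vanishing of the values at degenerate forms. -/

namespace MP50e386N

open MvPolynomial MP50e386

/-- the evaluation of constants only depends on the form, not on the legs -/
private theorem k27_evF_C {E O T : Type} [Fintype E] [Fintype O] [Ring T] [Algebra ℂ T]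
    (S : SAlg E O ℂ T) (W W' : Form E O) (hbe : ∀ a a', W.be a a' = W'.be a a')
    (hze : ∀ b b', W.ze b b' = W'.ze b b') (g : MP50e386.A) :
    evF S W (C g) = evF S W' (C g) := by
  unfold evF
  rw [eval₂Hom_C, eval₂Hom_C]
  have h : ∀ i j, evx S W i j = evx S W' i j := by
    intro i j
    unfold evx
    simp only [hbe, hze]
  congr 2
  apply MvPolynomial.algHom_ext
  intro x
  rw [aeval_X, aeval_X]
  induction x using Sym2.ind with
  | _ i j =>
    simp only [Sym2.lift_mk]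
    exact Subtype.ext (h i j)

private theorem k27_isW_congr {E O : Type} [Fintype E] [Fintype O] [DecidableEq E] [DecidableEq O]
    {n : ℕ} (W W' : Form E O) (hbe : ∀ a a', W.be a a' = W'.be a a')
    (hze : ∀ b b', W.ze b b' = W'.ze b b') {f : MP50e386.A} {w : (Fin n → E ⊕ O) → ℂ}
    (hw : IsW n W (C f) w) : IsW n W' (C f) w := by
  intro T _ _ S φ
  have h := hw T S φ
  rw [lsub_C] at h ⊢
  rw [← k27_evF_C S W W' hbe hze]
  exact h

private theorem k27_C_mem_LL (f : MP50e386.A) (L : ℕ) : (C f : UA) ∈ LL L := by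
  intro m hm p hp
  have h0 : m = 0 := by
    by_contra hne
    rw [MvPolynomial.mem_support_iff, coeff_C, if_neg (fun h => hne h.symm)] at hm
    exact hm rfl
  subst h0
  simp at hp

private theorem k27_extd_val (n : ℕ) : extd (fun k : Fin n => (k : ℕ)) = id := by
  funext k
  unfold extd
  split_ifs <;> rfl

private theorem k27_lis_nodup {E O : Type} {n : ℕ} (τ : Fin n → E ⊕ O) :
    (lis τ (fun k => (k : ℕ))).Nodup := by
  unfold lis
  rw [List.nodup_ofFn]
  intro a b hab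
  exact Fin.ext (Prod.ext_iff.1 hab).2

private theorem k27_lis_perm {E O : Type} {n : ℕ} {τ τ' : Fin n → E ⊕ O}
    (h : (lis τ (fun k => (k : ℕ))).Perm (lis τ' (fun k => (k : ℕ)))) : τ = τ' := by
  funext k
  have h1 : (τ k, (k : ℕ)) ∈ lis τ (fun k => (k : ℕ)) := by
    unfold lis
    rw [List.mem_ofFn]
    exact ⟨k, rfl⟩
  have h2 := h.mem_iff.1 h1
  unfold lis at h2
  rw [List.mem_ofFn] at h2
  obtain ⟨j, hj⟩ := h2
  have h3 : j = k := Fin.ext (Prod.ext_iff.1 hj).2
  subst h3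
  exact (Prod.ext_iff.1 hj).1.symm

/-- the values of an element of `J_{r|s}` at the standard form are `0` -/
theorem isW_std_Jrs (r s : ℕ) {n : ℕ} {f : MP50e386.A} (hf : f ∈ Jrs r s)
    {w : (Fin n → (Fin r ⊕ Fin 0) ⊕ (Fin s ⊕ Fin s)) → ℂ}
    (hw : IsW n (stdW r 0 s) (C f) w) : w = 0 := by
  classical
  obtain ⟨T, _, _, S, hS⟩ := exists_SAlg_std r 0 s
  have h0 : evF S (stdW r 0 s) (C f) = 0 := by
    rw [hS _ (k27_C_mem_LL f 0)]
    intro m
    rw [coeff_C]
    split_ifs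
    · exact hf
    · exact Ideal.zero_mem _
  have h1 := hw T S (fun k => (k : ℕ))
  rw [k27_extd_val, lsub_id, h0] at h1
  funext τ₀
  have h2 := congrArg (S.coef (lis τ₀ (fun k => (k : ℕ)))) h1
  rw [map_sum, Finset.sum_eq_single τ₀] at h2
  · rw [map_smul] at h2
    have h3 : S.coef (lis τ₀ fun k => (k : ℕ)) (S.pp (lis τ₀ fun k => (k : ℕ))) = 1 :=
      S.coef_self _ (k27_lis_nodup τ₀)
    rw [h3] at h2
    simpa using h2.symm
  · intro τ _ hτ
    rw [map_smul]
    have h3 : S.coef (lis τ₀ fun k => (k : ℕ)) (S.pp (lis τ fun k => (k : ℕ))) = 0 :=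
      S.coef_ne _ _ (fun hp => hτ (k27_lis_perm hp).symm)
    rw [h3, smul_zero]
  · intro h
    exact absurd (Finset.mem_univ _) h

/-- a multilinear element with zero values at one nondegenerate form is in `J_{r|s}` -/
theorem mem_Jrs_of_w (r s : ℕ) {n : ℕ} {f : MP50e386.A} (hfU : (C f : UA) ∈ UL n)
    (W : Form (Fin r ⊕ Fin 0) (Fin s ⊕ Fin s)) (hb : (Matrix.of W.be).det ≠ 0)
    (hz : (Matrix.of W.ze).det ≠ 0) (hw : IsW n W (C f) 0) : f ∈ Jrs r s := by
  classical
  obtain ⟨M, hM⟩ := symm_congr_one W.be W.be_symm hb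
  obtain ⟨M', hM'⟩ := anti_congr_std s W.ze W.ze_anti hz
  have h1 := isW_pull W M M' hfU hw
  have h2 : IsW n (stdW r 0 s) (C f)
      (fun τ => ∑ τ', (∏ k, MM M M' (τ' k) (τ k)) * (0 : (Fin n → (Fin r ⊕ Fin 0) ⊕
        (Fin s ⊕ Fin s)) → ℂ) τ') := by
    refine k27_isW_congr (W.pull M M') (stdW r 0 s) ?_ ?_ h1
    · intro a a'
      have := hM a a'
      change ∑ u, ∑ u', M u a * M u' a' * W.be u u' = _
      rw [this]
      rcases a with i | i
      · rcases a' with j | j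
        · simp [stdW]
        · exact j.elim0
      · exact i.elim0
    · intro b b'
      have := hM' b b'
      change ∑ u, ∑ u', M' u b * M' u' b' * W.ze u u' = _
      rw [this]
      rfl
  obtain ⟨T, _, _, S, hS⟩ := exists_SAlg_std r 0 s
  have h3 := h2 T S (fun k => (k : ℕ))
  rw [k27_extd_val, lsub_id] at h3
  have h4 : evF S (stdW r 0 s) (C f) = 0 := by
    apply Subtype.ext
    rw [h3]
    simp
  have h5 := (hS _ (k27_C_mem_LL f 0)).1 h4 0
  rw [coeff_C, if_pos rfl] at h5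
  exact h5

/-- the main step for the degenerate forms -/
private theorem k27_zero_of_pull {r s r' s' n : ℕ} {f : MP50e386.A} (hf : f ∈ Jrs r' s')
    (hfU : (C f : UA) ∈ UL n) (W : Form (Fin r ⊕ Fin 0) (Fin s ⊕ Fin s))
    (M : Fin r' → Fin r ⊕ Fin 0 → ℂ) (hM : ∀ a a', W.be a a' = ∑ u, M u a * M u a')
    (M' : Fin s' ⊕ Fin s' → Fin s ⊕ Fin s → ℂ)
    (hM' : ∀ b b', W.ze b b' = ∑ u, ∑ u', M' u b * M' u' b' * Jst s' u u')
    {w : (Fin n → (Fin r ⊕ Fin 0) ⊕ (Fin s ⊕ Fin s)) → ℂ}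
    (hw : IsW n W (C f) w) : w = 0 := by
  classical
  obtain ⟨w', hw'⟩ := exists_isW (stdW r' 0 s') hfU
  have h0 : w' = 0 := isW_std_Jrs r' s' hf hw'
  subst h0
  have h1 := isW_pull (stdW r' 0 s')
    (fun (u : Fin r' ⊕ Fin 0) (a : Fin r ⊕ Fin 0) => Sum.elim (fun i => M i a)
      (fun j => j.elim0) u) M' hfU hw'
  have h2 : IsW n W (C f) 0 := by
    have h3 := k27_isW_congr _ W ?_ ?_ h1
    · convert h3 using 1
      funext τ
      simp
    · intro a a'
      rw [hM]
      change ∑ u, ∑ u', _ * _ * (stdW r' 0 s').be u u' = _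
      rw [Fintype.sum_sum_type]
      simp only [Fintype.sum_sum_type, Finset.univ_eq_empty, Finset.sum_empty, add_zero]
      refine Finset.sum_congr rfl fun u _ => ?_
      rw [Finset.sum_eq_single u]
      · simp [stdW]
      · intro u' _ hu'
        have : (stdW r' 0 s').be (Sum.inl u) (Sum.inl u') = 0 := by
          simp [stdW, hu'.symm]
        rw [this, mul_zero]
      · intro h
        exact absurd (Finset.mem_univ _) h
    · intro b b'
      rw [hM']
      rfl
  exact isW_unique W hw h2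

/-- values of elements of `J_{r-1|s}` at forms with degenerate even part -/
theorem w_zero_be (r s : ℕ) {n : ℕ} {f : MP50e386.A} (hf : f ∈ detIdeal r (s + 1))
    (hfU : (C f : UA) ∈ UL n) (W : Form (Fin r ⊕ Fin 0) (Fin s ⊕ Fin s))
    (hb : (Matrix.of W.be).det = 0) {w : (Fin n → (Fin r ⊕ Fin 0) ⊕ (Fin s ⊕ Fin s)) → ℂ}
    (hw : IsW n W (C f) w) : w = 0 := by
  rcases r with _ | r
  · exfalso
    rw [Matrix.det_isEmpty] at hb
    exact one_ne_zero hb
  · rw [← hook] at hf
    obtain ⟨M, hM⟩ := symm_factor_low r (by simp) W.be W.be_symm hb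
    obtain ⟨M', hM'⟩ := anti_factor_std s W.ze W.ze_anti
    exact k27_zero_of_pull hf hfU W M hM M' hM' hw

/-- values of elements of `J_{r|s-1}` at forms with degenerate odd part -/
theorem w_zero_ze (r s : ℕ) {n : ℕ} {f : MP50e386.A} (hf : f ∈ detIdeal (r + 1) s)
    (hfU : (C f : UA) ∈ UL n) (W : Form (Fin r ⊕ Fin 0) (Fin s ⊕ Fin s))
    (hb : (Matrix.of W.ze).det = 0) {w : (Fin n → (Fin r ⊕ Fin 0) ⊕ (Fin s ⊕ Fin s)) → ℂ}
    (hw : IsW n W (C f) w) : w = 0 := by
  rcases s with _ | s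
  · exfalso
    rw [Matrix.det_isEmpty] at hb
    exact one_ne_zero hb
  · rw [← hook] at hf
    obtain ⟨M, hM⟩ := symm_factor_full r (by simp) W.be W.be_symm
    obtain ⟨M', hM'⟩ := anti_factor s W.ze W.ze_anti hb
    exact k27_zero_of_pull hf hfU W M hM M' hM' hw

end MP50e386N
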