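import Pool.Agent.Lib.MP_50e386_al.N.KDefs
import Pool.Agent.Lib.MP_50e386_al.N.K.P5d
import Pool.Agent.Lib.MP_50e386_al.N.K.Red
import Pool.Agent.Lib.MP_50e386_al.N.K.Van
import Pool.Agent.Lib.MP_50e386_al.N.K.Ntn
import Pool.Agent.Lib.MP_50e386_al.N.K.ChiL
import Pool.Agent.Lib.MP_50e386_al.N.K.FtSS
import Pool.Agent.Lib.MP_50e386_al.N.K.ArAbs
import Pool.Agent.Lib.MP_50e386_al.N.K.Pol
import Pool.Agent.Lib.MP_50e386_al.N.K.Split

/-! [N50 K30] a power of `F₀ = det X₀ det X₁` is in `Φ₀(I)`. -/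

namespace MP50e386N

open MvPolynomial MP50e386

/-- the form of a point satisfying the relations -/
private noncomputable def k30_form {E O : Type} (x : (E × E) ⊕ (O × O) → ℂ)
    (h1 : ∀ a a', x (Sum.inl (a, a')) = x (Sum.inl (a', a)))
    (h2 : ∀ b b', x (Sum.inr (b, b')) = - x (Sum.inr (b', b))) : Form E O where
  be a a' := x (Sum.inl (a, a'))
  be_symm a a' := h1 a a'
  ze b b' := x (Sum.inr (b, b'))
  ze_anti b b' := h2 b b'
  le _ _ := 0

private theorem k30_kev {E O : Type} (x : (E × E) ⊕ (O × O) → ℂ)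
    (h1 : ∀ a a', x (Sum.inl (a, a')) = x (Sum.inl (a', a)))
    (h2 : ∀ b b', x (Sum.inr (b, b')) = - x (Sum.inr (b', b))) :
    kev (k30_form x h1 h2) = aeval x := by
  refine MvPolynomial.algHom_ext fun v => ?_
  rcases v with v | v
  · simp [kev, k30_form]
  · simp [kev, k30_form]

private theorem k30_kev_F0 {E O : Type} [Fintype E] [Fintype O] [DecidableEq E] [DecidableEq O]
    (W : Form E O) :
    kev W (F0 E O) = (Matrix.of W.be).det * (Matrix.of W.ze).det := by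
  unfold F0
  rw [map_mul, AlgHom.map_det, AlgHom.map_det]
  congr 2
  · ext a a'
    simp [kev]
  · ext a a'
    simp [kev]

/-- the Nullstellensatz step -/
private theorem k30_radical {E O : Type} [Fintype E] [Fintype O] [DecidableEq E] [DecidableEq O]
    (aI : Ideal (KK E O)) (hR : Rel E O ≤ aI)
    (h : ∀ W : Form E O, (∀ P ∈ aI, kev W P = 0) → kev W (F0 E O) = 0) :
    F0 E O ∈ aI.radical := by
  rw [← MvPolynomial.vanishingIdeal_zeroLocus_eq_radical (K := ℂ), MvPolynomial.mem_vanishingIdeal_iff]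
  intro x hx
  rw [MvPolynomial.mem_zeroLocus_iff] at hx
  have h1 : ∀ a a', x (Sum.inl (a, a')) = x (Sum.inl (a', a)) := by
    intro a a'
    have := hx _ (hR (Ideal.subset_span (Or.inl ⟨a, a', rfl⟩)))
    rw [map_sub, aeval_X, aeval_X] at this
    exact sub_eq_zero.1 this
  have h2 : ∀ b b', x (Sum.inr (b, b')) = - x (Sum.inr (b', b)) := by
    intro b b'
    have := hx _ (hR (Ideal.subset_span (Or.inr ⟨b, b', rfl⟩)))
    rw [map_add, aeval_X, aeval_X] at this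
    exact eq_neg_of_add_eq_zero_left this
  have h3 := h (k30_form x h1 h2) (fun P hP => by
    rw [k30_kev]
    exact hx P hP)
  rw [k30_kev] at h3
  exact h3

private theorem k30_Chi_pow {E O T : Type} [Fintype E] [Fintype O] [Ring T] [Algebra UA T]
    [Algebra ℂ T] (S : SAlg E O UA T) (m : ℕ) : Chi S 1 ^ m ≤ Chi S m := by
  induction m with
  | zero =>
    rw [pow_zero, Submodule.one_le]
    exact one_mem_Chi S
  | succ m ih =>
    rw [pow_succ]
    exact (mul_le_mul' ih le_rfl).trans (Chi_mul S m 1)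

theorem F0_pow_mem (r s : ℕ) {T : Type} [Ring T] [Algebra UA T] [Algebra ℂ T]
    [IsScalarTower ℂ UA T] (S : SAlg (Fin r ⊕ Fin 0) (Fin s ⊕ Fin s) UA T) (I : Ideal MP50e386.A)
    (hI : ∀ w : ℕ → MP50e386.V, ∀ f ∈ I, MP50e386.sub w f ∈ I) (hne : ¬ I ≤ Jrs r s) :
    ∃ Q : ℕ, (F0 (Fin r ⊕ Fin 0) (Fin s ⊕ Fin s)) ^ Q • (1 : TN S) ∈
      Chi S 0 ⊓ NTN S (IU I) := by
  classical
  have hJ : ∀ w : ℕ → MP50e386.V, ∀ f ∈ Jrs r s, MP50e386.sub w f ∈ Jrs r s := by
    rw [hook]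
    exact fun w => detIdeal_stable (r + 1) (s + 1) w
  -- a multilinear element of `I` not in `Jrs`
  obtain ⟨n, f, hfU, hfI, hfJ⟩ : ∃ (n : ℕ) (f : MP50e386.A), (C f : UA) ∈ UL n ∧ f ∈ I ∧
      f ∉ Jrs r s := by
    by_contra hcon
    push Not at hcon
    apply hne
    have h1 : IU I ≤ IU (Jrs r s) := by
      refine le_of_UL _ _ (IU_GLS _ hJ) (IU_GLS _ hI) ?_
      rintro n _ hf ⟨g, hg, rfl⟩
      exact ⟨g, hcon n g hf hg, rfl⟩
    intro g hg
    obtain ⟨g', hg', he⟩ := h1 ⟨g, hg, rfl⟩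
    have : g' = g := MvPolynomial.C_injective _ _ he
    rw [← this]
    exact hg'
  set H : Submodule (KK (Fin r ⊕ Fin 0) (Fin s ⊕ Fin s)) (TN S) := Chi S 0 ⊓ NTN S (IU I) with hH
  set aI : Ideal (KK (Fin r ⊕ Fin 0) (Fin s ⊕ Fin s)) :=
    Submodule.comap (LinearMap.toSpanSingleton _ (TN S) 1) (H ⊔ Chi S 1) with haI
  have haI_mem : ∀ P, P ∈ aI ↔ P • (1 : TN S) ∈ H ⊔ Chi S 1 := by
    intro P
    rw [haI, Submodule.mem_comap, LinearMap.toSpanSingleton_apply]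
  have hRel : Rel (Fin r ⊕ Fin 0) (Fin s ⊕ Fin s) ≤ aI := by
    intro P hP
    rw [haI_mem, Rel_smul S hP]
    exact Submodule.zero_mem _
  have hft : ∀ τ : Fin n → (Fin r ⊕ Fin 0) ⊕ (Fin s ⊕ Fin s), ft S τ (C f) ∈ H := by
    intro τ
    exact ⟨ft_C_mem_Chi S τ hfU, fun m => ft_mem_NT S (IU_GLS I hI) τ ⟨f, hfI, rfl⟩ m⟩
  have hrad := k30_radical aI hRel (by
    intro W hW
    by_contra h0
    rw [k30_kev_F0] at h0
    have hb := left_ne_zero_of_mul h0
    have hz := right_ne_zero_of_mul h0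
    obtain ⟨w, hw⟩ := exists_isW W hfU
    have hw0 : w ≠ 0 := by
      rintro rfl
      exact hfJ (mem_Jrs_of_w r s hfU W hb hz hw)
    apply hw0
    funext τ
    obtain ⟨P, hP1, hP2⟩ := redK S hfU τ
    have hPa : P ∈ aI := by
      rw [haI_mem]
      have h1 : ft S τ (C f) - (ft S τ (C f) - P • (1 : TN S)) ∈ H ⊔ Chi S 1 :=
        Submodule.sub_mem _ (Submodule.mem_sup_left (hft τ)) (Submodule.mem_sup_right hP1)
      rwa [sub_sub_cancel] at h1
    rw [← hP2 W w hw, hW P hPa, Pi.zero_apply])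
  obtain ⟨q, hq⟩ := hrad
  rw [haI_mem] at hq
  set c := Fintype.card (Fin r ⊕ Fin 0) * Fintype.card (Fin s ⊕ Fin s) with hc
  have h2 := sup_pow_le (Chi S 0) H (Chi S 1) (by simpa using Chi_mul S 0 0) (one_mem_Chi S)
    inf_le_left (Chi_anti S (Nat.zero_le 1))
    (le_inf ((mul_le_mul' le_rfl inf_le_left).trans (by simpa using Chi_mul S 0 0))
      ((mul_le_mul' le_rfl inf_le_right).trans (Chi_mul_NTN S _)))
    (le_inf ((mul_le_mul' inf_le_left le_rfl).trans (by simpa using Chi_mul S 0 0))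
      ((mul_le_mul' inf_le_right le_rfl).trans (NTN_mul_Chi S _)))
    (by simpa using Chi_mul S 0 1) (by simpa using Chi_mul S 1 0) 1 c le_rfl
  have h3 : Chi S 1 ^ (c + 1) = ⊥ := by
    rw [eq_bot_iff, ← Chi_eq_bot S]
    exact k30_Chi_pow S (c + 1)
  rw [h3, pow_one, sup_bot_eq] at h2
  refine ⟨q * (1 + c), ?_⟩
  have h4 := h2 (Submodule.pow_mem_pow _ hq (1 + c))
  rw [smul_pow, one_pow, ← pow_mul] at h4
  exact h4

end MP50e386N
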