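import Pool.Agent.Lib.MP_50e386_al.N.KDefs
import Pool.Agent.Lib.MP_50e386_al.N.K.Split
import Pool.Agent.Lib.MP_50e386_al.N.K.Ft1
import Pool.Agent.Lib.MP_50e386_al.N.K.Ft2
import Pool.Agent.Lib.MP_50e386_al.N.K.Ntn
import Pool.Agent.Lib.MP_50e386_al.N.K.FtSS

/-! [N50 K17] the span of the super evaluations of a stable submodule. -/

namespace MP50e386N

open MvPolynomial

variable {E O T : Type} [Fintype E] [Fintype O] [Ring T] [Algebra UA T] [Algebra ℂ T]
  [IsScalarTower ℂ UA T] (S : SAlg E O UA T)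

/-- span of the `f_τ`, `f ∈ Y` multilinear -/
noncomputable def Psi (Y : Submodule MP50e386.A UA) : Submodule (KK E O) (TN S) :=
  Submodule.span (KK E O) {x | ∃ (n : ℕ) (τ : Fin n → E ⊕ O) (f : UA), f ∈ UL n ∧ f ∈ Y ∧
    x = ft S τ f}

theorem Psi_le_NTN (Y : Submodule MP50e386.A UA) (hY : GLS Y) : Psi S Y ≤ NTN S Y := by
  refine Submodule.span_le.2 ?_
  rintro x ⟨n, τ, f, -, hfY, rfl⟩
  exact (mem_NTN S).2 fun m => ft_mem_NT S hY τ hfY m

theorem Psi_le_SSD (Y : Submodule MP50e386.A UA) (L D : ℕ) (hYD : Y ≤ BD MP50e386.A L D) :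
    Psi S Y ≤ SSD S L D := by
  refine Submodule.span_le.2 ?_
  rintro x ⟨n, τ, f, hf, hfY, rfl⟩
  exact ft_mem_SSD S τ hf (hYD hfY)

theorem Psi_IU_le (h : Ideal MP50e386.A) : Psi S (IU h) ≤ Chi S 0 := by
  refine Submodule.span_le.2 ?_
  rintro x ⟨n, τ, f, hf, hfY, rfl⟩
  obtain ⟨g, -, rfl⟩ := hfY
  exact ft_C_mem_Chi S τ hf

private theorem k17_smul_mem (M : Submodule (KK E O) (TN S)) (c : ℂ) {x : TN S} (hx : x ∈ M) :
    c • x ∈ M := by
  have h1 : c • x = (C c : KK E O) • x := by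
    rw [Algebra.smul_def, Algebra.smul_def]
    congr 1
    change algebraMap ℂ (TN S) c = ((KH S (C c) : Subalgebra.center ℂ (TN S)) : TN S)
    have h2 : KH S (C c) = algebraMap ℂ (Subalgebra.center ℂ (TN S)) c := by
      unfold KH
      rw [aeval_C]
    rw [h2]
    rfl
  rw [h1]
  exact M.smul_mem _ hx

theorem Psi_smul (h : Ideal MP50e386.A) (Y : Submodule MP50e386.A UA)
    (hh : ∀ w : ℕ → MP50e386.V, ∀ f ∈ h, MP50e386.sub w f ∈ h) (hY : GLS Y) :
    Psi S (h • Y) ≤ Psi S (IU h) * Psi S Y := by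
  refine Submodule.span_le.2 ?_
  rintro x ⟨n, τ, f, hf, hfY, rfl⟩
  have hs := split_UL h Y hh hY n f hf hfY
  change ft S τ f ∈ Psi S (IU h) * Psi S Y
  clear hf hfY
  induction hs using Submodule.span_induction with
  | mem g hg =>
    obtain ⟨n₁, n₂, hn, u, v, σ, hu, huI, hv, hvY, rfl⟩ := hg
    subst hn
    rw [ft_perm S τ (UL_cat hu hv) σ]
    refine zsmul_mem ?_ _
    have h1 : (τ ∘ σ) = Fin.append (fun i => (τ ∘ σ) (Fin.castAdd n₂ i))
        (fun i => (τ ∘ σ) (Fin.natAdd n₁ i)) := (Fin.append_castAdd_natAdd).symm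
    rw [h1, ft_cat S _ _ hu hv]
    exact Submodule.mul_mem_mul (Submodule.subset_span ⟨n₁, _, u, hu, huI, rfl⟩)
      (Submodule.subset_span ⟨n₂, _, v, hv, hvY, rfl⟩)
  | zero =>
    have h0 := ft_smul S τ 0 (0 : UA)
    rw [zero_smul, zero_smul] at h0
    rw [h0]
    exact Submodule.zero_mem _
  | add a b _ _ ha hb =>
    rw [ft_add]
    exact Submodule.add_mem _ ha hb
  | smul c a _ ha =>
    rw [ft_smul]
    exact k17_smul_mem S _ c ha

private theorem k17_pow_GLS (h : Ideal MP50e386.A) (Y : Submodule MP50e386.A UA)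
    (hh : ∀ w : ℕ → MP50e386.V, ∀ f ∈ h, MP50e386.sub w f ∈ h) (hY : GLS Y) (K : ℕ) :
    GLS (h ^ K • Y) := by
  induction K with
  | zero =>
    rw [pow_zero, one_smul]
    exact hY
  | succ K ih =>
    rw [pow_succ', Submodule.mul_smul]
    exact smul_GLS h _ hh ih

theorem Psi_pow_smul (h : Ideal MP50e386.A) (Y : Submodule MP50e386.A UA)
    (hh : ∀ w : ℕ → MP50e386.V, ∀ f ∈ h, MP50e386.sub w f ∈ h) (hY : GLS Y) (K : ℕ) :
    Psi S (h ^ K • Y) ≤ Psi S (IU h) ^ K * Psi S Y := by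
  induction K with
  | zero => rw [pow_zero, one_smul, pow_zero, one_mul]
  | succ K ih =>
    rw [pow_succ', Submodule.mul_smul, pow_succ', mul_assoc]
    refine (Psi_smul S h _ hh (k17_pow_GLS h Y hh hY K)).trans ?_
    exact mul_le_mul_right ih _

end MP50e386N
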