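import Pool.Agent.Lib.MP_50e386_al.N.KDefs
import Pool.Agent.Lib.MP_50e386_al.N.H8
import Pool.Agent.Lib.MP_50e386_al.N.K.P5d
import Pool.Agent.Lib.MP_50e386_al.N.K.P5a
import Pool.Agent.Lib.MP_50e386_al.N.K.ArAbs
import Pool.Agent.Lib.MP_50e386_al.N.K.Ntn
import Pool.Agent.Lib.MP_50e386_al.N.K.ChiL
import Pool.Agent.Lib.MP_50e386_al.N.K.Red
import Pool.Agent.Lib.MP_50e386_al.N.K.Van
import Pool.Agent.Lib.MP_50e386_al.N.K.Crit
import Pool.Agent.Lib.MP_50e386_al.N.K.Mdeg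
import Pool.Agent.Lib.MP_50e386_al.N.K.Coef
import Pool.Agent.Lib.MP_50e386_al.N.K.Psi
import Pool.Agent.Lib.MP_50e386_al.N.K.TT

/-! [N50 K29] KP5. -/

namespace MP50e386N

open MvPolynomial MP50e386

/-- stability of a product of stable ideals -/
private theorem k29_stab_mul {I I' : Ideal MP50e386.A}
    (hI : ∀ w : ℕ → MP50e386.V, ∀ f ∈ I, MP50e386.sub w f ∈ I)
    (hI' : ∀ w : ℕ → MP50e386.V, ∀ f ∈ I', MP50e386.sub w f ∈ I') (w : ℕ → MP50e386.V) :
    ∀ f ∈ I * I', MP50e386.sub w f ∈ I * I' := by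
  have h : I * I' ≤ (I * I').comap (MP50e386.sub w) := by
    rw [Ideal.mul_le]
    intro a ha b hb
    rw [Ideal.mem_comap, map_mul]
    exact Ideal.mul_mem_mul (hI w a ha) (hI' w b hb)
  exact fun f hf => h hf

private theorem k29_stab_pow {I : Ideal MP50e386.A}
    (hI : ∀ w : ℕ → MP50e386.V, ∀ f ∈ I, MP50e386.sub w f ∈ I) (K : ℕ) :
    ∀ w : ℕ → MP50e386.V, ∀ f ∈ I ^ K, MP50e386.sub w f ∈ I ^ K := by
  induction K with
  | zero =>
    intro w f _
    rw [pow_zero, Ideal.one_eq_top]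
    exact Submodule.mem_top
  | succ K ih =>
    rw [pow_succ]
    exact k29_stab_mul ih hI

private theorem k29_eop_mem {E O : Type} {N : Submodule MP50e386.A UA} (hN : GLS N) {n : ℕ}
    (τ : Fin n → E ⊕ O) {f : UA} (hf : f ∈ N) : eop τ f ∈ N := by
  unfold eop
  exact Submodule.sum_mem _ fun σ _ => zsmul_mem (hN _ f hf) _

private theorem k29_eop_add {E O : Type} {n : ℕ} (τ : Fin n → E ⊕ O) (f g : UA) :
    eop τ (f + g) = eop τ f + eop τ g := by
  unfold eop
  rw [← Finset.sum_add_distrib]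
  exact Finset.sum_congr rfl fun σ _ => by rw [map_add, smul_add]

private theorem k29_kev_F0 {E O : Type} [Fintype E] [Fintype O] [DecidableEq E] [DecidableEq O]
    (W : Form E O) :
    kev W (F0 E O) = (Matrix.of W.be).det * (Matrix.of W.ze).det := by
  unfold F0
  rw [map_mul, AlgHom.map_det, AlgHom.map_det]
  congr 2
  · ext a a'
    simp [kev]
  · ext a a'
    simp [kev]

section alg

variable {K R : Type} [CommRing K] [Ring R] [Algebra K R]

private theorem k29_mul (I J : Ideal K) (M N : Submodule K R) :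
    (I • M) * (J • N) ≤ (I * J) • (M * N) := by
  rw [Submodule.mul_le]
  intro x hx y hy
  refine Submodule.smul_induction_on hx (fun a ha m hm => ?_) (fun x x' h h' => ?_)
  · refine Submodule.smul_induction_on hy (fun b hb n hn => ?_) (fun y y' h h' => ?_)
    · rw [smul_mul_smul_comm]
      exact Submodule.smul_mem_smul (Ideal.mul_mem_mul ha hb) (Submodule.mul_mem_mul hm hn)
    · rw [mul_add]
      exact Submodule.add_mem _ h h'
  · rw [add_mul]
    exact Submodule.add_mem _ h h'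

private theorem k29_mul_left (J : Ideal K) (M N : Submodule K R) (h : M * N ≤ N) :
    M * (J • N) ≤ J • N := by
  have h1 := k29_mul (⊤ : Ideal K) J M N
  rw [Submodule.top_smul, Ideal.top_mul] at h1
  exact h1.trans (Submodule.smul_mono le_rfl h)

private theorem k29_mul_right (J : Ideal K) (M N : Submodule K R) (h : N * M ≤ N) :
    (J • N) * M ≤ J • N := by
  have h1 := k29_mul J (⊤ : Ideal K) N M
  rw [Submodule.top_smul, Ideal.mul_top] at h1
  exact h1.trans (Submodule.smul_mono le_rfl h)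

private theorem k29_pow (I : Ideal K) (M : Submodule K R) (h1 : (1 : R) ∈ M) (h : M * M ≤ M)
    (p : ℕ) : (I • M) ^ p ≤ I ^ p • M := by
  induction p with
  | zero =>
    rw [pow_zero, pow_zero, Ideal.one_eq_top, Submodule.top_smul]
    exact Submodule.one_le.2 h1
  | succ p ih =>
    rw [pow_succ, pow_succ]
    exact (mul_le_mul' ih le_rfl).trans ((k29_mul _ _ _ _).trans (Submodule.smul_mono le_rfl h))

end alg

private theorem k29_chi_pow {E O T : Type} [Fintype E] [Fintype O] [Ring T] [Algebra UA T]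
    [Algebra ℂ T] (S : SAlg E O UA T) (m : ℕ) : Chi S 1 ^ m ≤ Chi S m := by
  induction m with
  | zero =>
    rw [pow_zero, Submodule.one_le]
    exact one_mem_Chi S
  | succ m ih =>
    rw [pow_succ]
    exact (mul_le_mul' ih le_rfl).trans (Chi_mul S m 1)

private theorem k29_IU_mono {I I' : Ideal MP50e386.A} (h : I ≤ I') : IU I ≤ IU I' :=
  Submodule.map_mono h

private theorem k29_smul_IU (I : Ideal MP50e386.A) : I • IU ⊤ = IU I := by
  unfold IU
  rw [← Submodule.map_smul'']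
  congr 1
  rw [smul_eq_mul, Ideal.mul_top]

private theorem k29_le_of_IU {I I' : Ideal MP50e386.A} (h : IU I ≤ IU I') : I ≤ I' := by
  intro g hg
  obtain ⟨g', hg', he⟩ := h ⟨g, hg, rfl⟩
  have : g' = g := MvPolynomial.C_injective _ _ he
  rw [← this]
  exact hg'

theorem KP5' (r s : ℕ) (I : Ideal MP50e386.A)
    (hI : ∀ w : ℕ → MP50e386.V, ∀ f ∈ I, MP50e386.sub w f ∈ I)
    (hJ : detIdeal (r + 1) (s + 1) ≤ I) (hne : I ≠ detIdeal (r + 1) (s + 1)) :
    ∃ q : ℕ, (detIdeal r (s + 1) * detIdeal (r + 1) s) ^ q ≤ I := by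
  classical
  obtain ⟨T, _, _, _, _, ⟨S⟩⟩ := exists_SAlg (Fin r ⊕ Fin 0) (Fin s ⊕ Fin s) UA
  set h : Ideal MP50e386.A := detIdeal r (s + 1) * detIdeal (r + 1) s with hh
  have hst : ∀ w : ℕ → MP50e386.V, ∀ f ∈ h, MP50e386.sub w f ∈ h :=
    k29_stab_mul (detIdeal_stable _ _) (detIdeal_stable _ _)
  have hle1 : h ≤ detIdeal r (s + 1) := Ideal.mul_le_left
  have hle2 : h ≤ detIdeal (r + 1) s := Ideal.mul_le_right
  have hnle : ¬ I ≤ Jrs r s := by
    rw [hook]
    exact fun hle => hne (le_antisymm hle hJ)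
  obtain ⟨Q, hQ⟩ := F0_pow_mem r s S I hI hnle
  have hIG : GLS (IU I) := IU_GLS I hI
  set c := Fintype.card (Fin r ⊕ Fin 0) * Fintype.card (Fin s ⊕ Fin s) with hc
  set H : Submodule (KK (Fin r ⊕ Fin 0) (Fin s ⊕ Fin s)) (TN S) := Chi S 0 ⊓ NTN S (IU I) with hH
  have hCC : Chi S 0 * Chi S 0 ≤ Chi S 0 := by simpa using Chi_mul S 0 0
  have hHC : H * Chi S 0 ≤ H :=
    le_inf ((mul_le_mul' inf_le_left le_rfl).trans hCC)
      ((mul_le_mul' inf_le_right le_rfl).trans (NTN_mul_Chi S _))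
  -- the ideal of the polynomials vanishing at the degenerate forms
  let bb : Ideal (KK (Fin r ⊕ Fin 0) (Fin s ⊕ Fin s)) :=
    { carrier := {P | ∀ W : Form (Fin r ⊕ Fin 0) (Fin s ⊕ Fin s),
        kev W (F0 (Fin r ⊕ Fin 0) (Fin s ⊕ Fin s)) = 0 → kev W P = 0}
      add_mem' := fun {a b} ha hb W hW => by rw [map_add, ha W hW, hb W hW, add_zero]
      zero_mem' := fun W _ => map_zero _
      smul_mem' := fun a b hb W hW => by rw [smul_eq_mul, map_mul, hb W hW, mul_zero] }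
  obtain ⟨e, he⟩ := nullst bb (F0 (Fin r ⊕ Fin 0) (Fin s ⊕ Fin s)) (fun P hP => hP)
  have hPsi : Psi S (IU h) ≤ bb • Chi S 0 ⊔ Chi S 1 := by
    refine Submodule.span_le.2 ?_
    rintro x ⟨n, τ, _, hf, ⟨f, hfh, rfl⟩, rfl⟩
    have hf' : (C f : UA) ∈ UL n := hf
    obtain ⟨P, hP1, hP2⟩ := redK S hf' τ
    have hPb : P ∈ bb := by
      intro W hW
      obtain ⟨w, hw⟩ := exists_isW W hf'
      have hw0 : w = 0 := by
        rw [k29_kev_F0] at hW
        rcases mul_eq_zero.1 hW with h0 | h0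
        · exact w_zero_be r s (hle1 hfh) hf' W h0 hw
        · exact w_zero_ze r s (hle2 hfh) hf' W h0 hw
      rw [hP2 W w hw, hw0, Pi.zero_apply]
    have h1 : P • (1 : TN S) ∈ bb • Chi S 0 := Submodule.smul_mem_smul hPb (one_mem_Chi S)
    have h2 : P • (1 : TN S) + (ft S τ (C f) - P • (1 : TN S)) ∈ bb • Chi S 0 ⊔ Chi S 1 :=
      Submodule.add_mem _ (Submodule.mem_sup_left h1) (Submodule.mem_sup_right hP1)
    rw [add_sub_cancel] at h2
    exact h2
  have hH' : (Ideal.span {F0 (Fin r ⊕ Fin 0) (Fin s ⊕ Fin s)} ^ Q ⊔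
      Rel (Fin r ⊕ Fin 0) (Fin s ⊕ Fin s)) • Chi S 0 ≤ H := by
    rw [Submodule.smul_le]
    intro P hP x hx
    obtain ⟨a, ha, b, hb, rfl⟩ := Submodule.mem_sup.1 hP
    rw [Ideal.span_singleton_pow, Ideal.mem_span_singleton'] at ha
    obtain ⟨a', rfl⟩ := ha
    rw [add_smul, Rel_smul S hb, add_zero, mul_smul]
    refine Submodule.smul_mem _ _ (hHC ?_)
    have h1 := Submodule.mul_mem_mul hQ hx
    rw [smul_mul_assoc, one_mul] at h1
    exact h1
  have hpow : Psi S (IU h) ^ (e * (Q + 1) + 1 + c) ≤ H := by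
    have h1 := sup_pow_le (Chi S 0) (bb • Chi S 0) (Chi S 1) hCC (one_mem_Chi S)
      Submodule.smul_le_right (Chi_anti S (Nat.zero_le 1)) (k29_mul_left _ _ _ hCC)
      (k29_mul_right _ _ _ hCC) (by simpa using Chi_mul S 0 1) (by simpa using Chi_mul S 1 0)
      (e * (Q + 1) + 1) c (by omega)
    have h3 : Chi S 1 ^ (c + 1) = ⊥ := by
      rw [eq_bot_iff, ← Chi_eq_bot S]
      exact k29_chi_pow S (c + 1)
    rw [h3, sup_bot_eq] at h1
    refine (pow_le_pow_left' hPsi _).trans (h1.trans ((k29_pow _ _ (one_mem_Chi S) hCC _).trans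
      (le_trans (Submodule.smul_mono_left ?_) hH')))
    have h4 : bb ^ (e * (Q + 1) + 1) ≤ (bb ^ e) ^ (Q + 1) := by
      rw [← pow_mul]
      exact Ideal.pow_le_pow_right (Nat.le_succ _)
    refine h4.trans ((pow_le_pow_left' he _).trans ?_)
    have h5 := Ideal.sup_pow_add_le_pow_sup_pow
      (I := Ideal.span {F0 (Fin r ⊕ Fin 0) (Fin s ⊕ Fin s)})
      (J := Rel (Fin r ⊕ Fin 0) (Fin s ⊕ Fin s)) (n := Q) (m := 1)
    rwa [pow_one] at h5
  set q := e * (Q + 1) + 1 + c with hq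
  refine ⟨q, k29_le_of_IU (le_sup_left.trans (?_ : IU (h ^ q) ⊔ IU I ≤ IU I))⟩
  have hqG : GLS (IU (h ^ q)) := IU_GLS _ (k29_stab_pow hst q)
  have hTG : GLS (IU (⊤ : Ideal MP50e386.A)) := IU_GLS _ (fun _ _ _ => Submodule.mem_top)
  have hB : BD MP50e386.A 0 0 = IU ⊤ := BD_zero
  refine crit r s 0 0 (IU I) (IU (h ^ q) ⊔ IU I) hIG (GLS.sup hqG hIG) ?_ le_sup_right ?_ ?_
  · rw [hB, k29_smul_IU, hook]
    exact k29_IU_mono hJ
  · rw [hB]
    exact sup_le (k29_IU_mono le_top) (k29_IU_mono le_top)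
  · intro n f hf hfN τ
    obtain ⟨f1, f2, hf1, hf1h, hf2, hf2I, rfl⟩ := UL_sup _ _ hqG hIG n f hf hfN
    rw [k29_eop_add]
    refine Submodule.add_mem _ ?_ (k29_eop_mem hIG τ hf2I)
    have h1 : ft S τ f1 ∈ Psi S (h ^ q • IU ⊤) := by
      rw [k29_smul_IU]
      exact Submodule.subset_span ⟨n, τ, f1, hf1, hf1h, rfl⟩
    have h2 : ft S τ f1 ∈ H := by
      refine hHC ?_
      exact (mul_le_mul' hpow (Psi_IU_le S ⊤)) (Psi_pow_smul S h (IU ⊤) hst hTG q h1)
    exact eop_mem S τ hf1 (h2.2 n)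

end MP50e386N
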