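import Pool.Agent.Lib.MP_50e386_al.N.KDefs
import Pool.Agent.Lib.MP_50e386_al.N.H8
import Pool.Agent.Lib.MP_50e386_al.N.K.TT
import Pool.Agent.Lib.MP_50e386_al.N.K.Crit
import Pool.Agent.Lib.MP_50e386_al.N.K.Coef
import Pool.Agent.Lib.MP_50e386_al.N.K.Psi
import Pool.Agent.Lib.MP_50e386_al.N.K.Split
import Pool.Agent.Lib.MP_50e386_al.N.K.Pol
import Pool.Agent.Lib.MP_50e386_al.N.K.FtSS
import Pool.Agent.Lib.MP_50e386_al.N.K.ChiL
import Pool.Agent.Lib.MP_50e386_al.N.K.Ntn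

/-! [N50 K23] KP6: ACC for stable submodules. -/

namespace MP50e386N

open MvPolynomial MP50e386

theorem KP6' (r s L D : ℕ) (N : ℕ → Submodule MP50e386.A (U MP50e386.A)) (hmono : Monotone N)
    (hN : ∀ i, GLS (N i) ∧ detIdeal (r + 1) (s + 1) • BD MP50e386.A L D ≤ N i ∧
      N i ≤ BD MP50e386.A L D) : ∃ n0, ∀ n ≥ n0, N n = N n0 := by
  obtain ⟨T, _, _, _, _, ⟨S⟩⟩ := exists_SAlg (Fin r ⊕ Fin L) (Fin s ⊕ Fin s) UA
  have hfin : Module.Finite (KK (Fin r ⊕ Fin L) (Fin s ⊕ Fin s)) (SSD S L D) :=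
    Module.Finite.iff_fg.2 (SSD_fg S L D)
  have hnoeth : IsNoetherian (KK (Fin r ⊕ Fin L) (Fin s ⊕ Fin s)) (SSD S L D) :=
    isNoetherian_of_isNoetherianRing_of_finite _ _
  let Φ : ℕ →o Submodule (KK (Fin r ⊕ Fin L) (Fin s ⊕ Fin s)) (SSD S L D) :=
    ⟨fun i => (NTN S (N i)).comap (SSD S L D).subtype, fun i j hij =>
      Submodule.comap_mono (NTN_mono S (hmono hij))⟩
  obtain ⟨n0, hn0⟩ := monotone_stabilizes_iff_noetherian.2 hnoeth Φ
  refine ⟨n0, fun n hn => le_antisymm ?_ (hmono hn)⟩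
  refine crit r s L D (N n0) (N n) (hN n0).1 (hN n).1 ?_ (hmono hn) (hN n).2.2 ?_
  · rw [hook]
    exact (hN n0).2.1
  · intro m f hf hfN τ
    refine eop_mem S τ hf ?_
    have h1 : ft S τ f ∈ SSD S L D := ft_mem_SSD S τ hf ((hN n).2.2 hfN)
    have h2 : (⟨ft S τ f, h1⟩ : SSD S L D) ∈ Φ n := by
      change ft S τ f ∈ NTN S (N n)
      rw [mem_NTN]
      exact fun k => ft_mem_NT S (hN n).1 τ hfN k
    rw [← hn0 n hn] at h2
    have h3 : ft S τ f ∈ NTN S (N n0) := h2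
    rw [mem_NTN] at h3
    exact h3 m

end MP50e386N
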