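import Pool.Agent.Lib.MP_50e386_al.N.KDefs
import Pool.Agent.Lib.MP_50e386_al.N.H8
import Pool.Agent.Lib.MP_50e386_al.N.K.TT
import Pool.Agent.Lib.MP_50e386_al.N.K.Crit
import Pool.Agent.Lib.MP_50e386_al.N.K.Mdeg
import Pool.Agent.Lib.MP_50e386_al.N.K.Coef
import Pool.Agent.Lib.MP_50e386_al.N.K.Psi
import Pool.Agent.Lib.MP_50e386_al.N.K.Split
import Pool.Agent.Lib.MP_50e386_al.N.K.Pol
import Pool.Agent.Lib.MP_50e386_al.N.K.FtSS
import Pool.Agent.Lib.MP_50e386_al.N.K.ChiL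
import Pool.Agent.Lib.MP_50e386_al.N.K.Ntn
import Pool.Agent.Lib.MP_50e386_al.N.K.ArAbs

/-! [N50 K24] KP7: Artin-Rees for stable submodules. -/

namespace MP50e386N

open MvPolynomial MP50e386

/-- stability of a product of stable ideals -/
private theorem k24_mul {I I' : Ideal MP50e386.A}
    (hI : ∀ w : ℕ → MP50e386.V, ∀ f ∈ I, MP50e386.sub w f ∈ I)
    (hI' : ∀ w : ℕ → MP50e386.V, ∀ f ∈ I', MP50e386.sub w f ∈ I') (w : ℕ → MP50e386.V) :
    ∀ f ∈ I * I', MP50e386.sub w f ∈ I * I' := by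
  have h : I * I' ≤ (I * I').comap (MP50e386.sub w) := by
    rw [Ideal.mul_le]
    intro a ha b hb
    rw [Ideal.mem_comap, map_mul]
    exact Ideal.mul_mem_mul (hI w a ha) (hI' w b hb)
  exact fun f hf => h hf

private theorem k24_pow {I : Ideal MP50e386.A}
    (hI : ∀ w : ℕ → MP50e386.V, ∀ f ∈ I, MP50e386.sub w f ∈ I) (K : ℕ) :
    ∀ w : ℕ → MP50e386.V, ∀ f ∈ I ^ K, MP50e386.sub w f ∈ I ^ K := by
  induction K with
  | zero =>
    intro w f _
    rw [pow_zero, Ideal.one_eq_top]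
    exact Submodule.mem_top
  | succ K ih =>
    rw [pow_succ]
    exact k24_mul ih hI

private theorem k24_lsub_mem {N : Submodule MP50e386.A UA} (hN : GLS N) (φ : ℕ → ℕ) {f : UA}
    (hf : f ∈ N) : lsub φ f ∈ N := hN _ f hf

private theorem k24_eop_mem {E O : Type} {N : Submodule MP50e386.A UA} (hN : GLS N) {n : ℕ}
    (τ : Fin n → E ⊕ O) {f : UA} (hf : f ∈ N) : eop τ f ∈ N := by
  unfold eop
  exact Submodule.sum_mem _ fun σ _ => zsmul_mem (k24_lsub_mem hN _ hf) _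

private theorem k24_eop_add {E O : Type} {n : ℕ} (τ : Fin n → E ⊕ O) (f g : UA) :
    eop τ (f + g) = eop τ f + eop τ g := by
  unfold eop
  rw [← Finset.sum_add_distrib]
  exact Finset.sum_congr rfl fun σ _ => by rw [map_add, smul_add]

section T

variable {E O T : Type} [Fintype E] [Fintype O] [Ring T] [Algebra UA T] [Algebra ℂ T]
  [IsScalarTower ℂ UA T] (S : SAlg E O UA T)

private theorem k24_chi_pow (k : ℕ) : Chi S 1 ^ k ≤ Chi S k := by
  induction k with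
  | zero =>
    rw [pow_zero]
    exact Submodule.one_le.2 (one_mem_Chi S)
  | succ k ih =>
    rw [pow_succ]
    exact (mul_le_mul' ih le_rfl).trans (Chi_mul S k 1)

private theorem k24_pow_mul (h : Ideal MP50e386.A) (H M' : Submodule (KK E O) (TN S))
    (N : Submodule MP50e386.A UA) (hH : H ≤ NTN S (IU h)) (hM' : M' ≤ NTN S N) (k : ℕ) :
    H ^ k * M' ≤ NTN S (h ^ k • N) := by
  induction k with
  | zero =>
    rw [pow_zero, one_mul, pow_zero, Ideal.one_eq_top, Submodule.top_smul]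
    exact hM'
  | succ k ih =>
    rw [pow_succ', mul_assoc, pow_succ', Submodule.mul_smul]
    exact (mul_le_mul' hH ih).trans (NTN_mul S h (h ^ k • N))

end T

theorem KP7' (r s L D : ℕ) (N Y : Submodule MP50e386.A (U MP50e386.A)) (hN : GLS N) (hY : GLS Y)
    (hNY : N ≤ Y) (hYD : Y ≤ BD MP50e386.A L D)
    (hJN : detIdeal (r + 1) (s + 1) • BD MP50e386.A L D ≤ N) (K : ℕ) :
    ∃ K' : ℕ, N ⊓ ((detIdeal r (s + 1) * detIdeal (r + 1) s) ^ K' • Y ⊔
        detIdeal (r + 1) (s + 1) • BD MP50e386.A L D) ≤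
      (detIdeal r (s + 1) * detIdeal (r + 1) s) ^ K • N ⊔
        detIdeal (r + 1) (s + 1) • BD MP50e386.A L D := by
  obtain ⟨T, _, _, _, _, ⟨S⟩⟩ := exists_SAlg (Fin r ⊕ Fin L) (Fin s ⊕ Fin s) UA
  set J : Ideal MP50e386.A := detIdeal (r + 1) (s + 1) with hJ
  set h : Ideal MP50e386.A := detIdeal r (s + 1) * detIdeal (r + 1) s with hh
  have hJst : ∀ w : ℕ → MP50e386.V, ∀ f ∈ J, MP50e386.sub w f ∈ J := detIdeal_stable _ _
  have hst : ∀ w : ℕ → MP50e386.V, ∀ f ∈ h, MP50e386.sub w f ∈ h :=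
    k24_mul (detIdeal_stable _ _) (detIdeal_stable _ _)
  have hIU : GLS (IU h) := IU_GLS h hst
  have hJB : GLS (J • BD MP50e386.A L D) := smul_GLS J _ hJst (GLS_BD L D)
  -- the data of the abstract Artin-Rees lemma
  let H : Submodule (KK (Fin r ⊕ Fin L) (Fin s ⊕ Fin s)) (TN S) := Chi S 0 ⊓ NTN S (IU h)
  let M : Submodule (KK (Fin r ⊕ Fin L) (Fin s ⊕ Fin s)) (TN S) := SSD S L D ⊓ NTN S Y
  let M' : Submodule (KK (Fin r ⊕ Fin L) (Fin s ⊕ Fin s)) (TN S) := SSD S L D ⊓ NTN S N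
  have hChi0 : Chi S 0 * Chi S 0 ≤ Chi S 0 := Chi_mul S 0 0
  obtain ⟨K', hK'⟩ := ar_abs (Chi S 0) (Chi S 1) H M M'
    (Fintype.card (Fin r ⊕ Fin L) * Fintype.card (Fin s ⊕ Fin s)) (one_mem_Chi S) hChi0
    (Chi_zero_eq S) (by simpa using Chi_mul S 0 1) (Chi_mul S 1 0)
    (by
      refine le_antisymm ?_ bot_le
      exact (k24_chi_pow S _).trans (le_of_eq (Chi_eq_bot S)))
    inf_le_left
    (le_inf ((mul_le_mul' le_rfl inf_le_left).trans hChi0)
      ((mul_le_mul' le_rfl inf_le_right).trans (Chi_mul_NTN S _)))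
    (le_inf ((mul_le_mul' inf_le_left le_rfl).trans hChi0)
      ((mul_le_mul' inf_le_right le_rfl).trans (NTN_mul_Chi S _)))
    (Submodule.FG.of_le (SSD_fg S L D) inf_le_left)
    (inf_le_inf_left _ (NTN_mono S hNY))
    (le_inf ((mul_le_mul' le_rfl inf_le_left).trans (Chi_mul_SSD S L D))
      ((mul_le_mul' le_rfl inf_le_right).trans (Chi_mul_NTN S _)))
    (le_inf ((mul_le_mul' le_rfl inf_le_left).trans (Chi_mul_SSD S L D))
      ((mul_le_mul' le_rfl inf_le_right).trans (Chi_mul_NTN S _))) K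
  refine ⟨K', ?_⟩
  set N1 : Submodule MP50e386.A UA := h ^ K • N ⊔ J • BD MP50e386.A L D with hN1
  have hN1G : GLS N1 := GLS.sup (smul_GLS _ N (k24_pow hst K) hN) hJB
  have hAG : GLS (N ⊓ (h ^ K' • Y ⊔ J • BD MP50e386.A L D)) :=
    GLS.inf hN (GLS.sup (smul_GLS _ Y (k24_pow hst K') hY) hJB)
  have hNB : N ≤ BD MP50e386.A L D := hNY.trans hYD
  have key := crit r s L D N1 (N ⊓ (h ^ K' • Y ⊔ J • BD MP50e386.A L D) ⊔ N1) hN1G
    (GLS.sup hAG hN1G) (by rw [hook]; exact le_sup_right) le_sup_right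
    (sup_le (inf_le_left.trans hNB)
      (sup_le (Submodule.smul_le_right.trans hNB) Submodule.smul_le_right)) ?_
  · exact le_sup_left.trans key
  intro n f hf hfN τ
  obtain ⟨g, g', hg, hgA, hg', hgN', rfl⟩ := UL_sup _ _ hAG hN1G n f hf hfN
  rw [k24_eop_add]
  refine Submodule.add_mem _ ?_ (k24_eop_mem hN1G τ hgN')
  obtain ⟨f1, f2, hf1, hf1Y, hf2, hf2J, rfl⟩ := UL_sup _ _
    (smul_GLS _ Y (k24_pow hst K') hY) hJB n g hg hgA.2
  rw [k24_eop_add]
  refine Submodule.add_mem _ ?_ (k24_eop_mem hN1G τ (Submodule.mem_sup_right hf2J))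
  have hf1N : f1 ∈ N := by
    have h1 := Submodule.sub_mem _ hgA.1 (hJN hf2J)
    rwa [add_sub_cancel_right] at h1
  have hP : ∀ Y' : Submodule MP50e386.A UA, f1 ∈ Y' → ft S τ f1 ∈ Psi S Y' := fun Y' hY' =>
    Submodule.subset_span ⟨n, τ, f1, hf1, hY', rfl⟩
  have h1 : ft S τ f1 ∈ H ^ K' * M := by
    have h2 := Psi_pow_smul S h Y hst hY K' (hP _ hf1Y)
    have h4 : Psi S (IU h) ≤ H := le_inf (Psi_IU_le S h) (Psi_le_NTN S _ hIU)
    have h5 : Psi S Y ≤ M := le_inf (Psi_le_SSD S Y L D hYD) (Psi_le_NTN S Y hY)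
    have h6 : Psi S (IU h) ^ K' * Psi S Y ≤ H ^ K' * M :=
      mul_le_mul' (pow_le_pow_left' h4 K') h5
    exact h6 h2
  have h2 : ft S τ f1 ∈ M' := ⟨ft_mem_SSD S τ hf1 (hNB hf1N), Psi_le_NTN S N hN (hP _ hf1N)⟩
  have h3 : ft S τ f1 ∈ NTN S (h ^ K • N) :=
    k24_pow_mul S h H M' N inf_le_right inf_le_right K (hK' ⟨h2, h1⟩)
  exact Submodule.mem_sup_left (eop_mem S τ hf1 (h3 n))

end MP50e386N
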